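import Pool.Agent.U594.AD.Marking

set_option autoImplicit false

/-!
# The two radial markings
-/

open Set Topology Filter Matrix

noncomputable section

namespace Pool.Agent.U594.AD

/-- cube root of a nonnegative number -/
def cb (x : ℝ) : ℝ := x ^ ((1 : ℝ) / 3)

theorem cb_cube {x : ℝ} (hx : 0 ≤ x) : cb x ^ 3 = x := by
  rw [cb, ← Real.rpow_natCast, ← Real.rpow_mul hx]
  norm_num

theorem cb_nonneg {x : ℝ} (hx : 0 ≤ x) : 0 ≤ cb x := Real.rpow_nonneg hx _

theorem cb_zero : cb 0 = 0 := by rw [cb, Real.zero_rpow (by norm_num)]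

theorem cb_one : cb 1 = 1 := Real.one_rpow _

theorem cb_pos {x : ℝ} (hx : 0 < x) : 0 < cb x := Real.rpow_pos_of_pos hx _

theorem cb_lt {x y : ℝ} (hx : 0 ≤ x) (h : x < y) : cb x < cb y :=
  Real.rpow_lt_rpow hx h (by norm_num)

theorem cb_cont : Continuous cb := Real.continuous_rpow_const (by norm_num)

/-- the function `λ ↦ λ^(1/3) / ((1 - λ)^(1/3) + λ^(1/3))` -/
def sg (x : ℝ) : ℝ := cb x / (cb (1 - x) + cb x)

theorem sg_den {x : ℝ} (h0 : 0 ≤ x) (h1 : x ≤ 1) : 0 < cb (1 - x) + cb x := by
  rcases h0.lt_or_eq with h | h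
  · have := cb_pos h
    have := cb_nonneg (sub_nonneg.2 h1)
    linarith
  · rw [← h, cb_zero, sub_zero, cb_one]
    norm_num

theorem sg_zero : sg 0 = 0 := by rw [sg, cb_zero, zero_div]

theorem sg_one : sg 1 = 1 := by rw [sg, sub_self, cb_zero, cb_one]; norm_num

theorem sg_half : sg (1 / 2) = 1 / 2 := by
  have h : 0 < cb (1 / 2) := cb_pos (by norm_num)
  rw [sg, show (1 : ℝ) - 1 / 2 = 1 / 2 by norm_num]
  field_simp
  norm_num

theorem sg_lt {x y : ℝ} (hx : 0 ≤ x) (h : x < y) (hy : y ≤ 1) : sg x < sg y := by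
  have h1 := sg_den hx (h.le.trans hy)
  have h2 := sg_den (hx.trans h.le) hy
  have h3 := cb_lt hx h
  have h4 : cb (1 - y) < cb (1 - x) := cb_lt (by linarith) (by linarith)
  have h5 := cb_nonneg hx
  have h6 := cb_nonneg (sub_nonneg.2 hy)
  rw [sg, sg, div_lt_div_iff₀ h1 h2]
  nlinarith

/-- the change of the radial parameter -/
def ta (l : ℝ) : ℝ := sg (max l 0) - sg (max (-l) 0)

theorem ta_of_nonneg {l : ℝ} (h : 0 ≤ l) : ta l = sg l := by
  rw [ta, max_eq_left h, max_eq_right (by linarith), sg_zero, sub_zero]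

theorem ta_of_nonpos {l : ℝ} (h : l ≤ 0) : ta l = -sg (-l) := by
  rw [ta, max_eq_right h, max_eq_left (by linarith), sg_zero, zero_sub]

theorem ta_lt {x y : ℝ} (hx : -1 ≤ x) (h : x < y) (hy : y ≤ 1) : ta x < ta y := by
  rcases le_or_gt 0 x with h1 | h1
  · rw [ta_of_nonneg h1, ta_of_nonneg (h1.trans h.le)]
    exact sg_lt h1 h hy
  · rcases le_or_gt 0 y with h2 | h2
    · rw [ta_of_nonpos h1.le, ta_of_nonneg h2]
      have h3 : sg 0 < sg (-x) := sg_lt le_rfl (by linarith) (by linarith)
      have h4 : sg 0 ≤ sg y := by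
        rcases h2.lt_or_eq with h5 | h5
        · exact (sg_lt le_rfl h5 hy).le
        · rw [← h5]
      rw [sg_zero] at h3 h4
      linarith
    · rw [ta_of_nonpos h1.le, ta_of_nonpos h2.le]
      have := sg_lt (x := -y) (y := -x) (by linarith) (by linarith) (by linarith)
      linarith

theorem ta_neg_one : ta (-1) = -1 := by
  rw [ta_of_nonpos (by norm_num), neg_neg, sg_one]

theorem ta_one : ta 1 = 1 := by rw [ta_of_nonneg (by norm_num), sg_one]

theorem ta_zero : ta 0 = 0 := by rw [ta_of_nonneg le_rfl, sg_zero]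

theorem ta_neg_half : ta (-1 / 2) = -1 / 2 := by
  rw [ta_of_nonpos (by norm_num), show -(-1 / 2 : ℝ) = 1 / 2 by norm_num, sg_half]
  norm_num

theorem ta_half : ta (1 / 2) = 1 / 2 := by
  rw [ta_of_nonneg (by norm_num), sg_half]

theorem ta_continuousOn : ContinuousOn ta (Icc (-1) 1) := by
  have h : ContinuousOn sg (Icc 0 1) := by
    refine ContinuousOn.div cb_cont.continuousOn ?_ ?_
    · exact ((cb_cont.comp (continuous_const.sub continuous_id)).add cb_cont).continuousOn
    · intro x hx
      exact (sg_den hx.1 hx.2).ne'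
  refine ContinuousOn.sub ?_ ?_
  · refine h.comp (by fun_prop) ?_
    intro x hx
    exact ⟨le_max_right _ _, max_le hx.2 zero_le_one⟩
  · refine h.comp (by fun_prop) ?_
    intro x hx
    exact ⟨le_max_right _ _, max_le (by linarith [hx.1]) zero_le_one⟩

/-- the radius of the curve in the direction of `w` -/
def Aw (w : ℂ) : ℝ := 3 ^ (w / (‖w‖ : ℂ)).re

theorem Aw_pos (w : ℂ) : 0 < Aw w := Real.rpow_pos_of_pos (by norm_num) _

theorem Aw_le (w : ℂ) : Aw w ≤ 3 := by
  have h1 : (w / (‖w‖ : ℂ)).re ≤ 1 :=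
    (Complex.re_le_norm _).trans (norm_dir_le w)
  calc Aw w ≤ 3 ^ (1 : ℝ) := Real.rpow_le_rpow_of_exponent_le (by norm_num) h1
    _ = 3 := Real.rpow_one 3

theorem Aw_ge (w : ℂ) : 1 / 3 ≤ Aw w := by
  have h1 : -1 ≤ (w / (‖w‖ : ℂ)).re := by
    have h2 := (abs_le.1 ((Complex.abs_re_le_norm (w / (‖w‖ : ℂ))).trans (norm_dir_le w))).1
    exact h2
  calc (1 : ℝ) / 3 = 3 ^ (-1 : ℝ) := by rw [Real.rpow_neg_one]; norm_num
    _ ≤ Aw w := Real.rpow_le_rpow_of_exponent_le (by norm_num) h1

theorem continuousAt_Aw {w : ℂ} (hw : w ≠ 0) : ContinuousAt Aw w := by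
  have h1 : ContinuousAt (fun w : ℂ => (w / (‖w‖ : ℂ)).re) w :=
    Complex.continuous_re.continuousAt.comp (continuousAt_dir hw)
  exact ContinuousAt.comp (f := fun w : ℂ => (w / (‖w‖ : ℂ)).re) (x := w)
    (g := fun y : ℝ => (3 : ℝ) ^ y)
    (Real.continuous_const_rpow (by norm_num)).continuousAt h1

/-- the radial function of the marking `φ` -/
def Rphi (z : Sph) : ℝ := z.elim 1 fun w => (‖w‖ - Aw w) / (‖w‖ + Aw w)

theorem Rphi_coe (w : ℂ) : Rphi (w : Sph) = (‖w‖ - Aw w) / (‖w‖ + Aw w) := rfl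

theorem Rphi_infty : Rphi OnePoint.infty = 1 := rfl

theorem Rphi_zero : Rphi ((0 : ℂ) : Sph) = -1 := by
  rw [Rphi_coe, Aw]
  simp

theorem Rphi_one : Rphi ((1 : ℂ) : Sph) = -1 / 2 := by
  rw [Rphi_coe, Aw]
  simp
  norm_num

theorem Rphi_neg_one : Rphi ((-1 : ℂ) : Sph) = 1 / 2 := by
  rw [Rphi_coe, Aw]
  simp
  rw [Real.rpow_neg_one]
  norm_num

theorem Rphi_ray {u : ℂ} (hu : ‖u‖ = 1) {r : ℝ} (hr : 0 < r) :
    Rphi (ray u r) = (r - 3 ^ u.re) / (r + 3 ^ u.re) := by
  have h1 : ‖(r : ℂ) * u‖ = r := by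
    rw [norm_mul, hu, mul_one, Complex.norm_real, Real.norm_eq_abs, abs_of_pos hr]
  rw [ray, Rphi_coe, Aw, dir_ray hu hr, h1]

theorem Rphi_continuous : Continuous Rphi := by
  rw [continuous_iff_continuousAt]
  intro z
  induction z using OnePoint.rec with
  | infty =>
    rw [OnePoint.continuousAt_infty', Filter.coclosedCompact_eq_cocompact,
      ← Metric.cobounded_eq_cocompact, Rphi_infty]
    have h1 : Tendsto (fun w : ℂ => 6 / ‖w‖) (Bornology.cobounded ℂ) (𝓝 0) :=
      tendsto_norm_cobounded_atTop.const_div_atTop 6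
    rw [tendsto_iff_norm_sub_tendsto_zero]
    refine squeeze_zero' (Eventually.of_forall fun _ => norm_nonneg _) ?_ h1
    filter_upwards [(hasBasis_cobounded_norm (E := ℂ)).mem_of_mem (i := 1) trivial] with w hw
    have hw : 1 ≤ ‖w‖ := hw
    have h2 := Aw_pos w
    have h3 := Aw_le w
    simp only [Function.comp]
    rw [Rphi_coe, Real.norm_eq_abs, abs_le]
    have h4 : 0 < ‖w‖ + Aw w := by linarith
    have h5 : (‖w‖ - Aw w) / (‖w‖ + Aw w) - 1 = -(2 * Aw w / (‖w‖ + Aw w)) := by
      field_simp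
      ring
    have h6 : 2 * Aw w / (‖w‖ + Aw w) ≤ 6 / ‖w‖ := by
      rw [div_le_div_iff₀ h4 (by linarith)]
      nlinarith
    have h7 : 0 ≤ 2 * Aw w / (‖w‖ + Aw w) := by positivity
    rw [h5]
    constructor <;> linarith
  | coe z =>
    rw [OnePoint.continuousAt_coe]
    by_cases hz : z = 0
    · subst hz
      have h1 : Tendsto (fun w : ℂ => 6 * ‖w‖) (𝓝 0) (𝓝 0) := by
        have : Continuous fun w : ℂ => 6 * ‖w‖ := by fun_prop
        have h2 := this.tendsto 0
        simpa using h2
      show Tendsto (fun w : ℂ => Rphi (w : Sph)) (𝓝 0) (𝓝 (Rphi ((0 : ℂ) : Sph)))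
      rw [Rphi_zero, tendsto_iff_norm_sub_tendsto_zero]
      refine squeeze_zero (fun _ => norm_nonneg _) ?_ h1
      intro w
      have h2 := Aw_pos w
      have h3 := Aw_ge w
      have hn := norm_nonneg w
      rw [Rphi_coe, Real.norm_eq_abs]
      have h4 : 0 < ‖w‖ + Aw w := by linarith
      have h5 : (‖w‖ - Aw w) / (‖w‖ + Aw w) - -1 = 2 * ‖w‖ / (‖w‖ + Aw w) := by
        field_simp
        ring
      rw [h5, abs_of_nonneg (by positivity), div_le_iff₀ h4]
      nlinarith
    · have h1 := continuousAt_Aw hz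
      have h2 : ContinuousAt (fun w : ℂ => ‖w‖) z := continuous_norm.continuousAt
      refine ContinuousAt.div (h2.sub h1) (h2.add h1) ?_
      have := Aw_pos z
      have := norm_nonneg z
      linarith

theorem Rphi_lt_one {z : Sph} (hz : z ≠ OnePoint.infty) : Rphi z < 1 := by
  obtain ⟨w, rfl⟩ := OnePoint.ne_infty_iff_exists.1 hz
  have h1 := Aw_pos w
  have h2 := norm_nonneg w
  rw [Rphi_coe, div_lt_one (by linarith)]
  linarith

theorem Rphi_gt {z : Sph} (hz : z ≠ ((0 : ℂ) : Sph)) : -1 < Rphi z := by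
  induction z using OnePoint.rec with
  | infty => rw [Rphi_infty]; norm_num
  | coe w =>
    have hw : w ≠ 0 := by
      rintro rfl
      exact hz rfl
    have h1 := Aw_pos w
    have h2 := norm_pos_iff.2 hw
    rw [Rphi_coe, lt_div_iff₀ (by linarith)]
    linarith

theorem rad_Rphi : Rad Rphi where
  rad :=
    { contR := Rphi_continuous
      contZ := continuous_id
      le := fun x => by
        by_cases hx : x = OnePoint.infty
        · rw [hx, Rphi_infty]
        · exact (Rphi_lt_one hx).le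
      ge := fun x => by
        by_cases hx : x = ((0 : ℂ) : Sph)
        · rw [hx, Rphi_zero]
        · exact (Rphi_gt hx).le
      zero := fun x => by
        constructor
        · intro h
          rw [show x = ((0 : ℂ) : Sph) from h, Rphi_zero]
        · intro h
          by_contra hx
          have := Rphi_gt hx
          rw [id, h] at this
          exact lt_irrefl _ this
      infty := fun x => by
        constructor
        · intro h
          rw [show x = OnePoint.infty from h, Rphi_infty]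
        · intro h
          by_contra hx
          have := Rphi_lt_one hx
          rw [id, h] at this
          exact lt_irrefl _ this }
  mono := fun u hu r s hr hrs => by
    have hs : 0 < s := hr.trans_lt hrs
    have ha : 0 < (3 : ℝ) ^ u.re := Real.rpow_pos_of_pos (by norm_num) _
    rcases hr.lt_or_eq with h | h
    · rw [Rphi_ray hu h, Rphi_ray hu hs, div_lt_div_iff₀ (by linarith) (by linarith)]
      nlinarith
    · rw [← h, ray_zero, Rphi_zero]
      apply Rphi_gt
      rw [ray, Ne, OnePoint.coe_eq_coe]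
      apply mul_ne_zero
      · exact_mod_cast hs.ne'
      · intro h0
        rw [h0, norm_zero] at hu
        norm_num at hu

/-- the radial function of the marking `ψ` -/
def Rpsi (z : Sph) : ℝ := ta (Rphi (cube z))

theorem cube_ray (u : ℂ) (r : ℝ) : cube (ray u r) = ray (u ^ 3) (r ^ 3) := by
  rw [ray, cube_coe, ray]
  congr 1
  push_cast
  ring

theorem cube_eq_zero {z : Sph} : cube z = ((0 : ℂ) : Sph) ↔ z = ((0 : ℂ) : Sph) := by
  induction z using OnePoint.rec with
  | infty => rw [cube_infty]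
  | coe w =>
    rw [cube_coe, OnePoint.coe_eq_coe, OnePoint.coe_eq_coe, pow_eq_zero_iff (by norm_num)]

theorem cube_eq_infty {z : Sph} : cube z = OnePoint.infty ↔ z = OnePoint.infty := by
  induction z using OnePoint.rec with
  | infty => rw [cube_infty]
  | coe w =>
    rw [cube_coe]
    exact iff_of_false (OnePoint.coe_ne_infty _) (OnePoint.coe_ne_infty _)

theorem rad_Rpsi : Rad Rpsi where
  rad :=
    { contR := by
        refine ta_continuousOn.comp_continuous (Rphi_continuous.comp continuous_cube) ?_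
        intro x
        exact ⟨rad_Rphi.rad.ge _, rad_Rphi.rad.le _⟩
      contZ := continuous_id
      le := fun x => by
        rcases (rad_Rphi.rad.le (cube x)).lt_or_eq with h | h
        · have := ta_lt (rad_Rphi.rad.ge (cube x)) h le_rfl
          rw [ta_one] at this
          exact this.le
        · rw [Rpsi, h, ta_one]
      ge := fun x => by
        rcases (rad_Rphi.rad.ge (cube x)).lt_or_eq with h | h
        · have := ta_lt le_rfl h (rad_Rphi.rad.le (cube x))
          rw [ta_neg_one] at this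
          exact this.le
        · rw [Rpsi, ← h, ta_neg_one]
      zero := fun x => by
        constructor
        · intro h
          rw [Rpsi, show x = ((0 : ℂ) : Sph) from h, cube_eq_zero.2 rfl, Rphi_zero, ta_neg_one]
        · intro h
          by_contra hx
          have h1 : cube x ≠ ((0 : ℂ) : Sph) := fun h2 => hx (cube_eq_zero.1 h2)
          have := ta_lt le_rfl (Rphi_gt h1) (rad_Rphi.rad.le (cube x))
          rw [ta_neg_one] at this
          rw [Rpsi] at h
          linarith
      infty := fun x => by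
        constructor
        · intro h
          rw [Rpsi, show x = OnePoint.infty from h, cube_infty, Rphi_infty, ta_one]
        · intro h
          by_contra hx
          have h1 : cube x ≠ OnePoint.infty := fun h2 => hx (cube_eq_infty.1 h2)
          have := ta_lt (rad_Rphi.rad.ge (cube x)) (Rphi_lt_one h1) le_rfl
          rw [ta_one] at this
          rw [Rpsi] at h
          linarith }
  mono := fun u hu r s hr hrs => by
    rw [Rpsi, Rpsi, cube_ray, cube_ray]
    apply ta_lt (rad_Rphi.rad.ge _) _ (rad_Rphi.rad.le _)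
    apply rad_Rphi.mono
    · rw [norm_pow, hu, one_pow]
    · positivity
    · exact pow_lt_pow_left₀ hrs hr (by norm_num)

theorem Rpsi_zero : Rpsi ((0 : ℂ) : Sph) = -1 := rad_Rpsi.at_zero

theorem Rpsi_infty : Rpsi OnePoint.infty = 1 := rad_Rpsi.at_infty

theorem Rpsi_one : Rpsi ((1 : ℂ) : Sph) = -1 / 2 := by
  rw [Rpsi, cube_coe, one_pow, Rphi_one, ta_neg_half]

theorem Rpsi_neg_one : Rpsi ((-1 : ℂ) : Sph) = 1 / 2 := by
  rw [Rpsi, cube_coe, show (-1 : ℂ) ^ 3 = -1 by norm_num, Rphi_neg_one, ta_half]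

/-- the path of radial functions -/
def Rt (t : unitInterval) (z : Sph) : ℝ := (1 - t.1) * Rpsi z + t.1 * Rphi z

theorem Rt_zero_eq (z : Sph) : Rt 0 z = Rpsi z := by simp [Rt]

theorem Rt_one_eq (z : Sph) : Rt 1 z = Rphi z := by simp [Rt]

theorem radialOn_Rt : RadialOn (fun p : unitInterval × Sph => Rt p.1 p.2) (fun p => p.2) where
  contR := by
    have h1 := rad_Rpsi.rad.contR
    have h2 := rad_Rphi.rad.contR
    unfold Rt
    fun_prop
  contZ := continuous_snd
  le p := by
    have h1 := rad_Rpsi.rad.le p.2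
    have h2 := rad_Rphi.rad.le p.2
    have h3 := p.1.2.1
    have h4 := p.1.2.2
    simp only [Rt]
    nlinarith
  ge p := by
    have h1 := rad_Rpsi.rad.ge p.2
    have h2 := rad_Rphi.rad.ge p.2
    have h3 := p.1.2.1
    have h4 := p.1.2.2
    simp only [Rt]
    nlinarith
  zero p := by
    constructor
    · intro h
      simp only [Rt, h, Rpsi_zero, Rphi_zero]
      ring
    · intro h
      by_contra hx
      have h1 := rad_Rpsi.gt hx
      have h2 := rad_Rphi.gt hx
      have h3 := p.1.2.1
      have h4 := p.1.2.2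
      simp only [Rt] at h
      rcases h3.lt_or_eq with h5 | h5
      · nlinarith
      · rw [← h5] at h
        linarith
  infty p := by
    constructor
    · intro h
      simp only [Rt, h, Rpsi_infty, Rphi_infty]
      ring
    · intro h
      by_contra hx
      have h1 := rad_Rpsi.lt_one hx
      have h2 := rad_Rphi.lt_one hx
      have h3 := p.1.2.1
      have h4 := p.1.2.2
      simp only [Rt] at h
      rcases h3.lt_or_eq with h5 | h5
      · nlinarith
      · rw [← h5] at h
        linarith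

theorem rad_Rt (t : unitInterval) : Rad (Rt t) where
  rad :=
    { contR := radialOn_Rt.contR.comp (by fun_prop : Continuous fun z : Sph => (t, z))
      contZ := continuous_id
      le := fun x => radialOn_Rt.le (t, x)
      ge := fun x => radialOn_Rt.ge (t, x)
      zero := fun x => radialOn_Rt.zero (t, x)
      infty := fun x => radialOn_Rt.infty (t, x) }
  mono := fun u hu r s hr hrs => by
    have h1 := rad_Rpsi.mono u hu r s hr hrs
    have h2 := rad_Rphi.mono u hu r s hr hrs
    have h3 := t.2.1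
    have h4 := t.2.2
    simp only [Rt]
    rcases h3.lt_or_eq with h5 | h5
    · nlinarith
    · rw [← h5]
      linarith

theorem mem_P {x : Sph} : x ∈ P ↔ x = ((0 : ℂ) : Sph) ∨ x = ((1 : ℂ) : Sph) ∨
    x = ((-1 : ℂ) : Sph) ∨ x = OnePoint.infty := by
  simp [P]

theorem Rt_const (t : unitInterval) {x : Sph} (hx : x ∈ P) : Rt t x = Rphi x := by
  rcases mem_P.1 hx with rfl | rfl | rfl | rfl
  · rw [Rt, Rpsi_zero, Rphi_zero]; ring
  · rw [Rt, Rpsi_one, Rphi_one]; ring
  · rw [Rt, Rpsi_neg_one, Rphi_neg_one]; ring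
  · rw [Rt, Rpsi_infty, Rphi_infty]; ring

theorem Rphi_ne_zero {x : Sph} (hx : x ∈ P) : Rphi x ≠ 0 := by
  rcases mem_P.1 hx with rfl | rfl | rfl | rfl
  · rw [Rphi_zero]; norm_num
  · rw [Rphi_one]; norm_num
  · rw [Rphi_neg_one]; norm_num
  · rw [Rphi_infty]; norm_num

theorem Rt_ne_zero (t : unitInterval) {x : Sph} (hx : x ∈ P) : Rt t x ≠ 0 := by
  rw [Rt_const t hx]
  exact Rphi_ne_zero hx

theorem Rpsi_ne_zero {x : Sph} (hx : x ∈ P) : Rpsi x ≠ 0 := by
  rw [← Rt_zero_eq]
  exact Rt_ne_zero 0 hx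

/-- the marking `φ` -/
def mphi (z : Sph) : C2.pts := rad_Rphi.map z

/-- the marking `ψ` -/
def mpsi (z : Sph) : C2.pts := rad_Rpsi.map z

/-- the isotopy -/
def mt (t : unitInterval) (z : Sph) : C2.pts := (rad_Rt t).map z

theorem continuous_mt : Continuous (Function.uncurry mt) := radialOn_Rt.contPhi

theorem mt_zero (z : Sph) : mt 0 z = mpsi z := by
  apply Subtype.ext
  show (phi1 _ _, phi2 _ _) = (phi1 _ _, phi2 _ _)
  rw [Rt_zero_eq]

theorem mt_one (z : Sph) : mt 1 z = mphi z := by
  apply Subtype.ext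
  show (phi1 _ _, phi2 _ _) = (phi1 _ _, phi2 _ _)
  rw [Rt_one_eq]

theorem mt_const (t : unitInterval) {x : Sph} (hx : x ∈ P) : mt t x = mt 0 x := by
  apply Subtype.ext
  show (phi1 _ _, phi2 _ _) = (phi1 _ _, phi2 _ _)
  rw [Rt_const t hx, Rt_const 0 hx]

theorem mt_marking (t : unitInterval) : IsMarking P C2 (mt t) :=
  (rad_Rt t).isMarking fun _ hx => Rt_ne_zero t hx

theorem mphi_marking : IsMarking P C2 mphi := rad_Rphi.isMarking fun _ hx => Rphi_ne_zero hx

theorem mpsi_marking : IsMarking P C2 mpsi := rad_Rpsi.isMarking fun _ hx => Rpsi_ne_zero hx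

/-- the covering of the curve with two components -/
def F2 (x : C2.pts) : C2.pts := ⟨(cube x.1.1, cube x.1.2), by
  rcases x.2 with h | h
  · left
    show cube x.1.1 = _
    rw [h, cube_infty]
  · right
    show cube x.1.2 = _
    rw [h, cube_coe, zero_pow (by norm_num)]⟩

theorem sg_rel {l : ℝ} (h0 : 0 < l) (h1 : l ≤ 1) : ((1 - sg l) / sg l) ^ 3 = (1 - l) / l := by
  have h2 := sg_den h0.le h1
  have h3 : 1 - sg l = cb (1 - l) / (cb (1 - l) + cb l) := by
    rw [sg]
    field_simp
    ring
  have h4 := cb_pos h0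
  rw [h3, sg, div_div_div_cancel_right₀ h2.ne', div_pow, cb_cube (by linarith), cb_cube h0.le]

theorem dir_cube (w : ℂ) : w ^ 3 / (‖w ^ 3‖ : ℂ) = (w / (‖w‖ : ℂ)) ^ 3 := by
  rw [norm_pow]
  push_cast
  rw [div_pow]

theorem F2_comm (z : Sph) : F2 (mpsi z) = mphi (cube z) := by
  apply Subtype.ext
  show (cube (phi1 (Rpsi z) z), cube (phi2 (Rpsi z) z)) =
    (phi1 (Rphi (cube z)) (cube z), phi2 (Rphi (cube z)) (cube z))
  have hRpsi : Rpsi z = ta (Rphi (cube z)) := rfl
  have hge := rad_Rphi.rad.ge (cube z)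
  have hle := rad_Rphi.rad.le (cube z)
  set l := Rphi (cube z) with hl
  rcases lt_or_ge l 0 with h | h
  · -- first component
    have h1 : 0 < sg (-l) := by
      have := sg_lt (x := 0) (y := -l) le_rfl (by linarith) (by linarith)
      rwa [sg_zero] at this
    have h2 : Rpsi z = -sg (-l) := by rw [hRpsi, ta_of_nonpos h.le]
    have hz : z ≠ OnePoint.infty := by
      rintro rfl
      rw [cube_infty, Rphi_infty] at hl
      linarith
    obtain ⟨w, rfl⟩ := OnePoint.ne_infty_iff_exists.1 hz
    have hz' : cube (w : Sph) ≠ OnePoint.infty := fun h3 => hz (cube_eq_infty.1 h3)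
    rw [h2, phi2_neg hz (by linarith), phi2_neg hz' h.le, cube_eq_zero.2 rfl,
      phi1, phi1, if_pos (by linarith), if_pos h, cube_coe, cube_coe,
      toC_coe, toC_coe, dir_cube, mul_pow]
    have h3 := sg_rel (l := -l) (by linarith) (by linarith)
    have h4 : ((1 + -sg (-l)) / (- -sg (-l))) ^ 3 = (1 + l) / (-l) := by
      rw [neg_neg, ← sub_eq_add_neg, h3, sub_neg_eq_add]
    rw [← h4]
    push_cast
    rfl
  · -- second component
    have h2 : Rpsi z = sg l := by rw [hRpsi, ta_of_nonneg h]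
    have h1 : 0 ≤ sg l := by
      rcases h.lt_or_eq with h3 | h3
      · have := sg_lt (x := 0) (y := l) le_rfl h3 hle
        rw [sg_zero] at this
        exact this.le
      · rw [← h3, sg_zero]
    rw [h2, phi1_nonneg h1, phi1_nonneg h, cube_infty]
    congr 1
    by_cases hz : z = OnePoint.infty
    · rw [hz, phi2_infty, cube_infty, phi2_infty]
    · have hz' : cube z ≠ OnePoint.infty := fun h3 => hz (cube_eq_infty.1 h3)
      have hl1 : l < 1 := Rphi_lt_one hz'
      obtain ⟨w, rfl⟩ := OnePoint.ne_infty_iff_exists.1 hz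
      rw [cube_coe, phi2, phi2, OnePoint.elim_some, OnePoint.elim_some, cube_coe, mul_pow, dir_cube,
        max_eq_left h1, max_eq_left h]
      rcases h.lt_or_eq with h3 | h3
      · have h4 := sg_rel h3 hle
        have h5 : (sg l / (1 - sg l)) ^ 3 = l / (1 - l) := by
          rw [← inv_div, inv_pow, h4, inv_div]
        rw [← h5]
        push_cast
        rfl
      · rw [← h3, sg_zero]
        simp

end Pool.Agent.U594.AD
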