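import Mathlib

set_option autoImplicit false

/-!
# Augmented deformation spaces

Definitions: nodal curves of genus zero, markings of nodal curves by the sphere, the augmented
Teichmueller space of the sphere with finitely many marked points, and the augmented deformation
space of a branched covering.
-/

open Set Topology Filter Matrix


noncomputable section

namespace Pool.Agent.U594.AD

/-- The Riemann sphere. -/
abbrev Sph : Type := OnePoint ℂ

/-- The group of (matrices of) Moebius transformations; `g • z` is `(a z + b) / (c z + d)`. -/
abbrev Mob : Type := GL (Fin 2) ℂ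

/-- The coordinate of a finite point of the sphere (and `0` at infinity). -/
def toC (z : Sph) : ℂ := z.elim 0 id

/-- `h` is a holomorphic map from the sphere to itself: it is continuous and complex differentiable
in all affine coordinates of the source and of the target. -/
def Holomorphic (h : Sph → Sph) : Prop :=
  Continuous h ∧ ∀ (A B : Mob) (z : ℂ), B • h (A • (z : Sph)) ≠ OnePoint.infty →
    DifferentiableAt ℂ (fun w : ℂ => toC (B • h (A • (w : Sph)))) z

/-- A nodal curve of genus `0` (a pre-stable rational curve without its marked points): a Hausdorff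
space which is a union of finitely many Riemann spheres, its components; two components meet in at
most one point, three components do not meet, and the graph whose vertices are the components and
whose edges are the pairs of components that meet is a tree. The component number `i` is given with
a coordinate `chart i`. -/
structure NodalCurve where
  pts : Type
  [top : TopologicalSpace pts]
  [t2 : T2Space pts]
  comp : Type
  [fin : Fintype comp]
  chart : comp → Sph → pts
  emb : ∀ i, IsEmbedding (chart i)
  cover : ∀ x, ∃ i z, chart i z = x
  two : ∀ i j, i ≠ j → (range (chart i) ∩ range (chart j)).Subsingleton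
  three : ∀ i j k, i ≠ j → j ≠ k → i ≠ k →
    range (chart i) ∩ range (chart j) ∩ range (chart k) = ∅
  tree : (SimpleGraph.fromRel fun i j : comp =>
    (range (chart i) ∩ range (chart j)).Nonempty).IsTree

attribute [instance] NodalCurve.top NodalCurve.t2 NodalCurve.fin

/-- The nodes of a nodal curve: the points which are on two components. -/
def NodalCurve.IsNode (C : NodalCurve) (x : C.pts) : Prop :=
  ∃ i j, i ≠ j ∧ x ∈ range (C.chart i) ∧ x ∈ range (C.chart j)

/-- An isomorphism of nodal curves: a homeomorphism which is a Moebius transformation from each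
component onto a component. -/
structure Iso (C D : NodalCurve) where
  toHomeo : C.pts ≃ₜ D.pts
  moebius : ∀ i, ∃ (j : D.comp) (g : Mob), ∀ z, toHomeo (C.chart i z) = D.chart j (g • z)

/-- `φ` preserves the orientation at the point `p` of the sphere, which is mapped to the component
`i` of `C`: in some affine coordinates at `p` and at `φ p`, the images of the small circles
around `p` have winding number `1` around `φ p`. -/
def PositiveAt (C : NodalCurve) (φ : Sph → C.pts) (i : C.comp) (p : Sph) : Prop :=
  ∃ A B : Mob, A • ((0 : ℂ) : Sph) = p ∧ C.chart i (B • ((0 : ℂ) : Sph)) = φ p ∧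
    ∀ᶠ r : ℝ in 𝓝[>] 0, ∃ ρ θ : ℝ → ℝ, Continuous ρ ∧ Continuous θ ∧ (∀ t, 0 < ρ t) ∧
      θ (2 * Real.pi) = θ 0 + 2 * Real.pi ∧ ∀ t ∈ Icc 0 (2 * Real.pi),
        φ (A • ((r * Complex.exp (t * Complex.I) : ℂ) : Sph)) =
          C.chart i (B • ((ρ t * Complex.exp (θ t * Complex.I) : ℂ) : Sph))

/-- `φ` is a marking of the nodal curve `C` by the sphere with the set `X` of marked points: it is
continuous and surjective, the preimages of the nodes are simple closed curves in the complement of
`X`, it is injective outside of these curves (so it is a homeomorphism from the complement of the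
curves onto the complement of the nodes), and it preserves the orientation on each of the pieces.
The marked points of the curve are the points `φ x`, `x ∈ X`. -/
structure IsMarking (X : Set Sph) (C : NodalCurve) (φ : Sph → C.pts) : Prop where
  cont : Continuous φ
  surj : Function.Surjective φ
  inj : ∀ x y, φ x = φ y → ¬ C.IsNode (φ x) → x = y
  curve : ∀ n, C.IsNode n → ∃ γ : Circle → Sph, Continuous γ ∧ Function.Injective γ ∧
    range γ = φ ⁻¹' {n} ∧ Disjoint (range γ) X
  positive : ∀ i, ∃ p, ¬ C.IsNode (φ p) ∧ PositiveAt C φ i p

/-- The curve `C` with the marked points `φ x`, `x ∈ X`, is stable: every component contains at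
least three points which are nodes or marked points. -/
def IsStable (X : Set Sph) (C : NodalCurve) (φ : Sph → C.pts) : Prop :=
  ∀ i, 3 ≤ {z : Sph | C.IsNode (C.chart i z) ∨ C.chart i z ∈ φ '' X}.encard

/-- A stable curve with a marking. -/
structure Marked (X : Set Sph) where
  C : NodalCurve
  φ : Sph → C.pts
  marking : IsMarking X C φ
  stable : IsStable X C φ

/-- Two marked stable curves are equivalent if an isomorphism transforms the first marking into a
marking which is isotopic to the second one relative to `X`, through markings. -/
def Equivalent {X : Set Sph} (m m' : Marked X) : Prop :=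
  ∃ (α : Iso m.C m'.C) (H : unitInterval → Sph → m'.C.pts),
    Continuous (Function.uncurry H) ∧ (∀ t, IsMarking X m'.C (H t)) ∧
    (∀ z, H 0 z = α.toHomeo (m.φ z)) ∧ (∀ z, H 1 z = m'.φ z) ∧ ∀ t, ∀ x ∈ X, H t x = H 0 x

/-- The augmented Teichmueller space of the sphere with the marked points `X`: the classes of the
marked stable curves. -/
def AT (X : Set Sph) : Type 1 := Quot (Equivalent (X := X))

/-- A condition in the definition of the topology: a compact set `K` of the sphere, disjoint from
the curves that are mapped to nodes, and an open set `U` of the component `i` with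
`φ '' K ⊆ U`. -/
structure Condition {X : Set Sph} (m : Marked X) where
  K : Set Sph
  i : m.C.comp
  U : Set Sph
  compact : IsCompact K
  isOpen : IsOpen U
  maps : ∀ x ∈ K, ¬ m.C.IsNode (m.φ x) ∧ ∃ u ∈ U, m.φ x = m.C.chart i u

/-- The neighbourhood of `m` given by a finite list of conditions: the classes with a
representative `m'` such that for each component `i` of `m.C` there are a component `j` of `m'.C`
and a Moebius change of coordinates `g` such that, in the new coordinate of `j`, the marking of
`m'` satisfies all the conditions for the component `i`. -/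
def nhd {X : Set Sph} (m : Marked X) (L : List (Condition m)) : Set (AT X) :=
  {a | ∃ m' : Marked X, Quot.mk _ m' = a ∧ ∀ i : m.C.comp, ∃ (j : m'.C.comp) (g : Mob),
    ∀ c ∈ L, c.i = i → ∀ x ∈ c.K,
      ¬ m'.C.IsNode (m'.φ x) ∧ ∃ u ∈ c.U, m'.φ x = m'.C.chart j (g • u)}

/-- The topology of the augmented Teichmueller space (the Bers topology): `m'` is close to `m` if,
up to equivalence and in suitable coordinates, the marking of `m'` is uniformly close to the marking
of `m` on a large compact set of each piece of the complement of the curves that `m` maps to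
nodes. -/
instance topAT (X : Set Sph) : TopologicalSpace (AT X) where
  IsOpen 𝒰 := ∀ m : Marked X, Quot.mk _ m ∈ 𝒰 → ∃ L : List (Condition m), nhd m L ⊆ 𝒰
  isOpen_univ _ _ := ⟨[], subset_univ _⟩
  isOpen_inter 𝒰 𝒱 h𝒰 h𝒱 m hm := by
    obtain ⟨L, hL⟩ := h𝒰 m hm.1
    obtain ⟨L', hL'⟩ := h𝒱 m hm.2
    refine ⟨L ++ L', ?_⟩
    rintro a ⟨m', ha, h⟩
    refine ⟨hL ⟨m', ha, fun i => ?_⟩, hL' ⟨m', ha, fun i => ?_⟩⟩
    · obtain ⟨j, g, h⟩ := h i
      exact ⟨j, g, fun c hc => h c (List.mem_append_left _ hc)⟩
    · obtain ⟨j, g, h⟩ := h i
      exact ⟨j, g, fun c hc => h c (List.mem_append_right _ hc)⟩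
  isOpen_sUnion S hS m hm := by
    obtain ⟨𝒰, h1, h2⟩ := hm
    obtain ⟨L, hL⟩ := hS 𝒰 h1 m h2
    exact ⟨L, hL.trans (subset_sUnion_of_mem h1)⟩

/-- `κ` is a contraction of components: it is continuous and surjective, on every component it is
constant or a Moebius transformation onto a component, and every component is the image of exactly
one component. -/
def IsContraction (C D : NodalCurve) (κ : C.pts → D.pts) : Prop :=
  Continuous κ ∧ Function.Surjective κ ∧
    (∀ i, (∃ y, ∀ z, κ (C.chart i z) = y) ∨
      ∃ (j : D.comp) (g : Mob), ∀ z, κ (C.chart i z) = D.chart j (g • z)) ∧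
    ∀ j, ∃! i, ∃ g : Mob, ∀ z, κ (C.chart i z) = D.chart j (g • z)

/-- The marked stable curve `m` is the stabilization of the marking `ψ` of the pre-stable curve `C`:
for a contraction `κ` of components the map `κ ∘ ψ` is the end of a homotopy relative to `X` which
starts at the marking of `m` and consists of markings before its end. -/
def IsStabilization {X : Set Sph} (C : NodalCurve) (ψ : Sph → C.pts) (m : Marked X) : Prop :=
  ∃ (κ : C.pts → m.C.pts) (H : unitInterval → Sph → m.C.pts), IsContraction C m.C κ ∧
    Continuous (Function.uncurry H) ∧ (∀ t, t ≠ 1 → IsMarking X m.C (H t)) ∧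
    (∀ z, H 0 z = m.φ z) ∧ (∀ z, H 1 z = κ (ψ z)) ∧ ∀ t, ∀ x ∈ X, H t x = H 0 x

/-- Admissible maps `F : C → D` of nodal curves: surjective, holomorphic and non-constant on each
component, with nodes mapped to nodes, and of generically constant degree both globally and near
each node. -/
structure IsAdmissible (C D : NodalCurve) (F : C.pts → D.pts) : Prop where
  cont : Continuous F
  surj : Function.Surjective F
  holo : ∀ i, ∃ (j : D.comp) (h : Sph → Sph), Holomorphic h ∧ Function.Surjective h ∧
    ∀ z, F (C.chart i z) = D.chart j (h z)
  node : ∀ x, C.IsNode x → D.IsNode (F x)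
  degree : ∃ (d : ℕ) (S : Set D.pts), S.Finite ∧ ∀ y ∉ S, (F ⁻¹' {y}).encard = d
  localDegree : ∀ x, C.IsNode x → ∃ k : ℕ, ∀ U ∈ 𝓝 x, ∃ V ∈ 𝓝 x, V ⊆ U ∧
    ∀ᶠ y in 𝓝[≠] (F x), (F ⁻¹' {y} ∩ V).encard = k

/-- The augmented deformation space of `f : (S², A) → (S², B)`, `A ⊆ B`, as a subset of the augmented
Teichmueller space of `(S², B)`: the classes of the markings `φ` of stable curves `C` for which there
are a marking `ψ` of a pre-stable curve `C'` by `(S², A)` and an admissible map `F : C' → C` with
`F ∘ ψ = φ ∘ f` such that the stabilizations of `ψ` and of `φ` with respect to `A` are the same point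
of the augmented Teichmueller space of `(S², A)`. -/
def AugmentedDeformationSpace (f : Sph → Sph) (A B : Set Sph) : Set (AT B) :=
  {a | ∃ m : Marked B, Quot.mk _ m = a ∧ ∃ (C' : NodalCurve) (ψ : Sph → C'.pts)
    (F : C'.pts → m.C.pts), IsMarking A C' ψ ∧ IsAdmissible C' m.C F ∧ (∀ z, F (ψ z) = m.φ (f z)) ∧
    ∃ n n' : Marked A, IsStabilization C' ψ n ∧ IsStabilization m.C m.φ n' ∧
      (Quot.mk _ n : AT A) = Quot.mk _ n'}

/-- The map `z ↦ z ^ 3` of the sphere. -/
def cube : Sph → Sph := OnePoint.map fun z => z ^ 3

/-- The points `0, 1, -1, ∞` of the sphere. -/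
def P : Set Sph := {((0 : ℂ) : Sph), ((1 : ℂ) : Sph), ((-1 : ℂ) : Sph), OnePoint.infty}

end Pool.Agent.U594.AD
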