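import Pool.Agent.U594.AD.Inv

set_option autoImplicit false

/-!
# Harmonic quadruples
-/

open Set Topology Filter Matrix

noncomputable section

namespace Pool.Agent.U594.AD

/-- first homogeneous coordinate -/
def la (z : Sph) : ℂ := z.elim 1 id

/-- second homogeneous coordinate -/
def lb (z : Sph) : ℂ := z.elim 0 fun _ => 1

theorem la_coe (w : ℂ) : la (w : Sph) = w := rfl
theorem lb_coe (w : ℂ) : lb (w : Sph) = 1 := rfl
theorem la_infty : la OnePoint.infty = 1 := rfl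
theorem lb_infty : lb OnePoint.infty = 0 := rfl

theorem nz_l (z : Sph) : Nz (la z) (lb z) := by
  induction z using OnePoint.rec with
  | infty => exact Or.inl one_ne_zero
  | coe w => exact Or.inr one_ne_zero

theorem hom_l (z : Sph) : hom (la z) (lb z) = z := by
  induction z using OnePoint.rec with
  | infty => rw [la_infty, lb_infty, hom_zero]
  | coe w => rw [la_coe, lb_coe, hom_one]

theorem exists_scale {a b c d : ℂ} (h1 : Nz a b) (h2 : Nz c d) (h : hom a b = hom c d) :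
    ∃ k : ℂ, k ≠ 0 ∧ a = k * c ∧ b = k * d := by
  rw [hom_eq_iff h1 h2] at h
  by_cases hd : d = 0
  · have hc : c ≠ 0 := h2.resolve_right (not_not_intro hd)
    have hb : b = 0 := by
      rw [hd, mul_zero, zero_sub, neg_eq_zero] at h
      exact (mul_eq_zero.1 h).resolve_right hc
    have ha : a ≠ 0 := h1.resolve_right (not_not_intro hb)
    refine ⟨a / c, div_ne_zero ha hc, ?_, ?_⟩
    · field_simp
    · rw [hb, hd, mul_zero]
  · refine ⟨b / d, ?_, ?_, ?_⟩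
    · apply div_ne_zero _ hd
      intro hb
      rw [hb, zero_mul, sub_zero] at h
      have ha := (mul_eq_zero.1 h).resolve_right hd
      rcases h1 with h1 | h1
      · exact h1 ha
      · exact h1 hb
    · field_simp
      linear_combination h
    · field_simp

/-- the bracket -/
def br (x y : Sph) : ℂ := la x * lb y - lb x * la y

theorem br_symm (x y : Sph) : ‖br x y‖ = ‖br y x‖ := by
  rw [← norm_neg, br, br]
  congr 1
  ring

/-- the relation of the four points `0, ∞, 1, -1` -/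
def HR (z0 z1 z2 z3 : Sph) : Prop := br z0 z2 * br z1 z3 + br z0 z3 * br z1 z2 = 0

theorem HR_hom {a0 b0 a1 b1 a2 b2 a3 b3 : ℂ} (h0 : Nz a0 b0) (h1 : Nz a1 b1) (h2 : Nz a2 b2)
    (h3 : Nz a3 b3) : HR (hom a0 b0) (hom a1 b1) (hom a2 b2) (hom a3 b3) ↔
      (a0 * b2 - b0 * a2) * (a1 * b3 - b1 * a3) + (a0 * b3 - b0 * a3) * (a1 * b2 - b1 * a2) = 0 := by
  obtain ⟨c0, hc0, e0, f0⟩ := exists_scale (nz_l _) h0 (hom_l (hom a0 b0))
  obtain ⟨c1, hc1, e1, f1⟩ := exists_scale (nz_l _) h1 (hom_l (hom a1 b1))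
  obtain ⟨c2, hc2, e2, f2⟩ := exists_scale (nz_l _) h2 (hom_l (hom a2 b2))
  obtain ⟨c3, hc3, e3, f3⟩ := exists_scale (nz_l _) h3 (hom_l (hom a3 b3))
  unfold HR br
  rw [e0, f0, e1, f1, e2, f2, e3, f3]
  have h : (c0 * a0 * (c2 * b2) - c0 * b0 * (c2 * a2)) * (c1 * a1 * (c3 * b3) - c1 * b1 * (c3 * a3)) +
      (c0 * a0 * (c3 * b3) - c0 * b0 * (c3 * a3)) * (c1 * a1 * (c2 * b2) - c1 * b1 * (c2 * a2)) =
      (c0 * c1 * c2 * c3) * ((a0 * b2 - b0 * a2) * (a1 * b3 - b1 * a3) +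
        (a0 * b3 - b0 * a3) * (a1 * b2 - b1 * a2)) := by ring
  rw [h, mul_eq_zero]
  constructor
  · rintro (h4 | h4)
    · exfalso
      exact mul_ne_zero (mul_ne_zero (mul_ne_zero hc0 hc1) hc2) hc3 h4
    · exact h4
  · exact Or.inr

theorem HR_smul (g : Mob) (z0 z1 z2 z3 : Sph) :
    HR (g • z0) (g • z1) (g • z2) (g • z3) ↔ HR z0 z1 z2 z3 := by
  conv_lhs => rw [← hom_l z0, ← hom_l z1, ← hom_l z2, ← hom_l z3, smul_hom g (nz_l z0),
    smul_hom g (nz_l z1), smul_hom g (nz_l z2), smul_hom g (nz_l z3),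
    HR_hom ((nz_l _).smul g) ((nz_l _).smul g) ((nz_l _).smul g) ((nz_l _).smul g)]
  unfold HR br
  have hd := det_ne g
  constructor
  · intro h
    have h1 : (g 0 0 * g 1 1 - g 0 1 * g 1 0) ^ 2 *
        ((la z0 * lb z2 - lb z0 * la z2) * (la z1 * lb z3 - lb z1 * la z3) +
        (la z0 * lb z3 - lb z0 * la z3) * (la z1 * lb z2 - lb z1 * la z2)) = 0 := by
      rw [← h]
      ring
    exact (mul_eq_zero.1 h1).resolve_left (pow_ne_zero 2 hd)
  · intro h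
    have h1 : (g 0 0 * g 1 1 - g 0 1 * g 1 0) ^ 2 *
        ((la z0 * lb z2 - lb z0 * la z2) * (la z1 * lb z3 - lb z1 * la z3) +
        (la z0 * lb z3 - lb z0 * la z3) * (la z1 * lb z2 - lb z1 * la z2)) = 0 := by
      rw [h, mul_zero]
    rw [← h1]
    ring

theorem HR_std : HR ((0 : ℂ) : Sph) OnePoint.infty ((1 : ℂ) : Sph) ((-1 : ℂ) : Sph) := by
  unfold HR br
  simp only [la_coe, lb_coe, la_infty, lb_infty]
  norm_num

/-- local lifts -/
theorem exists_lift (z : Sph) : ∃ a b : Sph → ℂ, ContinuousAt a z ∧ ContinuousAt b z ∧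
    ∀ᶠ y in 𝓝 z, Nz (a y) (b y) ∧ hom (a y) (b y) = y := by
  by_cases hz : z = OnePoint.infty
  · have hz0 : z ≠ ((0 : ℂ) : Sph) := by
      rw [hz]
      exact OnePoint.infty_ne_coe _
    refine ⟨fun _ => 1, invC, continuousAt_const, continuousAt_invC hz0, ?_⟩
    filter_upwards [isOpen_ne.mem_nhds hz0] with y hy
    exact ⟨Or.inl one_ne_zero, hom_one_invC hy⟩
  · refine ⟨toC, fun _ => 1, continuousAt_toC hz, continuousAt_const, ?_⟩
    filter_upwards [isOpen_ne.mem_nhds hz] with y hy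
    exact ⟨Or.inr one_ne_zero, by rw [hom_one, coe_toC hy]⟩

/-- the relation is closed -/
theorem HR_closed {z0 z1 z2 z3 : Sph} (h : ¬ HR z0 z1 z2 z3) :
    ∃ U0 U1 U2 U3 : Set Sph, IsOpen U0 ∧ IsOpen U1 ∧ IsOpen U2 ∧ IsOpen U3 ∧
      z0 ∈ U0 ∧ z1 ∈ U1 ∧ z2 ∈ U2 ∧ z3 ∈ U3 ∧
      ∀ u0 ∈ U0, ∀ u1 ∈ U1, ∀ u2 ∈ U2, ∀ u3 ∈ U3, ¬ HR u0 u1 u2 u3 := by
  obtain ⟨a0, b0, ca0, cb0, h0⟩ := exists_lift z0
  obtain ⟨a1, b1, ca1, cb1, h1⟩ := exists_lift z1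
  obtain ⟨a2, b2, ca2, cb2, h2⟩ := exists_lift z2
  obtain ⟨a3, b3, ca3, cb3, h3⟩ := exists_lift z3
  have c0 : ContinuousAt (fun w : Sph × Sph × Sph × Sph => w.1) (z0, z1, z2, z3) :=
    continuous_fst.continuousAt
  have c1 : ContinuousAt (fun w : Sph × Sph × Sph × Sph => w.2.1) (z0, z1, z2, z3) :=
    (by fun_prop : Continuous fun w : Sph × Sph × Sph × Sph => w.2.1).continuousAt
  have c2 : ContinuousAt (fun w : Sph × Sph × Sph × Sph => w.2.2.1) (z0, z1, z2, z3) :=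
    (by fun_prop : Continuous fun w : Sph × Sph × Sph × Sph => w.2.2.1).continuousAt
  have c3 : ContinuousAt (fun w : Sph × Sph × Sph × Sph => w.2.2.2) (z0, z1, z2, z3) :=
    (by fun_prop : Continuous fun w : Sph × Sph × Sph × Sph => w.2.2.2).continuousAt
  have A0 : ContinuousAt (fun w : Sph × Sph × Sph × Sph => a0 w.1) (z0, z1, z2, z3) :=
    ContinuousAt.comp (f := fun w : Sph × Sph × Sph × Sph => w.1) (x := (z0, z1, z2, z3)) ca0 c0
  have B0 : ContinuousAt (fun w : Sph × Sph × Sph × Sph => b0 w.1) (z0, z1, z2, z3) :=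
    ContinuousAt.comp (f := fun w : Sph × Sph × Sph × Sph => w.1) (x := (z0, z1, z2, z3)) cb0 c0
  have A1 : ContinuousAt (fun w : Sph × Sph × Sph × Sph => a1 w.2.1) (z0, z1, z2, z3) :=
    ContinuousAt.comp (f := fun w : Sph × Sph × Sph × Sph => w.2.1) (x := (z0, z1, z2, z3)) ca1 c1
  have B1 : ContinuousAt (fun w : Sph × Sph × Sph × Sph => b1 w.2.1) (z0, z1, z2, z3) :=
    ContinuousAt.comp (f := fun w : Sph × Sph × Sph × Sph => w.2.1) (x := (z0, z1, z2, z3)) cb1 c1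
  have A2 : ContinuousAt (fun w : Sph × Sph × Sph × Sph => a2 w.2.2.1) (z0, z1, z2, z3) :=
    ContinuousAt.comp (f := fun w : Sph × Sph × Sph × Sph => w.2.2.1) (x := (z0, z1, z2, z3)) ca2 c2
  have B2 : ContinuousAt (fun w : Sph × Sph × Sph × Sph => b2 w.2.2.1) (z0, z1, z2, z3) :=
    ContinuousAt.comp (f := fun w : Sph × Sph × Sph × Sph => w.2.2.1) (x := (z0, z1, z2, z3)) cb2 c2
  have A3 : ContinuousAt (fun w : Sph × Sph × Sph × Sph => a3 w.2.2.2) (z0, z1, z2, z3) :=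
    ContinuousAt.comp (f := fun w : Sph × Sph × Sph × Sph => w.2.2.2) (x := (z0, z1, z2, z3)) ca3 c3
  have B3 : ContinuousAt (fun w : Sph × Sph × Sph × Sph => b3 w.2.2.2) (z0, z1, z2, z3) :=
    ContinuousAt.comp (f := fun w : Sph × Sph × Sph × Sph => w.2.2.2) (x := (z0, z1, z2, z3)) cb3 c3
  have G : ContinuousAt (fun w : Sph × Sph × Sph × Sph =>
      (a0 w.1 * b2 w.2.2.1 - b0 w.1 * a2 w.2.2.1) * (a1 w.2.1 * b3 w.2.2.2 - b1 w.2.1 * a3 w.2.2.2) +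
      (a0 w.1 * b3 w.2.2.2 - b0 w.1 * a3 w.2.2.2) * (a1 w.2.1 * b2 w.2.2.1 - b1 w.2.1 * a2 w.2.2.1))
      (z0, z1, z2, z3) :=
    (((A0.mul B2).sub (B0.mul A2)).mul ((A1.mul B3).sub (B1.mul A3))).add
      (((A0.mul B3).sub (B0.mul A3)).mul ((A1.mul B2).sub (B1.mul A2)))
  have e0 := h0.self_of_nhds
  have e1 := h1.self_of_nhds
  have e2 := h2.self_of_nhds
  have e3 := h3.self_of_nhds
  have hne : (a0 z0 * b2 z2 - b0 z0 * a2 z2) * (a1 z1 * b3 z3 - b1 z1 * a3 z3) +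
      (a0 z0 * b3 z3 - b0 z0 * a3 z3) * (a1 z1 * b2 z2 - b1 z1 * a2 z2) ≠ 0 := by
    intro h4
    apply h
    rw [← e0.2, ← e1.2, ← e2.2, ← e3.2, HR_hom e0.1 e1.1 e2.1 e3.1, h4]
  have key : ∀ᶠ w : Sph × Sph × Sph × Sph in 𝓝 (z0, z1, z2, z3),
      ¬ HR w.1 w.2.1 w.2.2.1 w.2.2.2 := by
    filter_upwards [G.eventually_ne hne, c0.eventually h0, c1.eventually h1, c2.eventually h2,
      c3.eventually h3] with w hw f0 f1 f2 f3 h4
    rw [← f0.2, ← f1.2, ← f2.2, ← f3.2, HR_hom f0.1 f1.1 f2.1 f3.1] at h4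
    exact hw h4
  obtain ⟨U0, V0, hU0, hz0, hV0, hw0, hs0⟩ := mem_nhds_prod_iff'.1 key
  obtain ⟨U1, V1, hU1, hz1, hV1, hw1, hs1⟩ := mem_nhds_prod_iff'.1 (hV0.mem_nhds hw0)
  obtain ⟨U2, U3, hU2, hz2, hU3, hz3, hs2⟩ := mem_nhds_prod_iff'.1 (hV1.mem_nhds hw1)
  refine ⟨U0, U1, U2, U3, hU0, hU1, hU2, hU3, hz0, hz1, hz2, hz3, ?_⟩
  intro u0 hu0 u1 hu1 u2 hu2 u3 hu3
  have h5 : (u0, u1, u2, u3) ∈ U0 ×ˢ V0 := ⟨hu0, hs1 ⟨hu1, hs2 ⟨hu2, hu3⟩⟩⟩
  exact hs0 h5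

/-- consequences of the relation -/
theorem HR_norms {z0 z1 z2 z3 : Sph} (h : HR z0 z1 z2 z3) :
    ‖br z0 z3‖ * ‖br z1 z2‖ = ‖br z0 z2‖ * ‖br z1 z3‖ ∧
      ‖br z0 z1‖ * ‖br z2 z3‖ = 2 * (‖br z0 z2‖ * ‖br z1 z3‖) := by
  unfold HR at h
  have h1 : br z0 z3 * br z1 z2 = -(br z0 z2 * br z1 z3) := by linear_combination h
  have h2 : br z0 z1 * br z2 z3 = 2 * (br z0 z2 * br z1 z3) := by
    have : br z0 z1 * br z2 z3 - br z0 z2 * br z1 z3 + br z0 z3 * br z1 z2 = 0 := by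
      unfold br
      ring
    linear_combination this - h
  constructor
  · rw [← norm_mul, h1, norm_neg, norm_mul]
  · rw [← norm_mul, h2, norm_mul, norm_mul, Complex.norm_ofNat]

/-- the main inequality for harmonic quadruples -/
theorem HR_ineq {W : Sph → Sph} (h : HR (W ((0 : ℂ) : Sph)) (W OnePoint.infty) (W ((1 : ℂ) : Sph))
    (W ((-1 : ℂ) : Sph))) {p q r s : Sph} (hp : p ∈ P) (hq : q ∈ P) (hr : r ∈ P) (hs : s ∈ P)
    (hpq : p ≠ q) (hpr : p ≠ r) (hps : p ≠ s) (hqr : q ≠ r) (hqs : q ≠ s) (hrs : r ≠ s) :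
    ‖br (W p) (W s)‖ * ‖br (W q) (W r)‖ ≤ 2 * (‖br (W p) (W q)‖ * ‖br (W r) (W s)‖) := by
  obtain ⟨h1, h2⟩ := HR_norms h
  have n1 : 0 ≤ ‖br (W ((0 : ℂ) : Sph)) (W ((1 : ℂ) : Sph))‖ *
    ‖br (W OnePoint.infty) (W ((-1 : ℂ) : Sph))‖ := by positivity
  have s1 := br_symm (W ((0 : ℂ) : Sph)) (W ((1 : ℂ) : Sph))
  have s2 := br_symm (W ((0 : ℂ) : Sph)) (W ((-1 : ℂ) : Sph))
  have s3 := br_symm (W ((0 : ℂ) : Sph)) (W OnePoint.infty)
  have s4 := br_symm (W ((1 : ℂ) : Sph)) (W ((-1 : ℂ) : Sph))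
  have s5 := br_symm (W OnePoint.infty) (W ((1 : ℂ) : Sph))
  have s6 := br_symm (W OnePoint.infty) (W ((-1 : ℂ) : Sph))
  rw [s1, s6] at h1 h2 n1
  rw [s2, s5] at h1
  rw [s3, s4] at h2
  rcases mem_P.1 hp with rfl | rfl | rfl | rfl <;>
  rcases mem_P.1 hq with rfl | rfl | rfl | rfl <;>
  first
  | exact absurd rfl hpq
  | (rcases mem_P.1 hr with rfl | rfl | rfl | rfl <;>
      first
      | exact absurd rfl hpr
      | exact absurd rfl hqr
      | (rcases mem_P.1 hs with rfl | rfl | rfl | rfl <;>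
          first
          | exact absurd rfl hps
          | exact absurd rfl hqs
          | exact absurd rfl hrs
          | ((try simp only [s1, s2, s3, s4, s5, s6]); nlinarith)))

end Pool.Agent.U594.AD
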