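import Pool.Agent.U594.AD.Members

set_option autoImplicit false

/-!
# Invariants of marked stable curves
-/

open Set Topology Filter Matrix

noncomputable section

namespace Pool.Agent.U594.AD

variable {C D : NodalCurve}

theorem range_not_subsingleton (C : NodalCurve) (i : C.comp) {z w : Sph} {x y : C.pts}
    {S : Set C.pts} (hS : S.Subsingleton) (hz : C.chart i z = x) (hw : C.chart i w = y)
    (hx : x ∈ S) (hy : y ∈ S) : z = w := by
  apply (C.emb i).injective
  rw [hz, hw]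
  exact hS hx hy

instance : Infinite Sph := Infinite.of_injective (fun z : ℂ => (z : Sph)) OnePoint.coe_injective

theorem range_infinite (C : NodalCurve) (i : C.comp) : (range (C.chart i)).Infinite :=
  infinite_range_of_injective (C.emb i).injective

/-- every component of the target is the image of a component -/
theorem Iso.exists_comp (α : Iso C D) (j : D.comp) :
    ∃ (i : C.comp) (g : Mob), ∀ z, α.toHomeo (C.chart i z) = D.chart j (g • z) := by
  choose σ g hg using α.moebius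
  by_contra hcon
  push Not at hcon
  have hne : ∀ i, σ i ≠ j := by
    intro i hi
    subst hi
    obtain ⟨z, hz⟩ := hcon i (g i)
    exact hz (hg i z)
  have h1 : range (D.chart j) ⊆ ⋃ i, (range (D.chart (σ i)) ∩ range (D.chart j)) := by
    intro y hy
    obtain ⟨x, rfl⟩ := α.toHomeo.surjective y
    obtain ⟨i, z, rfl⟩ := C.cover x
    rw [mem_iUnion]
    refine ⟨i, ⟨g i • z, (hg i z).symm⟩, hy⟩
  have h2 : (⋃ i, (range (D.chart (σ i)) ∩ range (D.chart j))).Finite :=
    finite_iUnion fun i => (D.two _ _ (hne i)).finite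
  exact range_infinite D j (h2.subset h1)

/-- the inverse isomorphism -/
def Iso.symm (α : Iso C D) : Iso D C where
  toHomeo := α.toHomeo.symm
  moebius j := by
    obtain ⟨i, g, h⟩ := α.exists_comp j
    refine ⟨i, g⁻¹, fun z => ?_⟩
    rw [Homeomorph.symm_apply_eq, h, smul_inv_smul]

/-- the composition of isomorphisms -/
def Iso.trans {E : NodalCurve} (α : Iso C D) (β : Iso D E) : Iso C E where
  toHomeo := α.toHomeo.trans β.toHomeo
  moebius i := by
    obtain ⟨j, g, h⟩ := α.moebius i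
    obtain ⟨k, g', h'⟩ := β.moebius j
    refine ⟨k, g' * g, fun z => ?_⟩
    rw [Homeomorph.trans_apply, h, h', mul_smul]

variable {X : Set Sph}

/-- isomorphism of the pointed curves -/
def Sim (m m' : Marked X) : Prop := ∃ α : Iso m.C m'.C, ∀ x ∈ X, m'.φ x = α.toHomeo (m.φ x)

theorem Sim.refl (m : Marked X) : Sim m m := ⟨Iso.refl _, fun _ _ => rfl⟩

theorem Sim.symm {m m' : Marked X} (h : Sim m m') : Sim m' m := by
  obtain ⟨α, h⟩ := h
  refine ⟨α.symm, fun x hx => ?_⟩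
  show _ = α.toHomeo.symm _
  rw [h x hx, Homeomorph.symm_apply_apply]

theorem Sim.trans {m m' m'' : Marked X} (h : Sim m m') (h' : Sim m' m'') : Sim m m'' := by
  obtain ⟨α, h⟩ := h
  obtain ⟨β, h'⟩ := h'
  refine ⟨α.trans β, fun x hx => ?_⟩
  show _ = β.toHomeo (α.toHomeo _)
  rw [h' x hx, h x hx]

theorem Equivalent.sim {m m' : Marked X} (h : Equivalent m m') : Sim m m' := by
  obtain ⟨α, H, -, -, h0, h1, h2⟩ := h
  refine ⟨α, fun x hx => ?_⟩
  rw [← h1, h2 1 x hx, h0]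

theorem sim_of_eq {m m' : Marked X} (h : (Quot.mk _ m : AT X) = Quot.mk _ m') : Sim m m' := by
  have h1 := Quot.eqvGen_exact h
  clear h
  induction h1 with
  | rel x y h => exact h.sim
  | refl x => exact Sim.refl x
  | symm x y _ h => exact h.symm
  | trans x y z _ _ h h' => exact h.trans h'

theorem adj_node {C : NodalCurve} {i j : C.comp}
    (h : (SimpleGraph.fromRel fun i j : C.comp =>
      (range (C.chart i) ∩ range (C.chart j)).Nonempty).Adj i j) :
    ∃ z, C.chart i z ∈ range (C.chart j) := by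
  rw [SimpleGraph.fromRel_adj] at h
  obtain ⟨-, ⟨x, ⟨z, rfl⟩, hx⟩ | ⟨x, hx, ⟨z, rfl⟩⟩⟩ := h
  · exact ⟨z, hx⟩
  · exact ⟨z, hx⟩

theorem node_adj {C : NodalCurve} {i j : C.comp} (hij : i ≠ j) {x : C.pts}
    (hi : x ∈ range (C.chart i)) (hj : x ∈ range (C.chart j)) :
    (SimpleGraph.fromRel fun i j : C.comp =>
      (range (C.chart i) ∩ range (C.chart j)).Nonempty).Adj i j := by
  rw [SimpleGraph.fromRel_adj]
  exact ⟨hij, Or.inl ⟨x, hi, hj⟩⟩

/-- a curve without nodes has one component -/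
theorem subsingleton_of_no_node {C : NodalCurve} (h : ∀ x, ¬ C.IsNode x) (i j : C.comp) :
    i = j := by
  by_contra hij
  have : Nontrivial C.comp := ⟨i, j, hij⟩
  obtain ⟨k, hk⟩ := C.tree.connected.preconnected.exists_adj_of_nontrivial i
  obtain ⟨z, hz⟩ := adj_node hk
  exact h _ ⟨i, k, hk.ne, ⟨z, rfl⟩, hz⟩

theorem Iso.node (α : Iso C D) {x : C.pts} (hx : C.IsNode x) : D.IsNode (α.toHomeo x) := by
  obtain ⟨i, j, hij, ⟨z, hz⟩, ⟨w, hw⟩⟩ := hx
  obtain ⟨i', g, hg⟩ := α.moebius i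
  obtain ⟨j', g', hg'⟩ := α.moebius j
  refine ⟨i', j', ?_, ⟨g • z, ?_⟩, ⟨g' • w, ?_⟩⟩
  · rintro rfl
    have h1 : range (C.chart i) ⊆ range (C.chart j) := by
      rintro _ ⟨u, rfl⟩
      refine ⟨g'⁻¹ • g • u, ?_⟩
      apply α.toHomeo.injective
      rw [hg, hg', smul_inv_smul]
    have h2 := C.two i j hij
    rw [inter_eq_left.2 h1] at h2
    exact range_infinite C i h2.finite
  · rw [← hg, hz]
  · rw [← hg', hw]

/-- a marked point is not a node -/
theorem IsMarking.not_node {φ : Sph → C.pts} (h : IsMarking X C φ) {x : Sph} (hx : x ∈ X) :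
    ¬ C.IsNode (φ x) := by
  intro hn
  obtain ⟨γ, -, -, h3, h4⟩ := h.curve _ hn
  rw [disjoint_left] at h4
  refine h4 ?_ hx
  rw [h3]
  rfl

theorem IsMarking.inj' {φ : Sph → C.pts} (h : IsMarking X C φ) {x y : Sph} (hx : x ∈ X)
    (hxy : φ x = φ y) : x = y := h.inj x y hxy (h.not_node hx)

/-- a leaf: a component with only one node and with two marked points -/
theorem leaf {m : Marked X} {i : m.C.comp} {j : m.C.comp}
    (hadj : (SimpleGraph.fromRel fun i j : m.C.comp =>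
      (range (m.C.chart i) ∩ range (m.C.chart j)).Nonempty).Adj i j)
    (huniq : ∀ k, (SimpleGraph.fromRel fun i j : m.C.comp =>
      (range (m.C.chart i) ∩ range (m.C.chart j)).Nonempty).Adj i k → k = j) :
    ∃ (n : Sph) (a b : Sph) (p q : Sph), p ∈ X ∧ q ∈ X ∧ p ≠ q ∧ m.φ p = m.C.chart i a ∧
      m.φ q = m.C.chart i b ∧ m.C.IsNode (m.C.chart i n) ∧
      ∀ z k, k ≠ i → m.C.chart i z ∈ range (m.C.chart k) → z = n := by
  obtain ⟨n, hn⟩ := adj_node hadj
  have hnode : m.C.IsNode (m.C.chart i n) := ⟨i, j, hadj.ne, ⟨n, rfl⟩, hn⟩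
  have honly : ∀ z k, k ≠ i → m.C.chart i z ∈ range (m.C.chart k) → z = n := by
    intro z k hk hz
    have h1 := huniq k (node_adj (Ne.symm hk) ⟨z, rfl⟩ hz)
    subst h1
    exact (m.C.emb i).injective (m.C.two i k (Ne.symm hk) ⟨⟨z, rfl⟩, hz⟩ ⟨⟨n, rfl⟩, hn⟩)
  have h1 := m.stable i
  have h2 : {z : Sph | m.C.IsNode (m.C.chart i z) ∨ m.C.chart i z ∈ m.φ '' X} ⊆
      {n} ∪ {z : Sph | m.C.chart i z ∈ m.φ '' X} := by
    rintro z (hz | hz)
    · left
      obtain ⟨a, b, hab, ha, hb⟩ := hz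
      by_cases hai : a = i
      · subst hai
        exact honly z b (Ne.symm hab) hb
      · exact honly z a hai ha
    · exact Or.inr hz
  have h3 : 3 ≤ ({n} : Set Sph).encard + {z : Sph | m.C.chart i z ∈ m.φ '' X}.encard :=
    h1.trans ((encard_le_encard h2).trans (encard_union_le _ _))
  rw [encard_singleton] at h3
  have h4 : 1 < {z : Sph | m.C.chart i z ∈ m.φ '' X}.encard := by
    by_contra hcon
    have h5 := not_lt.1 hcon
    have h6 : (3 : ℕ∞) ≤ 1 + 1 := h3.trans (add_le_add le_rfl h5)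
    norm_num at h6
  obtain ⟨a, b, ⟨p, hp, hpa⟩, ⟨q, hq, hqb⟩, hab⟩ := one_lt_encard_iff.1 h4
  refine ⟨n, a, b, p, q, hp, hq, ?_, hpa, hqb, hnode, honly⟩
  rintro rfl
  exact hab ((m.C.emb i).injective (hpa.symm.trans hqb))

/-- the structure of a nodal marked curve -/
theorem two_leaves (m : Marked X) {i0 j0 : m.C.comp} (h0 : i0 ≠ j0) :
    ∃ (i i' : m.C.comp) (n a b p q r s : Sph), i ≠ i' ∧ p ∈ X ∧ q ∈ X ∧ r ∈ X ∧ s ∈ X ∧ p ≠ q ∧
      r ≠ s ∧ m.φ p = m.C.chart i a ∧ m.φ q = m.C.chart i b ∧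
      m.φ r ∈ range (m.C.chart i') ∧ m.φ s ∈ range (m.C.chart i') ∧
      m.C.IsNode (m.C.chart i n) ∧
      ∀ z k, k ≠ i → m.C.chart i z ∈ range (m.C.chart k) → z = n := by
  classical
  have : Nontrivial m.C.comp := ⟨i0, j0, h0⟩
  obtain ⟨i, i', hne, hi, hi'⟩ := m.C.tree.exists_ne_and_degree_eq_one
  rw [SimpleGraph.degree_eq_one_iff_existsUnique_adj] at hi hi'
  obtain ⟨j, hj, hju⟩ := hi
  obtain ⟨j', hj', hju'⟩ := hi'
  obtain ⟨n, a, b, p, q, hp, hq, hpq, hpa, hqb, hnode, honly⟩ := leaf hj hju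
  obtain ⟨-, a', b', r, s, hr, hs, hrs, hra, hsb, -, -⟩ := leaf hj' hju'
  exact ⟨i, i', n, a, b, p, q, r, s, hne, hp, hq, hr, hs, hpq, hrs, hpa, hqb, ⟨a', hra.symm⟩,
    ⟨b', hsb.symm⟩, hnode, honly⟩

/-- a marked point is on only one component -/
theorem comp_unique (m : Marked X) {x : Sph} (hx : x ∈ X) {i j : m.C.comp}
    (hi : m.φ x ∈ range (m.C.chart i)) (hj : m.φ x ∈ range (m.C.chart j)) : i = j := by
  by_contra hij
  exact m.marking.not_node hx ⟨i, j, hij, hi, hj⟩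

end Pool.Agent.U594.AD
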