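import Pool.Agent.U594.AD.Rigid

set_option autoImplicit false

/-!
# The augmented deformation space of `z ↦ z ^ 3` is not connected
-/

open Set Topology Filter Matrix

noncomputable section

namespace Pool.Agent.U594.AD

theorem Holomorphic.smul {h : Sph → Sph} (hh : Holomorphic h) (k g : Mob) :
    Holomorphic fun z => k • h (g • z) := by
  refine ⟨(continuous_smul k).comp (hh.1.comp (continuous_smul g)), fun A B z hz => ?_⟩
  have h1 := hh.2 (g * A) (B * k) z
  simp only [mul_smul] at h1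
  exact h1 hz

/-- what a stabilization says about the marked points -/
theorem stab_info {X : Set Sph} {C : NodalCurve} {ψ : Sph → C.pts} {n : Marked X}
    (hst : IsStabilization C ψ n) (i : C.comp) (hsub : ∀ j, j = i) (l : Sph → Sph)
    (hl : ∀ x, ψ x = C.chart i (l x)) :
    ∃ (j : n.C.comp) (g : Mob), ∀ x ∈ X, n.φ x = n.C.chart j (g • l x) := by
  obtain ⟨κ, H, hκ, -, -, h0, h1, h2⟩ := hst
  obtain ⟨j, -, -⟩ := n.C.cover (n.φ ((0 : ℂ) : Sph))
  obtain ⟨i', ⟨g, hg⟩, -⟩ := hκ.2.2.2 j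
  rw [hsub i'] at hg
  refine ⟨j, g, fun x hx => ?_⟩
  rw [← h0, ← h2 1 x hx, h1, hl, hg]

theorem cube_fix {x : Sph} (hx : x ∈ P) : cube x = x := by
  rcases mem_P.1 hx with rfl | rfl | rfl | rfl
  · rw [cube_coe]; norm_num
  · rw [cube_coe]; norm_num
  · rw [cube_coe]; norm_num
  · exact cube_infty

/-- the smooth members of the augmented deformation space -/
theorem smooth_harm {m : Marked P} (hm : NoNode m)
    (ha : (Quot.mk _ m : AT P) ∈ AugmentedDeformationSpace cube P P) : Harm m := by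
  obtain ⟨m', hmm', C', ψ, F, hψ, hF, hFψ, n, n', hn, hn', hnn'⟩ := ha
  apply Harm.of_sim (sim_of_eq hmm')
  have hm' : NoNode m' := hm.of_sim (sim_of_eq hmm').symm
  clear hm hmm' m
  have hC' : ∀ x, ¬ C'.IsNode x := fun x hx => hm' _ (hF.node x hx)
  obtain ⟨i, z0, -⟩ := m'.C.cover (m'.φ ((0 : ℂ) : Sph))
  obtain ⟨i', z0', -⟩ := C'.cover (ψ ((0 : ℂ) : Sph))
  have hi : ∀ j, j = i := fun j => subsingleton_of_no_node hm' j i
  have hi' : ∀ j, j = i' := fun j => subsingleton_of_no_node hC' j i'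
  -- coordinates
  have e1 : ∀ x, ∃ u, m'.φ x = m'.C.chart i u := by
    intro x
    obtain ⟨j, z, hz⟩ := m'.C.cover (m'.φ x)
    rw [hi j] at hz
    exact ⟨z, hz.symm⟩
  choose f hf using e1
  have e2 : ∀ x, ∃ u, ψ x = C'.chart i' u := by
    intro x
    obtain ⟨j, z, hz⟩ := C'.cover (ψ x)
    rw [hi' j] at hz
    exact ⟨z, hz.symm⟩
  choose p hp using e2
  have f_inj : Function.Injective f := by
    intro x y hxy
    apply m'.marking.inj x y _ (hm' _)
    rw [hf, hf, hxy]
  have p_inj : Function.Injective p := by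
    intro x y hxy
    apply hψ.inj x y _ (hC' _)
    rw [hp, hp, hxy]
  have p_surj : Function.Surjective p := by
    intro u
    obtain ⟨x, hx⟩ := hψ.surj (C'.chart i' u)
    refine ⟨x, ?_⟩
    rw [hp] at hx
    exact (C'.emb i').injective hx
  obtain ⟨j, h, hh, -, hFh⟩ := hF.holo i'
  rw [hi j] at hFh
  have hcomm : ∀ z, h (p z) = f (cube z) := by
    intro z
    apply (m'.C.emb i).injective
    rw [← hFh, ← hp, hFψ, hf]
  -- the stabilizations
  obtain ⟨jn, g, hg⟩ := stab_info hn i' hi' p hp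
  obtain ⟨jn', g', hg'⟩ := stab_info hn' i hi f hf
  obtain ⟨α, hα⟩ := sim_of_eq hnn'
  obtain ⟨jα, gα, hgα⟩ := α.moebius jn
  have hcomp : ∀ x ∈ P, n'.C.chart jn' (g' • f x) = n'.C.chart jα (gα • g • p x) := by
    intro x hx
    rw [← hg' x hx, hα x hx, hg x hx, hgα]
  have hjj : jn' = jα := by
    apply comp_unique n' zero_mem_P
    · exact ⟨_, (hg' _ zero_mem_P).symm⟩
    · rw [hg' _ zero_mem_P, hcomp _ zero_mem_P]
      exact ⟨_, rfl⟩
  subst hjj
  have hfp : ∀ x ∈ P, f x = (g'⁻¹ * gα * g) • p x := by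
    intro x hx
    have h1 := (n'.C.emb jn').injective (hcomp x hx)
    rw [mul_smul, mul_smul, ← h1, inv_smul_smul]
  set h0 : Mob := g'⁻¹ * gα * g with hh0
  -- normalization
  obtain ⟨k, k0, ki, k1⟩ := exists_three
    (f_inj.ne (OnePoint.coe_ne_infty (0 : ℂ))) (f_inj.ne coe_zero_ne_one)
    (f_inj.ne (OnePoint.infty_ne_coe (1 : ℂ)))
  let E : Sph → Sph := fun z => k • h ((h0⁻¹ * k⁻¹) • z)
  have hE : Holomorphic E := hh.smul k (h0⁻¹ * k⁻¹)
  let y : Sph → Sph := fun z => k • h0 • p z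
  have y_inj : Function.Injective y :=
    (MulAction.injective k).comp ((MulAction.injective h0).comp p_inj)
  have y_surj : Function.Surjective y := by
    intro w
    obtain ⟨z, hz⟩ := p_surj (h0⁻¹ • k⁻¹ • w)
    refine ⟨z, ?_⟩
    show k • h0 • p z = w
    rw [hz, smul_inv_smul, smul_inv_smul]
  have hEy : ∀ z, E (y z) = k • f (cube z) := by
    intro z
    show k • h ((h0⁻¹ * k⁻¹) • k • h0 • p z) = _
    rw [mul_smul, inv_smul_smul, inv_smul_smul, hcomm]
  have hyP : ∀ x ∈ P, y x = k • f x := by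
    intro x hx
    rw [hfp x hx]
  have hEP : ∀ x ∈ P, E (k • f x) = k • f x := by
    intro x hx
    rw [← hyP x hx, hEy, cube_fix hx, hyP x hx]
  have hk_inj : ∀ {a b : Sph}, k • f a = k • f b → a = b := fun h1 =>
    f_inj (MulAction.injective k h1)
  have hE0 : ∀ z, E z = ((0 : ℂ) : Sph) ↔ z = ((0 : ℂ) : Sph) := by
    intro z
    constructor
    · intro h1
      obtain ⟨w, rfl⟩ := y_surj z
      rw [hEy, ← k0] at h1
      have h2 := cube_eq_zero.1 (hk_inj h1)
      rw [h2, hyP _ zero_mem_P, k0]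
    · rintro rfl
      have := hEP _ zero_mem_P
      rwa [k0] at this
  have hEi : ∀ z, E z = OnePoint.infty ↔ z = OnePoint.infty := by
    intro z
    constructor
    · intro h1
      obtain ⟨w, rfl⟩ := y_surj z
      rw [hEy, ← ki] at h1
      have h2 := cube_eq_infty.1 (hk_inj h1)
      rw [h2, hyP _ infty_mem_P, ki]
    · rintro rfl
      have := hEP _ infty_mem_P
      rwa [ki] at this
  have hE1 : E ((1 : ℂ) : Sph) = ((1 : ℂ) : Sph) := by
    have := hEP _ one_mem_P
    rwa [k1] at this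
  have hE1' : {z | E z = ((1 : ℂ) : Sph)}.encard = 3 := by
    have h1 : {z | E z = ((1 : ℂ) : Sph)} = y '' (cube ⁻¹' {((1 : ℂ) : Sph)}) := by
      ext z
      constructor
      · intro h2
        obtain ⟨w, rfl⟩ := y_surj z
        refine ⟨w, ?_, rfl⟩
        have h3 : E (y w) = ((1 : ℂ) : Sph) := h2
        rw [hEy, ← k1] at h3
        exact hk_inj h3
      · rintro ⟨w, hw, rfl⟩
        have hw : cube w = ((1 : ℂ) : Sph) := hw
        show E (y w) = _
        rw [hEy, hw, k1]
    rw [h1, y_inj.encard_image, encard_cube coe_zero_ne_one.symm (OnePoint.coe_ne_infty _)]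
  obtain ⟨c, N, hcN⟩ := rigid hE hE0 hEi
  have hc : c = 1 := by
    have h1 := hcN 1
    rw [hE1, OnePoint.coe_eq_coe, one_pow, mul_one] at h1
    exact h1.symm
  subst hc
  have hN0 : 0 < N := by
    rcases Nat.eq_zero_or_pos N with h1 | h1
    · exfalso
      have h2 := hcN 0
      rw [h1, (hE0 _).2 rfl, OnePoint.coe_eq_coe] at h2
      norm_num at h2
    · exact h1
  have hN : N = 3 := by
    have h1 : {z | E z = ((1 : ℂ) : Sph)} = (fun z : ℂ => (z : Sph)) '' {z : ℂ | z ^ N = 1} := by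
      ext z
      constructor
      · intro h2
        have h2 : E z = ((1 : ℂ) : Sph) := h2
        have h3 : z ≠ OnePoint.infty := by
          rintro rfl
          rw [(hEi _).2 rfl] at h2
          exact OnePoint.infty_ne_coe _ h2
        obtain ⟨z, rfl⟩ := OnePoint.ne_infty_iff_exists.1 h3
        refine ⟨z, ?_, rfl⟩
        rw [hcN, OnePoint.coe_eq_coe, one_mul] at h2
        exact h2
      · rintro ⟨w, hw, rfl⟩
        have hw : w ^ N = 1 := hw
        show E (w : Sph) = _
        rw [hcN, hw, one_mul]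
    rw [h1, OnePoint.coe_injective.encard_image, encard_roots hN0] at hE1'
    exact_mod_cast hE1'
  subst hN
  -- the fourth point
  have hD : k • f ((-1 : ℂ) : Sph) ≠ OnePoint.infty := by
    intro h1
    rw [← ki] at h1
    exact OnePoint.coe_ne_infty _ (hk_inj h1)
  obtain ⟨δ, hδ⟩ := OnePoint.ne_infty_iff_exists.1 hD
  have hδ3 : δ ^ 3 = δ := by
    have h1 := hEP _ neg_one_mem_P
    rw [← hδ, hcN, OnePoint.coe_eq_coe, one_mul] at h1
    exact h1
  have hδ0 : δ ≠ 0 := by
    rintro rfl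
    rw [← k0] at hδ
    exact coe_zero_ne_neg_one (hk_inj hδ)
  have hδ1 : δ ≠ 1 := by
    rintro rfl
    rw [← k1] at hδ
    have := OnePoint.coe_injective (hk_inj hδ)
    norm_num at this
  have hδm : δ = -1 := by
    have h1 : δ * ((δ - 1) * (δ + 1)) = 0 := by linear_combination hδ3
    rcases mul_eq_zero.1 h1 with h2 | h2
    · exact absurd h2 hδ0
    · rcases mul_eq_zero.1 h2 with h3 | h3
      · exact absurd (sub_eq_zero.1 h3) hδ1
      · exact eq_neg_of_add_eq_zero_left h3
  refine ⟨i, f, fun x _ => hf x, ?_⟩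
  rw [← HR_smul k, k0, ki, k1, ← hδ, hδm]
  exact HR_std

theorem not_preconnected : ¬ IsPreconnected (AugmentedDeformationSpace cube P P) := by
  intro h
  have hM2 : ¬ NoNode M2 := fun h1 => h1 _ node_false
  have key : ∀ m : Marked P, ¬ NoNode m → ¬ Harm m := fun m h1 h2 => h1 h2.noNode
  obtain ⟨a, ha, hT, hV⟩ := h (TT P) VV (isOpen_TT P) isOpen_VV (by
      intro a ha
      induction a using Quot.ind with
      | mk m =>
        by_cases hm : NoNode m
        · exact Or.inl (mem_TT.2 hm)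
        · exact Or.inr (mem_VV.2 (key m hm)))
    ⟨_, M1_mem, mem_TT.2 C1_node⟩ ⟨_, M2_mem, mem_VV.2 (key _ hM2)⟩
  induction a using Quot.ind with
  | mk m => exact mem_VV.1 hV (smooth_harm (mem_TT.1 hT) ha)

end Pool.Agent.U594.AD
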