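import Pool.Agent.U594.AD.Radial

set_option autoImplicit false

/-!
# Radial markings are markings
-/

open Set Topology Filter Matrix

noncomputable section

namespace Pool.Agent.U594.AD

/-- the point `r u` -/
def ray (u : ℂ) (r : ℝ) : Sph := ((r * u : ℂ) : Sph)

/-- Radial functions: `-1` at `0`, `1` at `∞`, increasing along the rays. -/
structure Rad (R : Sph → ℝ) : Prop where
  rad : RadialOn R id
  mono : ∀ u : ℂ, ‖u‖ = 1 → ∀ r s : ℝ, 0 ≤ r → r < s → R (ray u r) < R (ray u s)

theorem ray_ne_infty (u : ℂ) (r : ℝ) : ray u r ≠ OnePoint.infty := OnePoint.coe_ne_infty _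

theorem toC_ray (u : ℂ) (r : ℝ) : toC (ray u r) = r * u := rfl

theorem dir_ray {u : ℂ} (hu : ‖u‖ = 1) {r : ℝ} (hr : 0 < r) :
    ((r : ℂ) * u) / (‖(r : ℂ) * u‖ : ℂ) = u := by
  have h1 : ‖(r : ℂ) * u‖ = r := by
    rw [norm_mul, hu, mul_one, Complex.norm_real, Real.norm_eq_abs, abs_of_pos hr]
  rw [h1]
  have h2 : (r : ℂ) ≠ 0 := by exact_mod_cast hr.ne'
  field_simp

theorem ray_dir {z : ℂ} (hz : z ≠ 0) : ray (z / ‖z‖) ‖z‖ = (z : Sph) := by
  have h2 : (‖z‖ : ℂ) ≠ 0 := by exact_mod_cast (norm_ne_zero_iff.2 hz)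
  rw [ray]
  congr 1
  field_simp

theorem ray_zero (u : ℂ) : ray u 0 = ((0 : ℂ) : Sph) := by simp [ray]

theorem tendsto_ray {u : ℂ} (hu : ‖u‖ = 1) : Tendsto (ray u) atTop (𝓝 OnePoint.infty) := by
  rw [tendsto_infty_iff]
  intro M
  filter_upwards [eventually_gt_atTop M] with r hr z hz
  rw [ray, OnePoint.coe_eq_coe] at hz
  rw [← hz, norm_mul, hu, mul_one, Complex.norm_real, Real.norm_eq_abs]
  exact hr.trans_le (le_abs_self _)

theorem continuous_ray (u : ℂ) : Continuous (ray u) := by
  refine OnePoint.continuous_coe.comp ?_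
  fun_prop

variable {R : Sph → ℝ}

theorem Rad.at_zero (h : Rad R) : R ((0 : ℂ) : Sph) = -1 := (h.rad.zero _).1 rfl

theorem Rad.at_infty (h : Rad R) : R OnePoint.infty = 1 := (h.rad.infty _).1 rfl

theorem Rad.exists_ray (h : Rad R) {u : ℂ} (hu : ‖u‖ = 1) {l : ℝ} (h1 : -1 < l) (h2 : l < 1) :
    ∃ r, 0 < r ∧ R (ray u r) = l := by
  have hc : Continuous fun r => R (ray u r) := h.rad.contR.comp (continuous_ray u)
  have ht : Tendsto (fun r => R (ray u r)) atTop (𝓝 1) := by
    have h3 := (h.rad.contR.continuousAt (x := OnePoint.infty)).tendsto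
    rw [h.at_infty] at h3
    exact h3.comp (tendsto_ray hu)
  obtain ⟨s, hs, hs0⟩ := ((ht.eventually (lt_mem_nhds h2)).and (eventually_ge_atTop 0)).exists
  have h0 : R (ray u 0) = -1 := by rw [ray_zero, h.at_zero]
  have h3 : l ∈ Icc (R (ray u 0)) (R (ray u s)) := ⟨by linarith, hs.le⟩
  obtain ⟨r, hr, hr2⟩ := intermediate_value_Icc hs0 hc.continuousOn h3
  refine ⟨r, lt_of_le_of_ne hr.1 ?_, hr2⟩
  rintro rfl
  simp only at hr2
  linarith

theorem Rad.lt_one (h : Rad R) {z : Sph} (hz : z ≠ OnePoint.infty) : R z < 1 :=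
  lt_of_le_of_ne (h.rad.le z) fun h1 => hz ((h.rad.infty z).2 h1)

theorem Rad.gt (h : Rad R) {z : Sph} (hz : z ≠ ((0 : ℂ) : Sph)) : -1 < R z :=
  lt_of_le_of_ne (h.rad.ge z) fun h1 => hz ((h.rad.zero z).2 h1.symm)

/-- two points of the same direction and the same value are the same -/
theorem Rad.inj (h : Rad R) {z w : ℂ} (hz : z ≠ 0) (hw : w ≠ 0)
    (hd : z / (‖z‖ : ℂ) = w / (‖w‖ : ℂ)) (hR : R z = R w) : z = w := by
  have hu : ‖z / (‖z‖ : ℂ)‖ = 1 := norm_dir hz
  have hu' : ‖w / (‖w‖ : ℂ)‖ = 1 := norm_dir hw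
  have h1 : ‖z‖ = ‖w‖ := by
    rcases lt_trichotomy ‖z‖ ‖w‖ with h2 | h2 | h2
    · have := h.mono _ hu _ _ (norm_nonneg z) h2
      rw [ray_dir hz, hd, ray_dir hw] at this
      linarith
    · exact h2
    · have := h.mono _ hu' _ _ (norm_nonneg w) h2
      rw [ray_dir hw, ← hd, ray_dir hz] at this
      linarith
  have h2 : (‖w‖ : ℂ) ≠ 0 := by exact_mod_cast (norm_ne_zero_iff.2 hw)
  rw [h1] at hd
  field_simp at hd
  exact hd

/-- the radial marking -/
def Rad.map (h : Rad R) (z : Sph) : C2.pts := Phi (R z) z (h.rad.cond z)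

theorem Rad.continuous (h : Rad R) : Continuous h.map := h.rad.contPhi

theorem phi1_ray {u : ℂ} (hu : ‖u‖ = 1) {r l : ℝ} (hr : 0 < r) (hl : l < 0) :
    phi1 l (ray u r) = (((((1 + l) / (-l) : ℝ) : ℂ) * u : ℂ) : Sph) := by
  rw [phi1, if_pos hl, toC_ray, dir_ray hu hr]

theorem phi2_ray {u : ℂ} (hu : ‖u‖ = 1) {r l : ℝ} (hr : 0 < r) (hl : 0 ≤ l) :
    phi2 l (ray u r) = ((((l / (1 - l) : ℝ) : ℂ) * u : ℂ) : Sph) := by
  rw [phi2, ray, OnePoint.elim_some, dir_ray hu hr, max_eq_left hl]

theorem phi2_neg {z : Sph} (hz : z ≠ OnePoint.infty) {l : ℝ} (hl : l ≤ 0) :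
    phi2 l z = ((0 : ℂ) : Sph) := by
  rw [← coe_toC hz, phi2, OnePoint.elim_some, max_eq_right hl]
  simp

theorem phi1_nonneg {z : Sph} {l : ℝ} (hl : 0 ≤ l) : phi1 l z = OnePoint.infty := by
  rw [phi1, if_neg (not_lt.2 hl)]

theorem phi2_infty {l : ℝ} : phi2 l OnePoint.infty = OnePoint.infty := rfl

theorem phi1_zero : phi1 (-1) ((0 : ℂ) : Sph) = ((0 : ℂ) : Sph) := by
  rw [phi1, if_pos (by norm_num)]
  simp [toC]

theorem Rad.map_node (h : Rad R) (z : Sph) : C2.IsNode (h.map z) ↔ R z = 0 := by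
  rw [C2_node]
  show (phi1 (R z) z, phi2 (R z) z) = _ ↔ _
  rw [Prod.ext_iff]
  constructor
  · rintro ⟨h1, h2⟩
    simp only at h1 h2
    by_contra hne
    rcases lt_or_gt_of_ne hne with h3 | h3
    · rw [phi1, if_pos h3] at h1
      exact OnePoint.coe_ne_infty _ h1
    · induction z using OnePoint.rec with
      | infty => rw [phi2_infty] at h2; exact OnePoint.infty_ne_coe _ h2
      | coe z =>
        have hz : z ≠ 0 := by
          rintro rfl
          have := h.at_zero
          linarith
        have h4 := h.lt_one (OnePoint.coe_ne_infty z)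
        rw [phi2, OnePoint.elim_some, OnePoint.coe_eq_coe, max_eq_left h3.le] at h2
        have h5 := congrArg norm h2
        rw [norm_mul, norm_dir hz, mul_one, Complex.norm_real, norm_zero, Real.norm_eq_abs,
          abs_eq_zero, div_eq_zero_iff] at h5
        rcases h5 with h5 | h5 <;> linarith
  · intro h1
    have hz : z ≠ OnePoint.infty := by
      rintro rfl
      have := h.at_infty
      linarith
    exact ⟨phi1_nonneg h1.ge, phi2_neg hz h1.le⟩

theorem Rad.surjective (h : Rad R) : Function.Surjective h.map := by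
  rintro ⟨⟨a, b⟩, hab⟩
  have hone : ‖(1 : ℂ)‖ = 1 := norm_one
  have hnode : ∃ z, h.map z = C2nd := by
    obtain ⟨r, hr, hr2⟩ := h.exists_ray hone (l := 0) (by norm_num) (by norm_num)
    refine ⟨ray 1 r, Subtype.ext ?_⟩
    show (phi1 _ _, phi2 _ _) = (OnePoint.infty, ((0 : ℂ) : Sph))
    rw [hr2, phi1_nonneg le_rfl, phi2_neg (ray_ne_infty _ _) le_rfl]
  have hfin : ∀ c : ℂ, c ≠ 0 → ∃ (u : ℂ) (ρ : ℝ), ‖u‖ = 1 ∧ 0 < ρ ∧ c = ρ * u := by
    intro c hc
    refine ⟨c / ‖c‖, ‖c‖, norm_dir hc, norm_pos_iff.2 hc, ?_⟩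
    have h2 : (‖c‖ : ℂ) ≠ 0 := by exact_mod_cast (norm_ne_zero_iff.2 hc)
    field_simp
  rcases hab with hab | hab
  · simp only at hab
    subst hab
    induction b using OnePoint.rec with
    | infty =>
      refine ⟨OnePoint.infty, Subtype.ext ?_⟩
      show (phi1 _ _, phi2 _ _) = (OnePoint.infty, OnePoint.infty)
      rw [phi2_infty, h.at_infty, phi1_nonneg (by norm_num)]
    | coe b =>
      by_cases hb : b = 0
      · subst hb
        exact hnode
      · obtain ⟨u, ρ, hu, hρ, rfl⟩ := hfin b hb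
        obtain ⟨r, hr, hr2⟩ := h.exists_ray hu (l := ρ / (1 + ρ))
          (by have : 0 < ρ / (1 + ρ) := by positivity
              linarith) (by rw [div_lt_one (by linarith)]; linarith)
        refine ⟨ray u r, Subtype.ext ?_⟩
        show (phi1 _ _, phi2 _ _) = (OnePoint.infty, _)
        have h0 : 0 ≤ ρ / (1 + ρ) := by positivity
        rw [hr2, phi1_nonneg h0, phi2_ray hu hr h0]
        have h3 : ρ / (1 + ρ) / (1 - ρ / (1 + ρ)) = ρ := by
          have : 1 + ρ ≠ 0 := by linarith
          have h4 : 1 - ρ / (1 + ρ) = 1 / (1 + ρ) := by field_simp; ring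
          rw [h4]
          field_simp
        rw [h3]
  · simp only at hab
    subst hab
    induction a using OnePoint.rec with
    | infty => exact hnode
    | coe a =>
      by_cases ha : a = 0
      · subst ha
        refine ⟨((0 : ℂ) : Sph), Subtype.ext ?_⟩
        show (phi1 _ _, phi2 _ _) = (((0 : ℂ) : Sph), ((0 : ℂ) : Sph))
        rw [h.at_zero, phi1_zero, phi2_neg (OnePoint.coe_ne_infty _) (by norm_num)]
      · obtain ⟨u, ρ, hu, hρ, rfl⟩ := hfin a ha
        have h0 : 0 < 1 / (1 + ρ) := by positivity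
        obtain ⟨r, hr, hr2⟩ := h.exists_ray hu (l := -(1 / (1 + ρ)))
          (by have : 1 / (1 + ρ) < 1 := by rw [div_lt_one (by linarith)]; linarith
              linarith) (by linarith)
        refine ⟨ray u r, Subtype.ext ?_⟩
        show (phi1 _ _, phi2 _ _) = (_, ((0 : ℂ) : Sph))
        rw [hr2, phi2_neg (ray_ne_infty _ _) (by linarith), phi1_ray hu hr (by linarith)]
        have h3 : (1 + -(1 / (1 + ρ))) / (-(-(1 / (1 + ρ)))) = ρ := by
          have : 1 + ρ ≠ 0 := by linarith
          field_simp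
          ring
        rw [h3]

theorem real_mul_inj {a b : ℝ} {u v : ℂ} (hu : ‖u‖ = 1) (hv : ‖v‖ = 1) (ha : 0 < a) (hb : 0 < b)
    (h : (a : ℂ) * u = b * v) : a = b ∧ u = v := by
  have h1 := congrArg norm h
  rw [norm_mul, norm_mul, hu, hv, mul_one, mul_one, Complex.norm_real, Complex.norm_real,
    Real.norm_eq_abs, Real.norm_eq_abs, abs_of_pos ha, abs_of_pos hb] at h1
  subst h1
  have h2 : (a : ℂ) ≠ 0 := by exact_mod_cast ha.ne'
  exact ⟨rfl, mul_left_cancel₀ h2 h⟩

theorem Rad.injective (h : Rad R) (x y : Sph) (hxy : h.map x = h.map y)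
    (hn : ¬ C2.IsNode (h.map x)) : x = y := by
  have hn' : ¬ C2.IsNode (h.map y) := by rwa [← hxy]
  rw [h.map_node] at hn hn'
  have h1 : phi1 (R x) x = phi1 (R y) y := congrArg (fun p : C2.pts => p.1.1) hxy
  have h2 : phi2 (R x) x = phi2 (R y) y := congrArg (fun p : C2.pts => p.1.2) hxy
  rcases lt_or_gt_of_ne hn with h3 | h3
  · -- first component
    have h4 : R y < 0 := by
      by_contra hcon
      rw [phi1, if_pos h3, phi1_nonneg (not_lt.1 hcon)] at h1
      exact OnePoint.coe_ne_infty _ h1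
    have hx : x ≠ OnePoint.infty := by
      rintro rfl
      have := h.at_infty
      linarith
    have hy : y ≠ OnePoint.infty := by
      rintro rfl
      have := h.at_infty
      linarith
    rw [phi1, if_pos h3, phi1, if_pos h4, OnePoint.coe_eq_coe] at h1
    obtain ⟨x, rfl⟩ := OnePoint.ne_infty_iff_exists.1 hx
    obtain ⟨y, rfl⟩ := OnePoint.ne_infty_iff_exists.1 hy
    rw [toC_coe, toC_coe] at h1
    by_cases hx0 : x = 0
    · by_cases hy0 : y = 0
      · rw [hx0, hy0]
      · exfalso
        have h5 : -1 < R y := h.gt (by rwa [Ne, OnePoint.coe_eq_coe])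
        have h6 := congrArg norm h1
        rw [hx0, zero_div, mul_zero, norm_zero, norm_mul, norm_dir hy0, mul_one,
          Complex.norm_real, Real.norm_eq_abs, eq_comm, abs_eq_zero, div_eq_zero_iff] at h6
        rcases h6 with h6 | h6 <;> linarith
    · have h5 : -1 < R x := h.gt (by rwa [Ne, OnePoint.coe_eq_coe])
      by_cases hy0 : y = 0
      · exfalso
        have h6 := congrArg norm h1
        rw [hy0, zero_div, mul_zero, norm_zero, norm_mul, norm_dir hx0, mul_one,
          Complex.norm_real, Real.norm_eq_abs, abs_eq_zero, div_eq_zero_iff] at h6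
        rcases h6 with h6 | h6 <;> linarith
      · have h6 : -1 < R y := h.gt (by rwa [Ne, OnePoint.coe_eq_coe])
        obtain ⟨h7, h8⟩ := real_mul_inj (norm_dir hx0) (norm_dir hy0)
          (div_pos (by linarith) (by linarith)) (div_pos (by linarith) (by linarith)) h1
        have h9 : R x = R y := by
          rw [div_eq_div_iff (by linarith) (by linarith)] at h7
          linarith
        rw [h.inj hx0 hy0 h8 h9]
  · -- second component
    have h4 : 0 < R y := by
      rcases lt_or_gt_of_ne hn' with h4 | h4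
      · rw [phi1_nonneg h3.le, phi1, if_pos h4] at h1
        exact absurd h1 (OnePoint.infty_ne_coe _)
      · exact h4
    by_cases hx : x = OnePoint.infty
    · by_contra hy
      have hy : y ≠ OnePoint.infty := fun h5 => hy (hx.trans h5.symm)
      rw [hx, phi2_infty, ← coe_toC hy, phi2, OnePoint.elim_some] at h2
      exact OnePoint.infty_ne_coe _ h2
    · by_cases hy : y = OnePoint.infty
      · rw [hy, phi2_infty, ← coe_toC hx, phi2, OnePoint.elim_some] at h2
        exact absurd h2 (OnePoint.coe_ne_infty _)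
      · have h5 := h.lt_one hx
        have h6 := h.lt_one hy
        obtain ⟨x, rfl⟩ := OnePoint.ne_infty_iff_exists.1 hx
        obtain ⟨y, rfl⟩ := OnePoint.ne_infty_iff_exists.1 hy
        have hx0 : x ≠ 0 := by
          rintro rfl
          have := h.at_zero
          linarith
        have hy0 : y ≠ 0 := by
          rintro rfl
          have := h.at_zero
          linarith
        rw [phi2, phi2, OnePoint.elim_some, OnePoint.elim_some, OnePoint.coe_eq_coe,
          max_eq_left h3.le, max_eq_left h4.le] at h2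
        obtain ⟨h7, h8⟩ := real_mul_inj (norm_dir hx0) (norm_dir hy0)
          (div_pos (by linarith) (by linarith)) (div_pos (by linarith) (by linarith)) h2
        have h9 : R x = R y := by
          rw [div_eq_div_iff (by linarith) (by linarith)] at h7
          linarith
        rw [h.inj hx0 hy0 h8 h9]

/-- the curve `R = 0` -/
theorem Rad.curve (h : Rad R) : ∃ γ : Circle → Sph, Continuous γ ∧ Function.Injective γ ∧
    range γ = {z | R z = 0} := by
  have hne : ∀ z : {z // R z = 0}, z.1 ≠ OnePoint.infty := by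
    rintro ⟨z, hz⟩ rfl
    have := h.at_infty
    linarith
  have hne0 : ∀ z : {z // R z = 0}, toC z.1 ≠ 0 := by
    intro z h0
    have h1 : z.1 = ((0 : ℂ) : Sph) := by rw [← coe_toC (hne z), h0]
    have h2 := z.2
    rw [h1, h.at_zero] at h2
    norm_num at h2
  let d : {z // R z = 0} → Circle := fun z =>
    ⟨toC z.1 / ‖toC z.1‖, mem_sphere_zero_iff_norm.2 (norm_dir (hne0 z))⟩
  have hd : Continuous d := by
    refine Continuous.subtype_mk ?_ _
    rw [continuous_iff_continuousAt]
    intro z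
    have h1 : ContinuousAt (fun z : {z // R z = 0} => toC z.1) z :=
      (continuousAt_toC (hne z)).comp continuous_subtype_val.continuousAt
    exact ContinuousAt.comp (f := fun z : {z // R z = 0} => toC z.1) (x := z)
      (continuousAt_dir (hne0 z)) h1
  have hinj : Function.Injective d := by
    intro z w hzw
    have h1 : toC z.1 / (‖toC z.1‖ : ℂ) = toC w.1 / ‖toC w.1‖ := congrArg Subtype.val hzw
    have h2 : R (toC z.1 : Sph) = R (toC w.1 : Sph) := by
      rw [coe_toC (hne z), coe_toC (hne w), z.2, w.2]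
    have h3 := h.inj (hne0 z) (hne0 w) h1 h2
    apply Subtype.ext
    rw [← coe_toC (hne z), ← coe_toC (hne w), h3]
  have hsurj : Function.Surjective d := by
    intro u
    have hu : ‖(u : ℂ)‖ = 1 := Circle.norm_coe u
    obtain ⟨r, hr, hr2⟩ := h.exists_ray hu (l := 0) (by norm_num) (by norm_num)
    refine ⟨⟨ray u r, hr2⟩, Circle.ext ?_⟩
    show toC (ray u r) / (‖toC (ray u r)‖ : ℂ) = u
    rw [toC_ray, dir_ray hu hr]
  have hK : IsCompact {z | R z = 0} := (isClosed_eq h.rad.contR continuous_const).isCompact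
  have : CompactSpace {z // R z = 0} := isCompact_iff_compactSpace.1 hK
  let e : {z // R z = 0} ≃ Circle := Equiv.ofBijective d ⟨hinj, hsurj⟩
  have he : Continuous e := hd
  let H := he.homeoOfEquivCompactToT2
  refine ⟨fun u => (H.symm u).1, continuous_subtype_val.comp H.symm.continuous,
    Subtype.val_injective.comp H.symm.injective, ?_⟩
  ext z
  constructor
  · rintro ⟨u, rfl⟩
    exact (H.symm u).2
  · intro hz
    exact ⟨H ⟨z, hz⟩, by simp⟩

theorem norm_exp_I (t : ℝ) : ‖Complex.exp (t * Complex.I)‖ = 1 := Complex.norm_exp_ofReal_mul_I t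

theorem Rad.positive_false (h : Rad R) : PositiveAt C2 h.map false ((0 : ℂ) : Sph) := by
  have h00 : h.map ((0 : ℂ) : Sph) = C2.chart false ((0 : ℂ) : Sph) := by
    apply Subtype.ext
    show (phi1 _ _, phi2 _ _) = (((0 : ℂ) : Sph), ((0 : ℂ) : Sph))
    rw [h.at_zero, phi1_zero, phi2_neg (OnePoint.coe_ne_infty _) (by norm_num)]
  refine ⟨1, 1, one_smul _ _, ?_, ?_⟩
  · rw [one_smul, h00]
  · have h1 : ∀ᶠ z : ℂ in 𝓝 0, R (z : Sph) < 0 := by
      have hc : ContinuousAt (fun z : ℂ => R (z : Sph)) 0 :=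
        (h.rad.contR.comp OnePoint.continuous_coe).continuousAt
      have hc2 : Tendsto (fun z : ℂ => R (z : Sph)) (𝓝 0) (𝓝 (-1)) := by
        rw [← h.at_zero]
        exact hc
      exact hc2.eventually (gt_mem_nhds (by norm_num))
    obtain ⟨ε, hε, h2⟩ := Metric.eventually_nhds_iff.1 h1
    filter_upwards [Ioo_mem_nhdsGT hε] with r hr
    have hneg : ∀ t : ℝ, R (ray (Complex.exp (t * Complex.I)) r) < 0 := by
      intro t
      apply h2
      rw [dist_zero_right, norm_mul, norm_exp_I, mul_one, Complex.norm_real, Real.norm_eq_abs,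
        abs_of_pos hr.1]
      exact hr.2
    have hgt : ∀ t : ℝ, -1 < R (ray (Complex.exp (t * Complex.I)) r) := by
      intro t
      apply h.gt
      rw [ray, Ne, OnePoint.coe_eq_coe]
      refine mul_ne_zero ?_ (Complex.exp_ne_zero _)
      exact_mod_cast hr.1.ne'
    have hcR : Continuous fun t : ℝ => R (ray (Complex.exp (t * Complex.I)) r) := by
      refine h.rad.contR.comp (OnePoint.continuous_coe.comp ?_)
      fun_prop
    refine ⟨fun t => (1 + R (ray (Complex.exp (t * Complex.I)) r)) /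
      (-R (ray (Complex.exp (t * Complex.I)) r)), fun t => t, ?_, continuous_id, ?_, ?_, ?_⟩
    · refine Continuous.div (continuous_const.add hcR) hcR.neg ?_
      intro t
      have := hneg t
      linarith
    · intro t
      exact div_pos (by linarith [hgt t]) (by linarith [hneg t])
    · simp
    · intro t ht
      rw [one_smul, one_smul]
      apply Subtype.ext
      have e1 := phi1_ray (norm_exp_I t) hr.1 (hneg t)
      have e2 := phi2_neg (ray_ne_infty (Complex.exp (t * Complex.I)) r) (hneg t).le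
      exact Prod.ext e1 e2

/-- the matrix of `z ↦ 1 / z` -/
def swapM : Mob := Matrix.GeneralLinearGroup.mkOfDetNeZero !![0, 1; 1, 0] (by simp)

theorem swapM_zero : swapM • ((0 : ℂ) : Sph) = OnePoint.infty := by
  rw [← hom_one, smul_hom swapM (Or.inr one_ne_zero)]
  simp [swapM, hom, Matrix.GeneralLinearGroup.mkOfDetNeZero]

theorem swapM_coe {z : ℂ} (hz : z ≠ 0) : swapM • (z : Sph) = ((z⁻¹ : ℂ) : Sph) := by
  rw [← hom_one, smul_hom swapM (Or.inr one_ne_zero)]
  simp [swapM, hom, Matrix.GeneralLinearGroup.mkOfDetNeZero, hz]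

theorem Rad.positive_true (h : Rad R) : PositiveAt C2 h.map true OnePoint.infty := by
  have h00 : h.map OnePoint.infty = C2.chart true OnePoint.infty := by
    apply Subtype.ext
    show (phi1 _ _, phi2 _ _) = (OnePoint.infty, OnePoint.infty)
    rw [h.at_infty, phi2_infty, phi1_nonneg (by norm_num)]
  refine ⟨swapM, swapM, swapM_zero, ?_, ?_⟩
  · rw [swapM_zero, h00]
  · have h1 : ∀ᶠ z : Sph in 𝓝 OnePoint.infty, 0 < R z := by
      apply h.rad.contR.continuousAt.eventually
      apply lt_mem_nhds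
      rw [h.at_infty]
      norm_num
    have hc : Tendsto (fun z : ℂ => swapM • (z : Sph)) (𝓝 0) (𝓝 OnePoint.infty) := by
      have := ((continuous_smul swapM).comp OnePoint.continuous_coe).continuousAt (x := (0 : ℂ))
      rw [ContinuousAt] at this
      simp only [Function.comp] at this
      rwa [swapM_zero] at this
    obtain ⟨ε, hε, h2⟩ := Metric.eventually_nhds_iff.1 (hc.eventually h1)
    filter_upwards [Ioo_mem_nhdsGT hε] with r hr
    have hr' : 0 < r⁻¹ := inv_pos.2 hr.1
    have hexp : ∀ t : ℝ, swapM • ((r * Complex.exp (t * Complex.I) : ℂ) : Sph) =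
        ray (Complex.exp ((-t : ℝ) * Complex.I)) r⁻¹ := by
      intro t
      rw [swapM_coe (mul_ne_zero (by exact_mod_cast hr.1.ne') (Complex.exp_ne_zero _)), ray]
      congr 1
      rw [mul_inv, ← Complex.exp_neg]
      push_cast
      ring_nf
    have hpos : ∀ t : ℝ, 0 < R (ray (Complex.exp ((-t : ℝ) * Complex.I)) r⁻¹) := by
      intro t
      rw [← hexp]
      apply h2
      rw [dist_zero_right, norm_mul, norm_exp_I, mul_one, Complex.norm_real, Real.norm_eq_abs,
        abs_of_pos hr.1]
      exact hr.2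
    have hlt : ∀ t : ℝ, R (ray (Complex.exp ((-t : ℝ) * Complex.I)) r⁻¹) < 1 := by
      intro t
      exact h.lt_one (ray_ne_infty _ _)
    have hcR : Continuous fun t : ℝ => R (ray (Complex.exp ((-t : ℝ) * Complex.I)) r⁻¹) := by
      refine h.rad.contR.comp (OnePoint.continuous_coe.comp ?_)
      fun_prop
    refine ⟨fun t => (1 - R (ray (Complex.exp ((-t : ℝ) * Complex.I)) r⁻¹)) /
      (R (ray (Complex.exp ((-t : ℝ) * Complex.I)) r⁻¹)), fun t => t, ?_, continuous_id, ?_, ?_, ?_⟩
    · refine Continuous.div (continuous_const.sub hcR) hcR ?_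
      intro t
      have := hpos t
      linarith
    · intro t
      exact div_pos (by linarith [hlt t]) (hpos t)
    · simp
    · intro t ht
      rw [hexp]
      apply Subtype.ext
      have e1 : phi1 (R (ray (Complex.exp ((-t : ℝ) * Complex.I)) r⁻¹))
          (ray (Complex.exp ((-t : ℝ) * Complex.I)) r⁻¹) = OnePoint.infty :=
        phi1_nonneg (hpos t).le
      have e2 := phi2_ray (norm_exp_I (-t)) hr' (hpos t).le
      have hp : 0 < (1 - R (ray (Complex.exp ((-t : ℝ) * Complex.I)) r⁻¹)) /
          R (ray (Complex.exp ((-t : ℝ) * Complex.I)) r⁻¹) :=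
        div_pos (by linarith [hlt t]) (hpos t)
      refine Prod.ext e1 (e2.trans ?_)
      show _ = swapM • _
      rw [swapM_coe (mul_ne_zero (by exact_mod_cast hp.ne') (Complex.exp_ne_zero _))]
      congr 1
      rw [mul_inv, ← Complex.exp_neg, ← Complex.ofReal_inv, inv_div]
      push_cast
      ring_nf

theorem Rad.isMarking (h : Rad R) {X : Set Sph} (hX : ∀ x ∈ X, R x ≠ 0) :
    IsMarking X C2 h.map where
  cont := h.continuous
  surj := h.surjective
  inj := h.injective
  curve n hn := by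
    obtain ⟨γ, h1, h2, h3⟩ := h.curve
    have h4 : h.map ⁻¹' {n} = {z | R z = 0} := by
      ext z
      rw [mem_preimage, mem_singleton_iff, mem_ofPred_eq, ← h.map_node]
      constructor
      · intro h5
        rwa [h5]
      · intro h5
        rw [C2_node] at h5 hn
        exact Subtype.ext (h5.trans hn.symm)
    refine ⟨γ, h1, h2, h3.trans h4.symm, ?_⟩
    rw [h3, disjoint_left]
    intro z hz hzX
    exact hX z hzX hz
  positive i := by
    cases i
    · refine ⟨((0 : ℂ) : Sph), ?_, h.positive_false⟩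
      rw [h.map_node, h.at_zero]
      norm_num
    · refine ⟨OnePoint.infty, ?_, h.positive_true⟩
      rw [h.map_node, h.at_infty]
      norm_num

end Pool.Agent.U594.AD
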