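import Pool.Agent.U594.AD.Data

set_option autoImplicit false

/-!
# Two members of the augmented deformation space of `z ↦ z ^ 3`
-/

open Set Topology Filter Matrix

noncomputable section

namespace Pool.Agent.U594.AD

/-- the identity is a contraction -/
theorem isContraction_id (C : NodalCurve) : IsContraction C C id := by
  refine ⟨continuous_id, Function.surjective_id, fun i => Or.inr ⟨i, 1, fun z => ?_⟩, fun j => ?_⟩
  · rw [one_smul]
    rfl
  · refine ⟨j, ⟨1, fun z => ?_⟩, ?_⟩
    · rw [one_smul]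
      rfl
    · rintro i ⟨g, hg⟩
      by_contra hij
      have h1 := C.two i j hij
      have h2 : ∀ z, C.chart i z ∈ range (C.chart i) ∩ range (C.chart j) := by
        intro z
        refine ⟨⟨z, rfl⟩, ?_⟩
        have h3 : C.chart i z = C.chart j (g • z) := hg z
        rw [h3]
        exact ⟨_, rfl⟩
      have h3 := (C.emb i).injective (h1 (h2 ((0 : ℂ) : Sph)) (h2 OnePoint.infty))
      exact OnePoint.coe_ne_infty _ h3

/-- a marking of a stable curve is its own stabilization -/
theorem isStabilization_self {X : Set Sph} (m : Marked X) : IsStabilization m.C m.φ m := by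
  refine ⟨id, fun _ => m.φ, isContraction_id m.C, ?_, fun _ _ => m.marking, fun _ => rfl,
    fun _ => rfl, fun _ _ _ => rfl⟩
  exact m.marking.cont.comp continuous_snd

/-- the identity isomorphism -/
def Iso.refl (C : NodalCurve) : Iso C C where
  toHomeo := Homeomorph.refl _
  moebius i := ⟨i, 1, fun z => by rw [one_smul]; rfl⟩

theorem set_cube_eq {v : ℂ} (hv : v ≠ 0) :
    {z : ℂ | z ^ 3 = v ^ 3} = {v * Complex.exp (2 * Real.pi * Complex.I / (3 : ℕ)) ^ 0,
      v * Complex.exp (2 * Real.pi * Complex.I / (3 : ℕ)) ^ 1,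
      v * Complex.exp (2 * Real.pi * Complex.I / (3 : ℕ)) ^ 2} := by
  have hω := Complex.isPrimitiveRoot_exp 3 (by norm_num)
  ext z
  simp only [mem_ofPred_eq, mem_insert_iff, mem_singleton_iff]
  constructor
  · intro h
    have h1 : (z / v) ^ 3 = 1 := by rw [div_pow, h, div_self (pow_ne_zero 3 hv)]
    obtain ⟨i, hi, hi2⟩ := hω.eq_pow_of_pow_eq_one h1
    have h2 : z = v * Complex.exp (2 * Real.pi * Complex.I / (3 : ℕ)) ^ i := by
      rw [hi2]
      field_simp
    interval_cases i
    · exact Or.inl h2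
    · exact Or.inr (Or.inl h2)
    · exact Or.inr (Or.inr h2)
  · have h3 : ∀ i : ℕ, (v * Complex.exp (2 * Real.pi * Complex.I / (3 : ℕ)) ^ i) ^ 3 = v ^ 3 := by
      intro i
      rw [mul_pow, ← pow_mul, mul_comm i 3, pow_mul, hω.pow_eq_one, one_pow, mul_one]
    rintro (h | h | h)
    · rw [h, h3]
    · rw [h, h3]
    · rw [h, h3]

theorem encard_cube_coe {w : ℂ} (hw : w ≠ 0) : ({z : ℂ | z ^ 3 = w}).encard = 3 := by
  obtain ⟨v, rfl⟩ := IsAlgClosed.exists_pow_nat_eq w (n := 3) (by norm_num)
  have hv : v ≠ 0 := by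
    rintro rfl
    exact hw (by norm_num)
  have hω := Complex.isPrimitiveRoot_exp 3 (by norm_num)
  rw [set_cube_eq hv, encard_eq_three]
  refine ⟨_, _, _, ?_, ?_, ?_, rfl⟩
  · intro h
    have := hω.pow_inj (by norm_num) (by norm_num) (mul_left_cancel₀ hv h)
    norm_num at this
  · intro h
    have := hω.pow_inj (by norm_num) (by norm_num) (mul_left_cancel₀ hv h)
    norm_num at this
  · intro h
    have := hω.pow_inj (by norm_num) (by norm_num) (mul_left_cancel₀ hv h)
    norm_num at this

theorem encard_cube {w : Sph} (h0 : w ≠ ((0 : ℂ) : Sph)) (h1 : w ≠ OnePoint.infty) :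
    (cube ⁻¹' {w}).encard = 3 := by
  obtain ⟨w, rfl⟩ := OnePoint.ne_infty_iff_exists.1 h1
  have hw : w ≠ 0 := by
    rintro rfl
    exact h0 rfl
  have h2 : cube ⁻¹' {(w : Sph)} = (fun z : ℂ => (z : Sph)) '' {z : ℂ | z ^ 3 = w} := by
    ext z
    rw [mem_preimage, mem_singleton_iff]
    constructor
    · intro h
      have hz : z ≠ OnePoint.infty := by
        rintro rfl
        rw [cube_infty] at h
        exact OnePoint.infty_ne_coe _ h
      obtain ⟨z, rfl⟩ := OnePoint.ne_infty_iff_exists.1 hz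
      rw [cube_coe, OnePoint.coe_eq_coe] at h
      exact ⟨z, h, rfl⟩
    · rintro ⟨z, hz, rfl⟩
      have hz : z ^ 3 = w := hz
      rw [cube_coe, hz]
  rw [h2, (OnePoint.coe_injective).encard_image, encard_cube_coe hw]

/-! ### the curve with one component -/

/-- the curve with one component -/
def C1 : NodalCurve where
  pts := Sph
  comp := Unit
  chart _ := id
  emb _ := IsEmbedding.id
  cover x := ⟨(), x, rfl⟩
  two i j hij := absurd (Subsingleton.elim i j) hij
  three i j _ hij := absurd (Subsingleton.elim i j) hij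
  tree := by
    refine ⟨⟨fun i j => ?_⟩, ?_⟩
    · rw [Subsingleton.elim i j]
    · apply SimpleGraph.IsAcyclic.of_card_le_two
      simp

theorem C1_node (x : C1.pts) : ¬ C1.IsNode x := by
  rintro ⟨i, j, hij, -⟩
  exact hij (Subsingleton.elim (α := Unit) i j)

theorem id_marking {X : Set Sph} : IsMarking X C1 (fun z => z) where
  cont := continuous_id
  surj z := ⟨z, rfl⟩
  inj _ _ h _ := h
  curve n hn := absurd hn (C1_node n)
  positive i := by
    refine ⟨((0 : ℂ) : Sph), C1_node _, 1, 1, one_smul _ _,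
      one_smul Mob (((0 : ℂ) : Sph)), ?_⟩
    filter_upwards [self_mem_nhdsWithin] with r hr
    refine ⟨fun _ => r, fun t => t, continuous_const, continuous_id, fun _ => hr, by simp, ?_⟩
    intro t ht
    rfl

theorem three_le_encard {S : Set Sph} {a b c : Sph} (hab : a ≠ b) (hac : a ≠ c) (hbc : b ≠ c)
    (ha : a ∈ S) (hb : b ∈ S) (hc : c ∈ S) : 3 ≤ S.encard := by
  have h1 : ({a, b, c} : Set Sph).encard = 3 := encard_eq_three.2 ⟨a, b, c, hab, hac, hbc, rfl⟩
  rw [← h1]
  apply encard_le_encard
  rintro x (rfl | rfl | rfl)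
  · exact ha
  · exact hb
  · exact hc

theorem zero_mem_P : ((0 : ℂ) : Sph) ∈ P := mem_P.2 (Or.inl rfl)

theorem one_mem_P : ((1 : ℂ) : Sph) ∈ P := mem_P.2 (Or.inr (Or.inl rfl))

theorem neg_one_mem_P : ((-1 : ℂ) : Sph) ∈ P := mem_P.2 (Or.inr (Or.inr (Or.inl rfl)))

theorem infty_mem_P : OnePoint.infty ∈ P := mem_P.2 (Or.inr (Or.inr (Or.inr rfl)))

theorem coe_zero_ne_one : ((0 : ℂ) : Sph) ≠ ((1 : ℂ) : Sph) := by
  rw [Ne, OnePoint.coe_eq_coe]; norm_num

theorem coe_zero_ne_neg_one : ((0 : ℂ) : Sph) ≠ ((-1 : ℂ) : Sph) := by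
  rw [Ne, OnePoint.coe_eq_coe]; norm_num

/-- the identity marking -/
def M1 : Marked P where
  C := C1
  φ z := z
  marking := id_marking
  stable i := by
    refine three_le_encard (a := ((0 : ℂ) : Sph)) (b := ((1 : ℂ) : Sph)) (c := OnePoint.infty)
      coe_zero_ne_one (OnePoint.coe_ne_infty _) (OnePoint.coe_ne_infty _) ?_ ?_ ?_
    · exact Or.inr ⟨_, zero_mem_P, rfl⟩
    · exact Or.inr ⟨_, one_mem_P, rfl⟩
    · exact Or.inr ⟨_, infty_mem_P, rfl⟩

theorem admissible_C1 : IsAdmissible C1 C1 cube where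
  cont := continuous_cube
  surj := surjective_cube
  holo i := ⟨i, cube, holomorphic_cube, surjective_cube, fun _ => rfl⟩
  node x hx := absurd hx (C1_node x)
  degree := by
    refine ⟨3, ({((0 : ℂ) : Sph), OnePoint.infty} : Set Sph),
      (finite_singleton _).insert _, fun y hy => ?_⟩
    exact encard_cube (fun h => hy (Or.inl h)) (fun h => hy (Or.inr h))
  localDegree x hx := absurd hx (C1_node x)

theorem M1_mem : (Quot.mk _ M1 : AT P) ∈ AugmentedDeformationSpace cube P P := by
  refine ⟨M1, rfl, C1, fun z => z, cube, id_marking, admissible_C1, fun _ => rfl, M1, M1,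
    isStabilization_self M1, isStabilization_self M1, rfl⟩

/-! ### the curve with two components -/

theorem mphi_zero : mphi ((0 : ℂ) : Sph) = C2.chart false ((0 : ℂ) : Sph) := by
  apply Subtype.ext
  show (phi1 _ _, phi2 _ _) = (((0 : ℂ) : Sph), ((0 : ℂ) : Sph))
  rw [Rphi_zero, phi1_zero, phi2_neg (OnePoint.coe_ne_infty _) (by norm_num)]

theorem mphi_infty : mphi OnePoint.infty = C2.chart true OnePoint.infty := by
  apply Subtype.ext
  show (phi1 _ _, phi2 _ _) = (OnePoint.infty, OnePoint.infty)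
  rw [Rphi_infty, phi2_infty, phi1_nonneg (by norm_num)]

theorem mphi_one : mphi ((1 : ℂ) : Sph) = C2.chart false ((1 : ℂ) : Sph) := by
  apply Subtype.ext
  show (phi1 _ _, phi2 _ _) = (((1 : ℂ) : Sph), ((0 : ℂ) : Sph))
  rw [Rphi_one, phi2_neg (OnePoint.coe_ne_infty _) (by norm_num), phi1, if_pos (by norm_num),
    toC_coe]
  norm_num

theorem mphi_neg_one : mphi ((-1 : ℂ) : Sph) = C2.chart true ((-1 : ℂ) : Sph) := by
  apply Subtype.ext
  show (phi1 _ _, phi2 _ _) = (OnePoint.infty, ((-1 : ℂ) : Sph))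
  rw [Rphi_neg_one, phi1_nonneg (by norm_num), phi2, OnePoint.elim_some,
    max_eq_left (by norm_num)]
  norm_num

theorem node_false : C2.IsNode (C2.chart false OnePoint.infty) := by
  rw [C2_node]; rfl

theorem node_true : C2.IsNode (C2.chart true ((0 : ℂ) : Sph)) := by
  rw [C2_node]; rfl

theorem stable_of_eq (φ : Sph → C2.pts) (h : ∀ x ∈ P, φ x = mphi x) : IsStable P C2 φ := by
  intro i
  cases i
  · refine three_le_encard (a := ((0 : ℂ) : Sph)) (b := ((1 : ℂ) : Sph)) (c := OnePoint.infty)
      coe_zero_ne_one (OnePoint.coe_ne_infty _) (OnePoint.coe_ne_infty _) ?_ ?_ ?_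
    · exact Or.inr ⟨_, zero_mem_P, (h _ zero_mem_P).trans mphi_zero⟩
    · exact Or.inr ⟨_, one_mem_P, (h _ one_mem_P).trans mphi_one⟩
    · exact Or.inl node_false
  · refine three_le_encard (a := ((0 : ℂ) : Sph)) (b := ((-1 : ℂ) : Sph)) (c := OnePoint.infty)
      coe_zero_ne_neg_one (OnePoint.coe_ne_infty _) (OnePoint.coe_ne_infty _) ?_ ?_ ?_
    · exact Or.inl node_true
    · exact Or.inr ⟨_, neg_one_mem_P, (h _ neg_one_mem_P).trans mphi_neg_one⟩
    · exact Or.inr ⟨_, infty_mem_P, (h _ infty_mem_P).trans mphi_infty⟩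

/-- the marking `φ` of the curve with two components -/
def M2 : Marked P where
  C := C2
  φ := mphi
  marking := mphi_marking
  stable := stable_of_eq _ fun _ _ => rfl

/-- the marking `ψ` of the curve with two components -/
def M2' : Marked P where
  C := C2
  φ := mpsi
  marking := mpsi_marking
  stable := stable_of_eq _ fun x hx => by
    rw [← mt_zero, ← mt_one, mt_const 1 hx]

theorem M2_equivalent : Equivalent M2' M2 := by
  refine ⟨Iso.refl C2, mt, continuous_mt, mt_marking, ?_, mt_one, ?_⟩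
  · intro z
    rw [mt_zero]
    rfl
  · intro t x hx
    exact mt_const t hx

theorem F2_continuous : Continuous F2 := by
  refine Continuous.subtype_mk ?_ _
  refine Continuous.prodMk ?_ ?_
  · exact continuous_cube.comp (continuous_fst.comp continuous_subtype_val)
  · exact continuous_cube.comp (continuous_snd.comp continuous_subtype_val)

theorem F2_chart (i : C2.comp) (z : Sph) : F2 (C2.chart i z) = C2.chart i (cube z) := by
  apply Subtype.ext
  cases i
  · show (cube z, cube ((0 : ℂ) : Sph)) = (cube z, ((0 : ℂ) : Sph))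
    rw [cube_eq_zero.2 rfl]
  · rfl

theorem F2_surjective : Function.Surjective F2 := by
  intro y
  obtain ⟨i, z, rfl⟩ := C2.cover y
  obtain ⟨w, rfl⟩ := surjective_cube z
  exact ⟨C2.chart i w, F2_chart i w⟩

theorem F2_node {x : C2.pts} : C2.IsNode (F2 x) ↔ C2.IsNode x := by
  rw [C2_node, C2_node]
  show (cube x.1.1, cube x.1.2) = _ ↔ _
  rw [Prod.ext_iff, Prod.ext_iff]
  show cube x.1.1 = _ ∧ cube x.1.2 = _ ↔ _
  rw [cube_eq_infty, cube_eq_zero]

/-- the exceptional values -/
def exc2 : Set C2.pts :=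
  {C2.chart false ((0 : ℂ) : Sph), C2.chart true OnePoint.infty}

theorem F2_encard {y : C2.pts} (h1 : y ∉ exc2) (h2 : ¬ C2.IsNode y) :
    (F2 ⁻¹' {y}).encard = 3 := by
  obtain ⟨i, z, rfl⟩ := C2.cover y
  have hz : z ≠ ((0 : ℂ) : Sph) ∧ z ≠ OnePoint.infty := by
    constructor
    · rintro rfl
      cases i
      · exact h1 (Or.inl rfl)
      · exact h2 node_true
    · rintro rfl
      cases i
      · exact h2 node_false
      · exact h1 (Or.inr rfl)
  have h3 : F2 ⁻¹' {C2.chart i z} = C2.chart i '' (cube ⁻¹' {z}) := by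
    ext x
    rw [mem_preimage, mem_singleton_iff]
    constructor
    · intro h
      obtain ⟨j, w, rfl⟩ := C2.cover x
      by_cases hij : i = j
      · subst hij
        rw [F2_chart] at h
        exact ⟨w, (C2.emb i).injective h, rfl⟩
      · exfalso
        apply h2
        rw [← h]
        refine ⟨i, j, hij, ?_, ?_⟩
        · rw [h]; exact ⟨z, rfl⟩
        · rw [F2_chart]; exact ⟨_, rfl⟩
    · rintro ⟨w, hw, rfl⟩
      have hw : cube w = z := hw
      rw [F2_chart, hw]
  rw [h3, (C2.emb i).injective.encard_image, encard_cube hz.1 hz.2]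

theorem exc2_finite : exc2.Finite := (finite_singleton _).insert _

instance : CompactSpace C2.pts := by
  constructor
  have h : (univ : Set C2.pts) = range (C2.chart false) ∪ range (C2.chart true) := by
    rw [eq_comm, eq_univ_iff_forall]
    intro x
    obtain ⟨i, z, rfl⟩ := C2.cover x
    cases i
    · exact Or.inl ⟨z, rfl⟩
    · exact Or.inr ⟨z, rfl⟩
  rw [h]
  exact (isCompact_range (C2.emb false).continuous).union
    (isCompact_range (C2.emb true).continuous)

theorem admissible_C2 : IsAdmissible C2 C2 F2 where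
  cont := F2_continuous
  surj := F2_surjective
  holo i := ⟨i, cube, holomorphic_cube, surjective_cube, fun z => F2_chart i z⟩
  node x hx := F2_node.2 hx
  degree := by
    refine ⟨3, insert (C2nd : C2.pts) exc2, exc2_finite.insert _, fun y hy => ?_⟩
    refine F2_encard (fun h => hy (Or.inr h)) fun h => hy (Or.inl ?_)
    rw [C2_node] at h
    exact Subtype.ext h
  localDegree x hx := by
    refine ⟨3, fun U hU => ⟨U, hU, subset_rfl, ?_⟩⟩
    have hx' : C2.IsNode (F2 x) := F2_node.2 hx
    have h1 : ∀ᶠ y in 𝓝 (F2 x), F2 ⁻¹' {y} ⊆ U := by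
      have hcl : IsClosed (F2 '' (interior U)ᶜ) :=
        F2_continuous.isClosedMap _ isOpen_interior.isClosed_compl
      have h2 : F2 x ∉ F2 '' (interior U)ᶜ := by
        rintro ⟨y, hy, hyx⟩
        apply hy
        have h3 : C2.IsNode y := by
          rw [← F2_node, hyx]
          exact hx'
        have h4 : y = x := by
          rw [C2_node] at h3 hx
          exact Subtype.ext (h3.trans hx.symm)
        rw [h4]
        exact mem_interior_iff_mem_nhds.2 hU
      filter_upwards [hcl.isOpen_compl.mem_nhds h2] with y hy z hz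
      by_contra h3
      apply hy
      refine ⟨z, fun h4 => h3 (interior_subset h4), hz⟩
    have h2 : ∀ᶠ y in 𝓝 (F2 x), y ∉ exc2 := by
      apply exc2_finite.isClosed.isOpen_compl.mem_nhds
      rw [C2_node] at hx'
      rintro (h | h)
      · rw [h] at hx'
        have := congrArg Prod.fst hx'
        exact OnePoint.coe_ne_infty _ this
      · rw [mem_singleton_iff] at h
        rw [h] at hx'
        have := congrArg Prod.snd hx'
        exact OnePoint.infty_ne_coe _ this
    have h3 : ∀ᶠ y in 𝓝[≠] (F2 x), F2 ⁻¹' {y} ⊆ U ∧ y ∉ exc2 :=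
      nhdsWithin_le_nhds (h1.and h2)
    filter_upwards [h3, self_mem_nhdsWithin] with y hy hne
    rw [inter_eq_left.2 hy.1]
    refine F2_encard hy.2 fun h => hne ?_
    rw [C2_node] at h hx'
    exact Subtype.ext (h.trans hx'.symm)

theorem M2_mem : (Quot.mk _ M2 : AT P) ∈ AugmentedDeformationSpace cube P P := by
  refine ⟨M2, rfl, C2, mpsi, F2, mpsi_marking, admissible_C2, F2_comm, M2', M2,
    isStabilization_self M2', isStabilization_self M2, Quot.sound M2_equivalent⟩

end Pool.Agent.U594.AD
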