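import Pool.Agent.U594.AD.Harm

set_option autoImplicit false

/-!
# Two open sets of the augmented Teichmueller space
-/

open Set Topology Filter Matrix

noncomputable section

namespace Pool.Agent.U594.AD

/-- no nodes -/
def NoNode {X : Set Sph} (m : Marked X) : Prop := ∀ x, ¬ m.C.IsNode x

theorem NoNode.of_sim {X : Set Sph} {m m' : Marked X} (h : Sim m m') (hm : NoNode m) :
    NoNode m' := by
  obtain ⟨α, -⟩ := h.symm
  intro x hx
  exact hm _ (α.node hx)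

/-- the classes of curves without nodes -/
def TT (X : Set Sph) : Set (AT X) := {a | ∃ m : Marked X, Quot.mk _ m = a ∧ NoNode m}

theorem mem_TT {X : Set Sph} {m : Marked X} : (Quot.mk _ m : AT X) ∈ TT X ↔ NoNode m := by
  constructor
  · rintro ⟨m', h1, h2⟩
    exact h2.of_sim (sim_of_eq h1)
  · intro h
    exact ⟨m, rfl, h⟩

theorem isOpen_TT (X : Set Sph) : IsOpen (TT X) := by
  intro m hm
  rw [mem_TT] at hm
  obtain ⟨i, z0, -⟩ := m.C.cover (m.φ ((0 : ℂ) : Sph))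
  have hsub : ∀ j, j = i := fun j => subsingleton_of_no_node hm j i
  let c : Condition m :=
    { K := univ
      i := i
      U := univ
      compact := isCompact_univ
      isOpen := isOpen_univ
      maps := fun x _ => by
        refine ⟨hm _, ?_⟩
        obtain ⟨j, z, hz⟩ := m.C.cover (m.φ x)
        rw [hsub j] at hz
        exact ⟨z, mem_univ _, hz.symm⟩ }
  refine ⟨[c], ?_⟩
  rintro a ⟨m', ha, h⟩
  refine ⟨m', ha, ?_⟩
  intro x hx
  obtain ⟨y, rfl⟩ := m'.marking.surj x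
  obtain ⟨j, g, hjg⟩ := h i
  exact (hjg c (List.mem_singleton.2 rfl) rfl y (mem_univ y)).1 hx

/-- the four marked points are on one component and they are a harmonic quadruple -/
def Harm (m : Marked P) : Prop := ∃ (i : m.C.comp) (l : Sph → Sph),
  (∀ x ∈ P, m.φ x = m.C.chart i (l x)) ∧
    HR (l ((0 : ℂ) : Sph)) (l OnePoint.infty) (l ((1 : ℂ) : Sph)) (l ((-1 : ℂ) : Sph))

theorem Harm.of_sim {m m' : Marked P} (h : Sim m m') (hm : Harm m) : Harm m' := by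
  obtain ⟨α, h⟩ := h
  obtain ⟨i, l, h1, h2⟩ := hm
  obtain ⟨j, g, hg⟩ := α.moebius i
  refine ⟨j, fun x => g • l x, fun x hx => ?_, (HR_smul g _ _ _ _).2 h2⟩
  rw [h x hx, h1 x hx, hg]

/-- the classes of curves which are not harmonic -/
def VV : Set (AT P) := {a | ∃ m : Marked P, Quot.mk _ m = a ∧ ¬ Harm m}

theorem mem_VV {m : Marked P} : (Quot.mk _ m : AT P) ∈ VV ↔ ¬ Harm m := by
  constructor
  · rintro ⟨m', h1, h2⟩ h3
    exact h2 (h3.of_sim (sim_of_eq h1).symm)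
  · intro h
    exact ⟨m, rfl, h⟩

/-- marked points and nodes -/
theorem not_all_on_one {m : Marked P} {i j : m.C.comp} (hij : i ≠ j) (k : m.C.comp)
    (h : ∀ x ∈ P, m.φ x ∈ range (m.C.chart k)) : False := by
  obtain ⟨i, i', n, a, b, p, q, r, s, hne, hp, hq, hr, hs, hpq, hrs, hpa, hqb, hra, hsb, -, -⟩ :=
    two_leaves m hij
  have h1 : i = k := comp_unique m hp ⟨a, hpa.symm⟩ (h p hp)
  have h2 : i' = k := comp_unique m hr hra (h r hr)
  exact hne (h1.trans h2.symm)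

theorem Harm.noNode {m : Marked P} (h : Harm m) : NoNode m := by
  rintro x ⟨i, j, hij, -⟩
  obtain ⟨k, l, hl, -⟩ := h
  exact not_all_on_one hij k fun x hx => ⟨l x, (hl x hx).symm⟩

/-- a condition at a marked point -/
def ptCond (m : Marked P) (x : Sph) (hx : x ∈ P) (i : m.C.comp) (U : Set Sph) (hU : IsOpen U)
    (u : Sph) (hu : u ∈ U) (hxu : m.φ x = m.C.chart i u) : Condition m where
  K := {x}
  i := i
  U := U
  compact := isCompact_singleton
  isOpen := hU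
  maps y hy := by
    rw [mem_singleton_iff] at hy
    subst hy
    exact ⟨m.marking.not_node hx, u, hu, hxu⟩

/-- case of four points on one component -/
theorem open_one {m : Marked P} (hm : ¬ Harm m) (i : m.C.comp) (l : Sph → Sph)
    (hl : ∀ x ∈ P, m.φ x = m.C.chart i (l x)) : ∃ L : List (Condition m), nhd m L ⊆ VV := by
  have h : ¬ HR (l ((0 : ℂ) : Sph)) (l OnePoint.infty) (l ((1 : ℂ) : Sph))
      (l ((-1 : ℂ) : Sph)) := fun h => hm ⟨i, l, hl, h⟩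
  obtain ⟨U0, U1, U2, U3, o0, o1, o2, o3, h0, h1, h2, h3, hU⟩ := HR_closed h
  let c0 := ptCond m _ zero_mem_P i U0 o0 _ h0 (hl _ zero_mem_P)
  let c1 := ptCond m _ infty_mem_P i U1 o1 _ h1 (hl _ infty_mem_P)
  let c2 := ptCond m _ one_mem_P i U2 o2 _ h2 (hl _ one_mem_P)
  let c3 := ptCond m _ neg_one_mem_P i U3 o3 _ h3 (hl _ neg_one_mem_P)
  refine ⟨[c0, c1, c2, c3], ?_⟩
  rintro a ⟨m', ha, hc⟩
  refine ⟨m', ha, ?_⟩
  rintro ⟨j', l', hl', hHR⟩
  obtain ⟨j, g, hjg⟩ := hc i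
  obtain ⟨-, u0, hu0, e0⟩ := hjg c0 (by simp) rfl _ (mem_singleton _)
  obtain ⟨-, u1, hu1, e1⟩ := hjg c1 (by simp) rfl _ (mem_singleton _)
  obtain ⟨-, u2, hu2, e2⟩ := hjg c2 (by simp) rfl _ (mem_singleton _)
  obtain ⟨-, u3, hu3, e3⟩ := hjg c3 (by simp) rfl _ (mem_singleton _)
  have hj : j = j' := comp_unique m' zero_mem_P ⟨_, e0.symm⟩ ⟨_, (hl' _ zero_mem_P).symm⟩
  subst hj
  have f0 := (m'.C.emb j).injective (e0.symm.trans (hl' _ zero_mem_P))
  have f1 := (m'.C.emb j).injective (e1.symm.trans (hl' _ infty_mem_P))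
  have f2 := (m'.C.emb j).injective (e2.symm.trans (hl' _ one_mem_P))
  have f3 := (m'.C.emb j).injective (e3.symm.trans (hl' _ neg_one_mem_P))
  rw [← f0, ← f1, ← f2, ← f3, HR_smul] at hHR
  exact hU u0 hu0 u1 hu1 u2 hu2 u3 hu3 hHR

/-! ### discs -/

/-- closed disc -/
def cD (R : ℝ) : Set Sph := (fun w : ℂ => (w : Sph)) '' Metric.closedBall 0 R

/-- open disc -/
def oD (a : ℂ) (R : ℝ) : Set Sph := (fun w : ℂ => (w : Sph)) '' Metric.ball a R

theorem isClosed_cD (R : ℝ) : IsClosed (cD R) :=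
  ((isCompact_closedBall (0 : ℂ) R).image OnePoint.continuous_coe).isClosed

theorem isOpen_oD (a : ℂ) (R : ℝ) : IsOpen (oD a R) :=
  OnePoint.isOpenEmbedding_coe.isOpenMap _ Metric.isOpen_ball

theorem isPreconnected_cD (R : ℝ) : IsPreconnected (cD R) :=
  (convex_closedBall (0 : ℂ) R).isPreconnected.image _ OnePoint.continuous_coe.continuousOn

theorem not_mem_cD {z : Sph} {M : ℝ} (hM : 0 < M) (h : z ∉ cD M) : ‖lb z‖ * M ≤ ‖la z‖ := by
  induction z using OnePoint.rec with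
  | infty => rw [lb_infty, la_infty]; simp
  | coe w =>
    rw [lb_coe, la_coe, norm_one, one_mul]
    by_contra hcon
    apply h
    exact ⟨w, mem_closedBall_zero_iff.2 (not_le.1 hcon).le, rfl⟩

theorem final_ineq {M : ℝ} (hM : 1 ≤ M) {zp zq zr zs : Sph} {wp wq : ℂ} (hp : zp = wp)
    (hq : zq = wq) (hwp : ‖wp‖ ≤ M) (hwq : ‖wq‖ ≤ M) (hr : zr ∉ cD (16 * M))
    (hs : zs ∉ cD (16 * M)) (h : ‖br zp zs‖ * ‖br zq zr‖ ≤ 2 * (‖br zp zq‖ * ‖br zr zs‖)) :
    False := by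
  have hr' := not_mem_cD (by linarith) hr
  have hs' := not_mem_cD (by linarith) hs
  have r1 := norm_nonneg (la zr)
  have s1 := norm_nonneg (la zs)
  have r2 := norm_nonneg (lb zr)
  have s2 := norm_nonneg (lb zs)
  have hMM : (0 : ℝ) < M := by linarith
  have rpos : 0 < ‖la zr‖ := by
    rcases nz_l zr with h1 | h1
    · exact norm_pos_iff.2 h1
    · have : 0 < ‖lb zr‖ * (16 * M) := mul_pos (norm_pos_iff.2 h1) (by linarith)
      linarith
  have spos : 0 < ‖la zs‖ := by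
    rcases nz_l zs with h1 | h1
    · exact norm_pos_iff.2 h1
    · have : 0 < ‖lb zs‖ * (16 * M) := mul_pos (norm_pos_iff.2 h1) (by linarith)
      linarith
  have e1 : ‖br zp zq‖ ≤ 2 * M := by
    rw [hp, hq, br, la_coe, lb_coe, la_coe, lb_coe, mul_one, one_mul]
    calc ‖wp - wq‖ ≤ ‖wp‖ + ‖wq‖ := norm_sub_le _ _
      _ ≤ 2 * M := by linarith
  have e2 : ‖br zr zs‖ * (16 * M) ≤ 2 * (‖la zr‖ * ‖la zs‖) := by
    have : ‖br zr zs‖ ≤ ‖la zr‖ * ‖lb zs‖ + ‖lb zr‖ * ‖la zs‖ := by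
      rw [br, ← norm_mul, ← norm_mul]
      exact norm_sub_le _ _
    calc ‖br zr zs‖ * (16 * M) ≤ (‖la zr‖ * ‖lb zs‖ + ‖lb zr‖ * ‖la zs‖) * (16 * M) := by gcongr
      _ = ‖la zr‖ * (‖lb zs‖ * (16 * M)) + (‖lb zr‖ * (16 * M)) * ‖la zs‖ := by ring
      _ ≤ ‖la zr‖ * ‖la zs‖ + ‖la zr‖ * ‖la zs‖ := by gcongr
      _ = _ := by ring
  have e3 : 15 / 16 * ‖la zs‖ ≤ ‖br zp zs‖ := by
    have h1 : ‖wp * lb zs‖ ≤ ‖la zs‖ / 16 := by
      rw [norm_mul]
      have : ‖wp‖ * ‖lb zs‖ ≤ M * ‖lb zs‖ := by gcongr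
      linarith
    have h2 : ‖la zs‖ ≤ ‖wp * lb zs‖ + ‖br zp zs‖ := by
      have h3 : la zs = wp * lb zs - br zp zs := by
        rw [hp, br, la_coe, lb_coe]
        ring
      calc ‖la zs‖ = ‖wp * lb zs - br zp zs‖ := by rw [← h3]
        _ ≤ _ := norm_sub_le _ _
    linarith
  have e4 : 15 / 16 * ‖la zr‖ ≤ ‖br zq zr‖ := by
    have h1 : ‖wq * lb zr‖ ≤ ‖la zr‖ / 16 := by
      rw [norm_mul]
      have : ‖wq‖ * ‖lb zr‖ ≤ M * ‖lb zr‖ := by gcongr
      linarith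
    have h2 : ‖la zr‖ ≤ ‖wq * lb zr‖ + ‖br zq zr‖ := by
      have h3 : la zr = wq * lb zr - br zq zr := by
        rw [hq, br, la_coe, lb_coe]
        ring
      calc ‖la zr‖ = ‖wq * lb zr - br zq zr‖ := by rw [← h3]
        _ ≤ _ := norm_sub_le _ _
    linarith
  have e5 : (15 / 16 * ‖la zs‖) * (15 / 16 * ‖la zr‖) ≤ ‖br zp zs‖ * ‖br zq zr‖ := by gcongr
  have e6 : ‖br zp zq‖ * ‖br zr zs‖ ≤ 2 * M * ‖br zr zs‖ := by gcongr
  have e7 : 0 < ‖la zs‖ * ‖la zr‖ := mul_pos spos rpos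
  nlinarith

end Pool.Agent.U594.AD
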