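import Pool.Agent.U594.AD.Open

set_option autoImplicit false

/-!
# Openness at nodal curves
-/

open Set Topology Filter Matrix

noncomputable section

namespace Pool.Agent.U594.AD

/-- a Moebius transformation that maps a given point to infinity -/
theorem exists_to_infty (n : Sph) : ∃ k : Mob, k • n = OnePoint.infty := by
  induction n using OnePoint.rec with
  | infty => exact ⟨1, one_smul _ _⟩
  | coe w =>
    refine ⟨Matrix.GeneralLinearGroup.mkOfDetNeZero !![0, 1; 1, -w] (by simp), ?_⟩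
    rw [← hom_one, smul_hom _ (Or.inr one_ne_zero)]
    simp [hom, Matrix.GeneralLinearGroup.mkOfDetNeZero]

/-- circle -/
def sC (R : ℝ) : Set Sph := (fun w : ℂ => (w : Sph)) '' Metric.sphere 0 R

theorem isClosed_sC (R : ℝ) : IsClosed (sC R) :=
  ((isCompact_sphere (0 : ℂ) R).image OnePoint.continuous_coe).isClosed

variable {C : NodalCurve}

/-- the image of an open disc which contains no node is open -/
theorem isOpen_disc (C : NodalCurve) (i : C.comp) (n : Sph) (k : Mob) (hk : k • n = OnePoint.infty)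
    (honly : ∀ z j, j ≠ i → C.chart i z ∈ range (C.chart j) → z = n) (R : ℝ) :
    IsOpen (C.chart i '' {u | k • u ∈ oD 0 R}) := by
  have h1 : (C.chart i '' {u | k • u ∈ oD 0 R})ᶜ =
      C.chart i '' {u | k • u ∉ oD 0 R} ∪ ⋃ j : {j // j ≠ i}, range (C.chart j.1) := by
    ext x
    rw [mem_compl_iff, mem_union, mem_iUnion]
    constructor
    · intro hx
      obtain ⟨j, z, rfl⟩ := C.cover x
      by_cases hj : j = i
      · subst hj
        left
        refine ⟨z, fun hz => hx ⟨z, hz, rfl⟩, rfl⟩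
      · right
        exact ⟨⟨j, hj⟩, z, rfl⟩
    · rintro h ⟨u, hu, rfl⟩
      have hu : k • u ∈ oD 0 R := hu
      rcases h with ⟨v, hv, hvu⟩ | ⟨⟨j, hj⟩, hjx⟩
      · rw [(C.emb i).injective hvu] at hv
        exact hv hu
      · have h2 := honly u j hj hjx
        rw [h2, hk] at hu
        obtain ⟨w, -, hw⟩ := hu
        exact OnePoint.coe_ne_infty _ hw
  rw [← isClosed_compl_iff, h1]
  refine IsClosed.union ?_ ?_
  · have h2 : IsClosed {u | k • u ∉ oD 0 R} :=
      (isOpen_oD 0 R).isClosed_compl.preimage (continuous_smul k)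
    exact (h2.isCompact.image (C.emb i).continuous).isClosed
  · exact isClosed_iUnion_of_finite fun j => (isCompact_range (C.emb j.1).continuous).isClosed

theorem isClosed_disc (C : NodalCurve) (i : C.comp) (k : Mob) (R : ℝ) :
    IsClosed (C.chart i '' {u | k • u ∈ cD R}) := by
  have h2 : IsClosed {u | k • u ∈ cD R} := (isClosed_cD R).preimage (continuous_smul k)
  exact (h2.isCompact.image (C.emb i).continuous).isClosed

theorem isClosed_circ (C : NodalCurve) (i : C.comp) (k : Mob) (R : ℝ) :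
    IsClosed (C.chart i '' {u | k • u ∈ sC R}) := by
  have h2 : IsClosed {u | k • u ∈ sC R} := (isClosed_sC R).preimage (continuous_smul k)
  exact (h2.isCompact.image (C.emb i).continuous).isClosed

/-- case of a nodal curve -/
theorem open_two {m : Marked P} {i0 j0 : m.C.comp} (h0 : i0 ≠ j0) :
    ∃ L : List (Condition m), nhd m L ⊆ VV := by
  obtain ⟨i, i', n, a, b, p, q, r, s, hne, hp, hq, hr, hs, hpq, hrs, hpa, hqb, hr', hs', hnode,
    honly⟩ := two_leaves m h0
  obtain ⟨k, hk⟩ := exists_to_infty n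
  have hfin : ∀ u x, x ∈ P → m.φ x = m.C.chart i u → k • u ≠ OnePoint.infty := by
    intro u x hx hxu h1
    rw [← hk] at h1
    have h2 := (MulAction.injective k) h1
    rw [h2] at hxu
    exact m.marking.not_node hx (by rw [hxu]; exact hnode)
  obtain ⟨a', ha'⟩ := OnePoint.ne_infty_iff_exists.1 (hfin a p hp hpa)
  obtain ⟨b', hb'⟩ := OnePoint.ne_infty_iff_exists.1 (hfin b q hq hqb)
  set M : ℝ := max ‖a'‖ ‖b'‖ + 1 with hM
  have hM1 : 1 ≤ M := by
    have := (norm_nonneg a').trans (le_max_left ‖a'‖ ‖b'‖)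
    linarith
  have haM : ‖a'‖ + 1 ≤ M := by
    have := le_max_left ‖a'‖ ‖b'‖
    linarith
  have hbM : ‖b'‖ + 1 ≤ M := by
    have := le_max_right ‖a'‖ ‖b'‖
    linarith
  have hoa : IsOpen {u : Sph | k • u ∈ oD a' 1} := (isOpen_oD a' 1).preimage (continuous_smul k)
  have hob : IsOpen {u : Sph | k • u ∈ oD b' 1} := (isOpen_oD b' 1).preimage (continuous_smul k)
  have hma : a ∈ {u : Sph | k • u ∈ oD a' 1} :=
    ⟨a', Metric.mem_ball_self one_pos, ha'⟩
  have hmb : b ∈ {u : Sph | k • u ∈ oD b' 1} :=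
    ⟨b', Metric.mem_ball_self one_pos, hb'⟩
  let ca := ptCond m p hp i _ hoa a hma hpa
  let cb := ptCond m q hq i _ hob b hmb hqb
  let cs : Condition m :=
    { K := m.φ ⁻¹' (m.C.chart i '' {u | k • u ∈ sC (16 * M + 1)})
      i := i
      U := {u | k • u ∉ cD (16 * M)}
      compact := ((isClosed_circ m.C i k (16 * M + 1)).preimage m.marking.cont).isCompact
      isOpen := (isClosed_cD (16 * M)).isOpen_compl.preimage (continuous_smul k)
      maps := by
        rintro x ⟨u, hu, hux⟩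
        have hu : k • u ∈ sC (16 * M + 1) := hu
        obtain ⟨w, hw, hwu⟩ := hu
        rw [mem_sphere_zero_iff_norm] at hw
        refine ⟨?_, u, ?_, hux.symm⟩
        · rw [← hux]
          rintro ⟨c, d, hcd, hc, hd⟩
          have hun : u = n := by
            by_cases hci : c = i
            · subst hci
              exact honly u d (Ne.symm hcd) hd
            · exact honly u c hci hc
          rw [hun, hk] at hwu
          exact OnePoint.coe_ne_infty _ hwu
        · rintro ⟨w', hw', hwu'⟩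
          have h1 : w' = w := OnePoint.coe_injective (hwu'.trans hwu.symm)
          rw [h1, mem_closedBall_zero_iff, hw] at hw'
          linarith }
  refine ⟨[ca, cb, cs], ?_⟩
  rintro α ⟨m', hα, hc⟩
  refine ⟨m', hα, ?_⟩
  intro hH
  have hnn := hH.noNode
  obtain ⟨j', l, hl, hHR⟩ := hH
  obtain ⟨j, g, hjg⟩ := hc i
  have hjj : j' = j := subsingleton_of_no_node hnn j' j
  subst hjj
  obtain ⟨-, up, hup, eup⟩ := hjg ca (by simp) rfl _ (mem_singleton _)
  obtain ⟨-, uq, huq, euq⟩ := hjg cb (by simp) rfl _ (mem_singleton _)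
  have hS := hjg cs (by simp) rfl
  -- coordinates
  have lp : l p = g • up := (m'.C.emb j').injective ((hl p hp).symm.trans eup)
  have lq : l q = g • uq := (m'.C.emb j').injective ((hl q hq).symm.trans euq)
  let W : Sph → Sph := fun x => k • g⁻¹ • l x
  have Wp : W p = k • up := by
    show k • g⁻¹ • l p = _
    rw [lp, inv_smul_smul]
  have Wq : W q = k • uq := by
    show k • g⁻¹ • l q = _
    rw [lq, inv_smul_smul]
  obtain ⟨wp, hwp, hwp2⟩ : k • up ∈ oD a' 1 := hup
  obtain ⟨wq, hwq, hwq2⟩ : k • uq ∈ oD b' 1 := huq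
  have nwp : ‖wp‖ ≤ M := by
    rw [Metric.mem_ball, dist_eq_norm] at hwp
    calc ‖wp‖ = ‖a' + (wp - a')‖ := by congr 1; ring
      _ ≤ ‖a'‖ + ‖wp - a'‖ := norm_add_le _ _
      _ ≤ M := by linarith
  have nwq : ‖wq‖ ≤ M := by
    rw [Metric.mem_ball, dist_eq_norm] at hwq
    calc ‖wq‖ = ‖b' + (wq - b')‖ := by congr 1; ring
      _ ≤ ‖b'‖ + ‖wq - b'‖ := norm_add_le _ _
      _ ≤ M := by linarith
  -- the marking of `m'` is a homeomorphism
  have hbij : Function.Bijective m'.φ := ⟨fun x y hxy => m'.marking.inj x y hxy (hnn _),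
    m'.marking.surj⟩
  let E := (Equiv.ofBijective m'.φ hbij)
  have hE : Continuous E := m'.marking.cont
  let E' := hE.homeoOfEquivCompactToT2
  let V : Sph → Sph := fun d => E'.symm (m'.C.chart j' (g • k⁻¹ • d))
  have hVc : Continuous V := E'.symm.continuous.comp ((m'.C.emb j').continuous.comp
    ((continuous_smul g).comp (continuous_smul k⁻¹)))
  have hV : ∀ d, m'.φ (V d) = m'.C.chart j' (g • k⁻¹ • d) := fun d => E'.apply_symm_apply _
  have hV2 : ∀ x ∈ P, V (W x) = x := by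
    intro x hx
    apply hbij.1
    rw [hV]
    show m'.C.chart j' (g • k⁻¹ • k • g⁻¹ • l x) = _
    rw [inv_smul_smul, smul_inv_smul, hl x hx]
  let N : Set Sph := V '' cD (16 * M)
  have hNpre : IsPreconnected (m.φ '' N) :=
    ((isPreconnected_cD _).image V hVc.continuousOn).image m.φ m.marking.cont.continuousOn
  -- the points of `N` are not mapped to the circle
  have hNS : ∀ x ∈ N, m.φ x ∉ m.C.chart i '' {u | k • u ∈ sC (16 * M + 1)} := by
    rintro _ ⟨d, hd, rfl⟩ hx
    obtain ⟨-, u, hu, eu⟩ := hS _ hx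
    have hu : k • u ∉ cD (16 * M) := hu
    rw [hV] at eu
    have h1 := MulAction.injective g ((m'.C.emb j').injective eu)
    rw [← h1, smul_inv_smul] at hu
    exact hu hd
  have hsub : m.φ '' N ⊆ m.C.chart i '' {u | k • u ∈ oD 0 (16 * M + 1)} ∪
      (m.C.chart i '' {u | k • u ∈ cD (16 * M + 1)})ᶜ := by
    rintro _ ⟨x, hx, rfl⟩
    by_cases h1 : m.φ x ∈ m.C.chart i '' {u | k • u ∈ cD (16 * M + 1)}
    · left
      obtain ⟨u, ⟨w, hw, hwu⟩, hux⟩ := h1
      rw [mem_closedBall_zero_iff] at hw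
      refine ⟨u, ⟨w, ?_, hwu⟩, hux⟩
      rw [mem_ball_zero_iff]
      refine lt_of_le_of_ne hw fun h2 => hNS x hx ⟨u, ⟨w, ?_, hwu⟩, hux⟩
      rw [mem_sphere_zero_iff_norm]
      exact h2
    · exact Or.inr h1
  have hdisj : ∀ y, y ∈ m.C.chart i '' {u | k • u ∈ oD 0 (16 * M + 1)} →
      y ∈ (m.C.chart i '' {u | k • u ∈ cD (16 * M + 1)})ᶜ → False := by
    rintro _ ⟨u, ⟨w, hw, hwu⟩, rfl⟩ h2
    apply h2
    refine ⟨u, ⟨w, ?_, hwu⟩, rfl⟩
    exact Metric.ball_subset_closedBall hw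
  -- the other marked points are far away
  have far : ∀ x ∈ P, m.φ x ∈ range (m.C.chart i') → W x ∉ cD (16 * M) := by
    intro x hx hx' hcD
    have hpN : m.φ p ∈ m.φ '' N := by
      refine ⟨p, ⟨W p, ?_, hV2 p hp⟩, rfl⟩
      rw [Wp, ← hwp2]
      refine ⟨wp, ?_, rfl⟩
      rw [mem_closedBall_zero_iff]
      linarith
    have hxN : m.φ x ∈ m.φ '' N := ⟨x, ⟨W x, hcD, hV2 x hx⟩, rfl⟩
    have hpO : m.φ p ∈ m.C.chart i '' {u | k • u ∈ oD 0 (16 * M + 1)} := by
      refine ⟨a, ⟨a', ?_, ha'⟩, hpa.symm⟩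
      rw [mem_ball_zero_iff]
      linarith
    have hxO : m.φ x ∈ (m.C.chart i '' {u | k • u ∈ cD (16 * M + 1)})ᶜ := by
      rintro ⟨u, -, hu⟩
      exact hne (comp_unique m hx ⟨u, hu⟩ hx')
    obtain ⟨y, -, hy1, hy2⟩ := hNpre _ _ (isOpen_disc m.C i n k hk honly _)
      (isClosed_disc m.C i k _).isOpen_compl hsub ⟨_, hpN, hpO⟩ ⟨_, hxN, hxO⟩
    exact hdisj y hy1 hy2
  have hHR' : HR (W ((0 : ℂ) : Sph)) (W OnePoint.infty) (W ((1 : ℂ) : Sph))
      (W ((-1 : ℂ) : Sph)) := by
    show HR (k • g⁻¹ • l _) (k • g⁻¹ • l _) (k • g⁻¹ • l _) (k • g⁻¹ • l _)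
    rw [HR_smul, HR_smul]
    exact hHR
  have hdiff : ∀ x y, m.φ x ∈ range (m.C.chart i) → m.φ y ∈ range (m.C.chart i') → x ∈ P →
      x ≠ y := by
    rintro x y hx hy hxP rfl
    exact hne (comp_unique m hxP hx hy)
  have key := HR_ineq hHR' hp hq hr hs hpq (hdiff p r ⟨a, hpa.symm⟩ hr' hp)
    (hdiff p s ⟨a, hpa.symm⟩ hs' hp) (hdiff q r ⟨b, hqb.symm⟩ hr' hq)
    (hdiff q s ⟨b, hqb.symm⟩ hs' hq) hrs
  exact final_ineq hM1 (Wp.trans hwp2.symm) (Wq.trans hwq2.symm) nwp nwq (far r hr hr')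
    (far s hs hs') key

theorem isOpen_VV : IsOpen VV := by
  intro m hm
  rw [mem_VV] at hm
  by_cases h : ∃ i0 j0 : m.C.comp, i0 ≠ j0
  · obtain ⟨i0, j0, h0⟩ := h
    exact open_two h0
  · push Not at h
    obtain ⟨i, -, -⟩ := m.C.cover (m.φ ((0 : ℂ) : Sph))
    have h1 : ∀ x, ∃ u, m.C.chart i u = m.φ x := by
      intro x
      obtain ⟨j, z, hz⟩ := m.C.cover (m.φ x)
      rw [h j i] at hz
      exact ⟨z, hz⟩
    choose l hl using h1
    exact open_one hm i l fun x _ => (hl x).symm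

end Pool.Agent.U594.AD
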