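import Pool.Agent.U594.AD.Sph

set_option autoImplicit false

/-!
# Radial markings of a curve with two components
-/

open Set Topology Filter Matrix

noncomputable section

namespace Pool.Agent.U594.AD

/-- two spheres with the point `∞` of the first glued to the point `0` of the second -/
def C2pts : Type := {p : Sph × Sph // p.1 = OnePoint.infty ∨ p.2 = ((0 : ℂ) : Sph)}

instance : TopologicalSpace C2pts :=
  inferInstanceAs (TopologicalSpace
    {p : Sph × Sph // p.1 = OnePoint.infty ∨ p.2 = ((0 : ℂ) : Sph)})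

instance : T2Space C2pts :=
  inferInstanceAs (T2Space {p : Sph × Sph // p.1 = OnePoint.infty ∨ p.2 = ((0 : ℂ) : Sph)})

/-- the node -/
def C2nd : C2pts := ⟨(OnePoint.infty, ((0 : ℂ) : Sph)), Or.inl rfl⟩

def C2chart (b : Bool) (z : Sph) : C2pts :=
  match b with
  | false => ⟨(z, ((0 : ℂ) : Sph)), Or.inr rfl⟩
  | true => ⟨(OnePoint.infty, z), Or.inl rfl⟩

theorem C2_mem_false (x : C2pts) : x ∈ range (C2chart false) ↔ x.1.2 = ((0 : ℂ) : Sph) := by
  constructor
  · rintro ⟨z, rfl⟩; rfl
  · intro h
    refine ⟨x.1.1, Subtype.ext (Prod.ext rfl h.symm)⟩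

theorem C2_mem_true (x : C2pts) : x ∈ range (C2chart true) ↔ x.1.1 = OnePoint.infty := by
  constructor
  · rintro ⟨z, rfl⟩; rfl
  · intro h
    refine ⟨x.1.2, Subtype.ext (Prod.ext h.symm rfl)⟩

theorem C2_meet (i j : Bool) (hij : i ≠ j) (x : C2pts) :
    x ∈ range (C2chart i) ∩ range (C2chart j) ↔ x.1 = (OnePoint.infty, ((0 : ℂ) : Sph)) := by
  have key : x ∈ range (C2chart false) ∩ range (C2chart true) ↔
      x.1 = (OnePoint.infty, ((0 : ℂ) : Sph)) := by
    rw [mem_inter_iff, C2_mem_false, C2_mem_true, Prod.ext_iff]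
    exact and_comm
  cases i <;> cases j
  · exact absurd rfl hij
  · exact key
  · rw [inter_comm]; exact key
  · exact absurd rfl hij

/-- the curve with two components -/
def C2 : NodalCurve where
  pts := C2pts
  comp := Bool
  chart := C2chart
  emb b := by
    have hc : Continuous (C2chart b) := by
      cases b
      · exact Continuous.subtype_mk (by fun_prop) _
      · exact Continuous.subtype_mk (by fun_prop) _
    have hi : Function.Injective (C2chart b) := by
      intro x y h
      have h1 := congrArg Subtype.val h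
      cases b
      · exact congrArg Prod.fst h1
      · exact congrArg Prod.snd h1
    exact (hc.isClosedEmbedding hi).isEmbedding
  cover x := by
    rcases x.2 with h | h
    · obtain ⟨z, hz⟩ := (C2_mem_true x).2 h
      exact ⟨true, z, hz⟩
    · obtain ⟨z, hz⟩ := (C2_mem_false x).2 h
      exact ⟨false, z, hz⟩
  two i j hij x hx y hy := by
    rw [C2_meet i j hij] at hx hy
    exact Subtype.ext (hx.trans hy.symm)
  three i j k h1 h2 h3 := by
    exfalso
    cases i <;> cases j <;> cases k <;> simp_all
  tree := by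
    constructor
    · have hadj : ∀ i j : Bool, i ≠ j → (SimpleGraph.fromRel fun i j : Bool =>
          (range (C2chart i) ∩ range (C2chart j)).Nonempty).Adj i j := by
        intro i j hij
        rw [SimpleGraph.fromRel_adj]
        exact ⟨hij, Or.inl ⟨C2nd, (C2_meet i j hij C2nd).2 rfl⟩⟩
      refine ⟨fun i j => ?_⟩
      by_cases hij : i = j
      · subst hij; exact SimpleGraph.Reachable.refl _
      · exact (hadj i j hij).reachable
    · apply SimpleGraph.IsAcyclic.of_card_le_two
      simp

theorem C2_node (x : C2.pts) : C2.IsNode x ↔ x.1 = (OnePoint.infty, ((0 : ℂ) : Sph)) := by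
  constructor
  · rintro ⟨i, j, hij, h1, h2⟩
    exact (C2_meet i j hij x).1 ⟨h1, h2⟩
  · intro h
    obtain ⟨h1, h2⟩ := (C2_meet false true Bool.false_ne_true x).2 h
    exact ⟨false, true, Bool.false_ne_true, h1, h2⟩

/-- first coordinate of the radial map -/
def phi1 (l : ℝ) (z : Sph) : Sph :=
  if l < 0 then (((((1 + l) / (-l) : ℝ) : ℂ) * (toC z / ‖toC z‖) : ℂ) : Sph) else OnePoint.infty

/-- second coordinate of the radial map -/
def phi2 (l : ℝ) (z : Sph) : Sph :=
  z.elim OnePoint.infty fun w => ((((max l 0 / (1 - l) : ℝ) : ℂ) * (w / ‖w‖) : ℂ) : Sph)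

/-- unit vectors -/
theorem continuousAt_dir {z : ℂ} (hz : z ≠ 0) : ContinuousAt (fun z : ℂ => z / ‖z‖) z := by
  refine ContinuousAt.div continuousAt_id ?_ (by simpa using hz)
  exact Complex.continuous_ofReal.continuousAt.comp continuous_norm.continuousAt

theorem norm_dir {z : ℂ} (hz : z ≠ 0) : ‖z / (‖z‖ : ℂ)‖ = 1 := by
  rw [norm_div, Complex.norm_real, norm_norm, div_self (norm_ne_zero_iff.2 hz)]

theorem norm_dir_le (z : ℂ) : ‖z / (‖z‖ : ℂ)‖ ≤ 1 := by
  by_cases hz : z = 0
  · simp [hz]
  · rw [norm_dir hz]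

/-- Radial data: a continuous function on `X` (with values in `[-1, 1]`) over a map to the
sphere. -/
structure RadialOn {X : Type*} [TopologicalSpace X] (R : X → ℝ) (Z : X → Sph) : Prop where
  contR : Continuous R
  contZ : Continuous Z
  le : ∀ x, R x ≤ 1
  ge : ∀ x, -1 ≤ R x
  zero : ∀ x, Z x = ((0 : ℂ) : Sph) ↔ R x = -1
  infty : ∀ x, Z x = OnePoint.infty ↔ R x = 1

variable {X : Type*} [TopologicalSpace X] {R : X → ℝ} {Z : X → Sph}

theorem RadialOn.cont1 (h : RadialOn R Z) : Continuous fun x => phi1 (R x) (Z x) := by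
  rw [continuous_iff_continuousAt]
  intro x
  rcases lt_or_ge (R x) 0 with hx | hx
  · -- finite values
    have hev : ∀ᶠ y in 𝓝 x, R y < 0 := h.contR.continuousAt.eventually (gt_mem_nhds hx)
    have hZ : Z x ≠ OnePoint.infty := by
      intro h1
      have := (h.infty x).1 h1
      linarith
    have hcT : ContinuousAt (fun y => toC (Z y)) x :=
      (continuousAt_toC hZ).comp h.contZ.continuousAt
    have key : ContinuousAt (fun y => ((((1 + R y) / (-R y) : ℝ) : ℂ) *
        (toC (Z y) / ‖toC (Z y)‖))) x := by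
      have hr : ContinuousAt (fun y => (((1 + R y) / (-R y) : ℝ) : ℂ)) x := by
        refine Complex.continuous_ofReal.continuousAt.comp ?_
        refine ContinuousAt.div (continuousAt_const.add h.contR.continuousAt)
          h.contR.continuousAt.neg ?_
        linarith
      by_cases h0 : toC (Z x) = 0
      · have hZ0 : Z x = ((0 : ℂ) : Sph) := by rw [← coe_toC hZ, h0]
        have hR := (h.zero x).1 hZ0
        have h1 : (((1 + R x) / (-R x) : ℝ) : ℂ) = 0 := by rw [hR]; simp
        show Tendsto (fun y => ((((1 + R y) / (-R y) : ℝ) : ℂ) *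
          (toC (Z y) / ‖toC (Z y)‖))) (𝓝 x) (𝓝 ((((1 + R x) / (-R x) : ℝ) : ℂ) *
          (toC (Z x) / ‖toC (Z x)‖)))
        rw [h1, zero_mul]
        rw [ContinuousAt, h1] at hr
        have h2 := hr.norm
        rw [norm_zero] at h2
        rw [tendsto_zero_iff_norm_tendsto_zero]
        refine squeeze_zero (fun _ => norm_nonneg _) (fun y => ?_) h2
        rw [norm_mul]
        calc _ ≤ ‖(((1 + R y) / (-R y) : ℝ) : ℂ)‖ * 1 := by
              gcongr
              exact norm_dir_le _
          _ = _ := mul_one _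
      · exact hr.mul (ContinuousAt.comp (f := fun y => toC (Z y)) (x := x) (continuousAt_dir h0) hcT)
    have h2 := OnePoint.continuous_coe.continuousAt.comp key
    refine h2.congr ?_
    filter_upwards [hev] with y hy
    simp only [phi1, if_pos hy, Function.comp]
  · -- the value is infinity
    show Tendsto (fun x => phi1 (R x) (Z x)) (𝓝 x) (𝓝 (phi1 (R x) (Z x)))
    have h1 : phi1 (R x) (Z x) = OnePoint.infty := by simp [phi1, not_lt.2 hx]
    rw [h1, tendsto_infty_iff]
    intro M
    have h2 : ∀ᶠ y in 𝓝 x, -(1 / (|M| + 2)) < R y := by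
      apply h.contR.continuousAt.eventually
      apply lt_mem_nhds
      have : 0 < 1 / (|M| + 2) := by positivity
      linarith
    filter_upwards [h2] with y hy z hz
    rcases lt_or_ge (R y) 0 with h3 | h3
    · rw [phi1, if_pos h3, OnePoint.coe_eq_coe] at hz
      rw [← hz, norm_mul]
      have hM : 0 < |M| + 2 := by positivity
      have h6 : 1 / (|M| + 2) ≤ 1 / 2 := by
        apply one_div_le_one_div_of_le (by norm_num)
        linarith [abs_nonneg M]
      have h4 : Z y ≠ OnePoint.infty := fun h5 => by
        have := (h.infty y).1 h5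
        linarith
      have h5 : toC (Z y) ≠ 0 := by
        intro h7
        have h8 : Z y = ((0 : ℂ) : Sph) := by rw [← coe_toC h4, h7]
        have := (h.zero y).1 h8
        linarith
      rw [norm_dir h5, mul_one, Complex.norm_real, Real.norm_eq_abs]
      refine lt_of_lt_of_le ?_ (le_abs_self _)
      rw [lt_div_iff₀ (by linarith)]
      have h9 : -R y < 1 / (|M| + 2) := by linarith
      rw [lt_div_iff₀ hM] at h9
      nlinarith [le_abs_self M, abs_nonneg M]
    · rw [phi1, if_neg (not_lt.2 h3)] at hz
      exact absurd hz (OnePoint.infty_ne_coe _)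

theorem RadialOn.cont2 (h : RadialOn R Z) : Continuous fun x => phi2 (R x) (Z x) := by
  rw [continuous_iff_continuousAt]
  intro x
  by_cases hZ : Z x = OnePoint.infty
  · -- value infinity
    show Tendsto (fun x => phi2 (R x) (Z x)) (𝓝 x) (𝓝 (phi2 (R x) (Z x)))
    have h1 : phi2 (R x) (Z x) = OnePoint.infty := by simp [phi2, hZ]
    have hR := (h.infty x).1 hZ
    rw [h1, tendsto_infty_iff]
    intro M
    have h2 : ∀ᶠ y in 𝓝 x, 1 - 1 / (|M| + 2) < R y := by
      apply h.contR.continuousAt.eventually
      apply lt_mem_nhds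
      have : 0 < 1 / (|M| + 2) := by positivity
      linarith
    filter_upwards [h2] with y hy z hz
    have hM : 0 < |M| + 2 := by positivity
    have h6 : 1 / (|M| + 2) ≤ 1 / 2 := by
      apply one_div_le_one_div_of_le (by norm_num)
      linarith [abs_nonneg M]
    have h3 : Z y ≠ OnePoint.infty := by
      intro h4
      rw [phi2, h4] at hz
      exact absurd hz (OnePoint.infty_ne_coe _)
    have h4 : Z y ≠ ((0 : ℂ) : Sph) := by
      intro h5
      have := (h.zero y).1 h5
      linarith
    have h7 : R y ≠ 1 := fun h8 => h3 ((h.infty y).2 h8)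
    have h8 : R y < 1 := lt_of_le_of_ne (h.le y) h7
    rw [← coe_toC h3, phi2, OnePoint.elim_some, OnePoint.coe_eq_coe] at hz
    rw [← hz, norm_mul, norm_dir, mul_one, Complex.norm_real, Real.norm_eq_abs]
    · refine lt_of_lt_of_le ?_ (le_abs_self _)
      rw [max_eq_left (by linarith), lt_div_iff₀ (by linarith)]
      have h9 : 1 - R y < 1 / (|M| + 2) := by linarith
      rw [lt_div_iff₀ hM] at h9
      nlinarith [le_abs_self M, abs_nonneg M]
    · intro h10
      exact h4 (by rw [← coe_toC h3, h10])
  · -- finite value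
    have hR : R x < 1 := lt_of_le_of_ne (h.le x) fun h8 => hZ ((h.infty x).2 h8)
    have hcT : ContinuousAt (fun y => toC (Z y)) x :=
      (continuousAt_toC hZ).comp h.contZ.continuousAt
    have key : ContinuousAt (fun y => (((max (R y) 0 / (1 - R y) : ℝ) : ℂ) *
        (toC (Z y) / ‖toC (Z y)‖))) x := by
      have hr : ContinuousAt (fun y => ((max (R y) 0 / (1 - R y) : ℝ) : ℂ)) x := by
        refine Complex.continuous_ofReal.continuousAt.comp ?_
        refine ContinuousAt.div (h.contR.max continuous_const).continuousAt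
          (continuousAt_const.sub h.contR.continuousAt) ?_
        linarith
      by_cases h0 : toC (Z x) = 0
      · have hZ0 : Z x = ((0 : ℂ) : Sph) := by rw [← coe_toC hZ, h0]
        have hR := (h.zero x).1 hZ0
        have h1 : ((max (R x) 0 / (1 - R x) : ℝ) : ℂ) = 0 := by rw [hR]; simp
        show Tendsto (fun y => (((max (R y) 0 / (1 - R y) : ℝ) : ℂ) *
          (toC (Z y) / ‖toC (Z y)‖))) (𝓝 x) (𝓝 (((max (R x) 0 / (1 - R x) : ℝ) : ℂ) *
          (toC (Z x) / ‖toC (Z x)‖)))
        rw [h1, zero_mul]
        rw [ContinuousAt, h1] at hr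
        have h2 := hr.norm
        rw [norm_zero] at h2
        rw [tendsto_zero_iff_norm_tendsto_zero]
        refine squeeze_zero (fun _ => norm_nonneg _) (fun y => ?_) h2
        rw [norm_mul]
        calc _ ≤ ‖((max (R y) 0 / (1 - R y) : ℝ) : ℂ)‖ * 1 := by
              gcongr
              exact norm_dir_le _
          _ = _ := mul_one _
      · exact hr.mul (ContinuousAt.comp (f := fun y => toC (Z y)) (x := x) (continuousAt_dir h0) hcT)
    have h2 := OnePoint.continuous_coe.continuousAt.comp key
    refine h2.congr ?_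
    have hev : ∀ᶠ y in 𝓝 x, Z y ≠ OnePoint.infty :=
      h.contZ.continuousAt.eventually (OnePoint.isClosed_infty.isOpen_compl.mem_nhds hZ)
    filter_upwards [hev] with y hy
    simp only [Function.comp]
    conv_rhs => rw [← coe_toC hy, phi2, OnePoint.elim_some]

/-- the radial map -/
def Phi (l : ℝ) (z : Sph) (h : z = OnePoint.infty → 0 ≤ l) : C2.pts :=
  ⟨(phi1 l z, phi2 l z), by
    rcases lt_or_ge l 0 with h1 | h1
    · right
      have : z ≠ OnePoint.infty := fun h2 => by linarith [h h2]
      show phi2 l z = _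
      rw [← coe_toC this, phi2, OnePoint.elim_some, max_eq_right h1.le]
      simp
    · left
      simp [phi1, not_lt.2 h1]⟩

theorem RadialOn.cond (h : RadialOn R Z) (x : X) : Z x = OnePoint.infty → 0 ≤ R x := fun h1 => by
  rw [(h.infty x).1 h1]; norm_num

theorem RadialOn.contPhi (h : RadialOn R Z) : Continuous fun x => Phi (R x) (Z x) (h.cond x) :=
  Continuous.subtype_mk (h.cont1.prodMk h.cont2) _

end Pool.Agent.U594.AD
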