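import Pool.Agent.U594.AD.Open2

set_option autoImplicit false

/-!
# Holomorphic maps of the sphere with one zero and one pole
-/

open Set Topology Filter Matrix

noncomputable section

namespace Pool.Agent.U594.AD

theorem factor {e : ℂ → ℂ} (he : Differentiable ℂ e) (h0 : ∀ z, e z = 0 ↔ z = 0) :
    ∃ (n : ℕ) (u : ℂ → ℂ), Differentiable ℂ u ∧ (∀ z, u z ≠ 0) ∧ ∀ z, e z = z ^ n * u z := by
  classical
  have ha : AnalyticAt ℂ e 0 := he.analyticAt 0
  have hne : ¬ ∀ᶠ z in 𝓝 (0 : ℂ), e z = 0 := by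
    intro h
    have h1 : ∀ᶠ z in 𝓝[≠] (0 : ℂ), False := by
      filter_upwards [nhdsWithin_le_nhds h, self_mem_nhdsWithin] with z hz hz2
      exact hz2 ((h0 z).1 hz)
    rw [eventually_false_iff_eq_bot] at h1
    exact (inferInstance : (𝓝[≠] (0 : ℂ)).NeBot).ne h1
  obtain ⟨n, g, hg, hg0, hge⟩ := ha.exists_eventuallyEq_pow_smul_nonzero_iff.2 hne
  have hu0 : (fun z => if z = 0 then g 0 else e z / z ^ n) =ᶠ[𝓝 0] g := by
    filter_upwards [hge] with z hz
    by_cases h : z = 0
    · simp [h]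
    · simp only [if_neg h]
      rw [hz, sub_zero, smul_eq_mul]
      field_simp
  refine ⟨n, fun z => if z = 0 then g 0 else e z / z ^ n, ?_, ?_, ?_⟩
  · intro z
    by_cases h : z = 0
    · subst h
      exact (hg.differentiableAt.congr_of_eventuallyEq hu0)
    · have h1 : DifferentiableAt ℂ (fun z => e z / z ^ n) z :=
        (he z).div (differentiableAt_pow n) (pow_ne_zero n h)
      refine h1.congr_of_eventuallyEq ?_
      filter_upwards [isOpen_ne.mem_nhds h] with w hw
      rw [if_neg hw]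
  · intro z
    by_cases h : z = 0
    · simp only [if_pos h]
      exact hg0
    · simp only [if_neg h]
      exact div_ne_zero (fun h1 => h ((h0 z).1 h1)) (pow_ne_zero n h)
  · intro z
    by_cases h : z = 0
    · subst h
      have h1 := hge.self_of_nhds
      simp only [sub_zero, smul_eq_mul] at h1
      simpa using h1
    · simp only [if_neg h]
      field_simp

theorem const_of {n m : ℕ} (hnm : n ≤ m) {u v : ℂ → ℂ} (hu : Differentiable ℂ u)
    (hv : Differentiable ℂ v) (hv0 : ∀ z, v z ≠ 0)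
    (h : ∀ w, w ≠ 0 → w ^ m * u w * (w⁻¹ ^ n * v w⁻¹) = 1) : ∀ z, u z = u 0 := by
  obtain ⟨B1, hB1⟩ := (isCompact_closedBall (0 : ℂ) 1).exists_bound_of_continuousOn
    hu.continuous.continuousOn
  obtain ⟨B2, hB2⟩ := (isCompact_closedBall (0 : ℂ) 1).exists_bound_of_continuousOn
    (hv.continuous.inv₀ hv0).continuousOn
  have hbd : Bornology.IsBounded (range u) := by
    rw [isBounded_iff_forall_norm_le]
    refine ⟨max B1 B2, ?_⟩
    rintro _ ⟨w, rfl⟩
    rcases le_or_gt ‖w‖ 1 with hw | hw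
    · exact (hB1 w (mem_closedBall_zero_iff.2 hw)).trans (le_max_left _ _)
    · have hw0 : w ≠ 0 := by
        rintro rfl
        rw [norm_zero] at hw
        linarith
      have h1 : ‖w⁻¹‖ ≤ 1 := by
        rw [norm_inv]
        exact inv_le_one_of_one_le₀ hw.le
      have h2 := hB2 w⁻¹ (mem_closedBall_zero_iff.2 h1)
      obtain ⟨d, rfl⟩ := Nat.exists_eq_add_of_le hnm
      have h3 : w ^ d * u w = (v w⁻¹)⁻¹ := by
        have h4 := h w hw0
        have h5 := hv0 w⁻¹
        apply eq_inv_of_mul_eq_one_left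
        rw [← h4, pow_add, inv_pow]
        field_simp
      have h4 : ‖u w‖ ≤ ‖w ^ d * u w‖ := by
        rw [norm_mul, norm_pow]
        have : 1 ≤ ‖w‖ ^ d := one_le_pow₀ hw.le
        nlinarith [norm_nonneg (u w)]
      rw [h3] at h4
      exact (h4.trans h2).trans (le_max_right _ _)
  intro z
  exact hu.apply_eq_apply_of_bounded hbd z 0

theorem power_of {e e2 : ℂ → ℂ} (he : Differentiable ℂ e) (he2 : Differentiable ℂ e2)
    (h0 : ∀ z, e z = 0 ↔ z = 0) (h02 : ∀ z, e2 z = 0 ↔ z = 0)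
    (hrel : ∀ w, w ≠ 0 → e2 w * e w⁻¹ = 1) : ∃ (c : ℂ) (n : ℕ), ∀ z, e z = c * z ^ n := by
  obtain ⟨n, u, hu, hu0, hun⟩ := factor he h0
  obtain ⟨m, v, hv, hv0, hvm⟩ := factor he2 h02
  rcases le_total n m with hnm | hnm
  · have h1 := const_of hnm hv hu hu0 (fun w hw => by rw [← hvm, ← hun]; exact hrel w hw)
    refine ⟨(v 0)⁻¹, m, fun z => ?_⟩
    by_cases hz : z = 0
    · subst hz
      have hm : m ≠ 0 := by
        rintro rfl
        have h2 := hvm 0
        rw [(h02 0).2 rfl, pow_zero, one_mul] at h2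
        exact hv0 0 h2.symm
      rw [(h0 0).2 rfl, zero_pow hm, mul_zero]
    · have h2 := hrel z⁻¹ (inv_ne_zero hz)
      rw [inv_inv, hvm, h1] at h2
      have h3 := hv0 0
      have h4 : e z = (z⁻¹ ^ m * v 0)⁻¹ := eq_inv_of_mul_eq_one_right h2
      rw [h4, mul_inv, inv_pow, inv_inv, mul_comm]
  · have h1 := const_of hnm hu hv hv0 (fun w hw => by
      rw [← hvm, ← hun]
      have := hrel w⁻¹ (inv_ne_zero hw)
      rw [inv_inv] at this
      rw [mul_comm]
      exact this)
    refine ⟨u 0, n, fun z => ?_⟩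
    rw [hun, h1, mul_comm]

theorem swapM_infty : swapM • (OnePoint.infty : Sph) = ((0 : ℂ) : Sph) := by
  rw [← hom_zero 1, smul_hom swapM (Or.inl one_ne_zero)]
  simp [swapM, hom, Matrix.GeneralLinearGroup.mkOfDetNeZero]

theorem rigid {E : Sph → Sph} (hE : Holomorphic E)
    (h0 : ∀ z, E z = ((0 : ℂ) : Sph) ↔ z = ((0 : ℂ) : Sph))
    (hi : ∀ z, E z = OnePoint.infty ↔ z = OnePoint.infty) :
    ∃ (c : ℂ) (n : ℕ), ∀ z : ℂ, E z = ((c * z ^ n : ℂ) : Sph) := by
  have hfin : ∀ z : ℂ, E z ≠ OnePoint.infty := fun z h => OnePoint.coe_ne_infty z ((hi z).1 h)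
  have hcoe : ∀ z : ℂ, E z = (toC (E z) : Sph) := fun z => (coe_toC (hfin z)).symm
  let e : ℂ → ℂ := fun z => toC (E z)
  let e2 : ℂ → ℂ := fun z => toC (swapM • E (swapM • (z : Sph)))
  have he : Differentiable ℂ e := by
    intro z
    have h1 := hE.2 1 1 z
    simp only [one_smul] at h1
    exact h1 (hfin z)
  have he0 : ∀ z, e z = 0 ↔ z = 0 := by
    intro z
    constructor
    · intro h
      have h1 : E z = ((0 : ℂ) : Sph) := by
        rw [hcoe z]
        congr 1
      exact OnePoint.coe_injective ((h0 z).1 h1)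
    · intro h
      have h1 : E z = ((0 : ℂ) : Sph) := (h0 z).2 (by rw [h])
      show toC (E z) = 0
      rw [h1, toC_coe]
  have hrel' : ∀ w : ℂ, w ≠ 0 → e2 w = (e w⁻¹)⁻¹ := by
    intro w hw
    show toC (swapM • E (swapM • (w : Sph))) = _
    rw [swapM_coe hw, hcoe, swapM_coe, toC_coe]
    exact fun h => inv_ne_zero hw ((he0 _).1 h)
  have he2z : e2 0 = 0 := by
    show toC (swapM • E (swapM • ((0 : ℂ) : Sph))) = _
    rw [swapM_zero, (hi _).2 rfl, swapM_infty, toC_coe]
  have he20 : ∀ z, e2 z = 0 ↔ z = 0 := by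
    intro z
    constructor
    · intro h
      by_contra hz
      rw [hrel' z hz, inv_eq_zero, he0] at h
      exact inv_ne_zero hz h
    · rintro rfl
      exact he2z
  have he2 : Differentiable ℂ e2 := by
    intro z
    apply hE.2 swapM swapM z
    intro h
    have h1 : E (swapM • (z : Sph)) = ((0 : ℂ) : Sph) := by
      apply MulAction.injective swapM
      show swapM • _ = swapM • _
      rw [h, swapM_zero]
    have h2 := (h0 _).1 h1
    by_cases hz : z = 0
    · rw [hz, swapM_zero] at h2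
      exact OnePoint.infty_ne_coe _ h2
    · rw [swapM_coe hz] at h2
      exact inv_ne_zero hz (OnePoint.coe_injective h2)
  obtain ⟨c, n, hcn⟩ := power_of he he2 he0 he20 (fun w hw => by
    rw [hrel' w hw]
    apply inv_mul_cancel₀
    exact fun h => inv_ne_zero hw ((he0 _).1 h))
  refine ⟨c, n, fun z => ?_⟩
  rw [hcoe z]
  congr 1
  exact hcn z

theorem encard_roots {n : ℕ} (hn : 0 < n) : {z : ℂ | z ^ n = 1}.encard = n := by
  have hω := Complex.isPrimitiveRoot_exp n hn.ne'
  have h1 : {z : ℂ | z ^ n = 1} = (Polynomial.nthRootsFinset n (1 : ℂ) : Set ℂ) := by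
    ext z
    rw [Finset.mem_coe, Polynomial.mem_nthRootsFinset hn]
    rfl
  rw [h1, encard_coe_eq_coe_finsetCard, hω.card_nthRootsFinset]

theorem exists_mob {a b c d : ℂ} (h : a * d - b * c ≠ 0) :
    ∃ k : Mob, ∀ x y, Nz x y → k • hom x y = hom (a * x + b * y) (c * x + d * y) := by
  refine ⟨Matrix.GeneralLinearGroup.mkOfDetNeZero !![a, b; c, d] (by
    rwa [Matrix.det_fin_two_of]), fun x y hxy => ?_⟩
  rw [smul_hom _ hxy]
  rfl

/-- three points can be moved to `0, ∞, 1` -/
theorem exists_three {x y z : Sph} (hxy : x ≠ y) (hxz : x ≠ z) (hyz : y ≠ z) :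
    ∃ k : Mob, k • x = ((0 : ℂ) : Sph) ∧ k • y = OnePoint.infty ∧ k • z = ((1 : ℂ) : Sph) := by
  have hbr : ∀ {u v : Sph}, u ≠ v → br u v ≠ 0 := by
    intro u v huv h
    apply huv
    rw [← hom_l u, ← hom_l v, hom_eq_iff (nz_l _) (nz_l _)]
    exact h
  have b1 := hbr hxy
  have b2 := hbr hxz.symm
  have b3 := hbr hyz.symm
  have hdet : (br z y * lb x) * (-(br z x * la y)) - (-(br z y * la x)) * (br z x * lb y) ≠ 0 := by
    have : (br z y * lb x) * (-(br z x * la y)) - (-(br z y * la x)) * (br z x * lb y) =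
        br z y * br z x * br x y := by
      rw [show br x y = la x * lb y - lb x * la y from rfl]
      ring
    rw [this]
    exact mul_ne_zero (mul_ne_zero b3 b2) b1
  obtain ⟨k, hk⟩ := exists_mob hdet
  have hk' : ∀ w : Sph, k • w = hom (br z y * br w x) (br z x * br w y) := by
    intro w
    conv_lhs => rw [← hom_l w, hk _ _ (nz_l w)]
    rw [show br w x = la w * lb x - lb w * la x from rfl,
      show br w y = la w * lb y - lb w * la y from rfl]
    congr 1 <;> ring
  refine ⟨k, ?_, ?_, ?_⟩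
  · rw [hk', show br x x = 0 by unfold br; ring, mul_zero, hom_of_ne (mul_ne_zero b2 b1), zero_div]
  · rw [hk', show br y y = 0 by unfold br; ring, mul_zero, hom_zero]
  · rw [hk', mul_comm, hom_of_ne (mul_ne_zero b2 b3), div_self (mul_ne_zero b2 b3)]

end Pool.Agent.U594.AD
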