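import Pool.Agent.U594.AD.Def

set_option autoImplicit false

/-!
# The Riemann sphere in homogeneous coordinates
-/

open Set Topology Filter Matrix

noncomputable section

namespace Pool.Agent.U594.AD

/-- the point with homogeneous coordinates `a : b` -/
def hom (a b : ℂ) : Sph := if b = 0 then OnePoint.infty else ((a / b : ℂ) : Sph)

/-- not both zero -/
def Nz (a b : ℂ) : Prop := a ≠ 0 ∨ b ≠ 0

theorem hom_zero (a : ℂ) : hom a 0 = OnePoint.infty := by simp [hom]

theorem hom_of_ne {a b : ℂ} (h : b ≠ 0) : hom a b = ((a / b : ℂ) : Sph) := by simp [hom, h]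

theorem hom_one (a : ℂ) : hom a 1 = (a : Sph) := by simp [hom]

theorem hom_mul {c a b : ℂ} (h : c ≠ 0) : hom (c * a) (c * b) = hom a b := by
  unfold hom
  by_cases hb : b = 0
  · simp [hb]
  · rw [if_neg (mul_ne_zero h hb), if_neg hb, mul_div_mul_left _ _ h]

theorem exists_hom (z : Sph) : ∃ a b, Nz a b ∧ z = hom a b := by
  induction z using OnePoint.rec with
  | infty => exact ⟨1, 0, Or.inl one_ne_zero, (hom_zero 1).symm⟩
  | coe z => exact ⟨z, 1, Or.inr one_ne_zero, (hom_one z).symm⟩

theorem hom_eq_iff {a b c d : ℂ} (h1 : Nz a b) (h2 : Nz c d) :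
    hom a b = hom c d ↔ a * d - b * c = 0 := by
  unfold hom
  by_cases hb : b = 0
  · by_cases hd : d = 0
    · simp [hb, hd]
    · have ha : a ≠ 0 := h1.resolve_right (not_not_intro hb)
      simp [hb, hd, ha]
  · by_cases hd : d = 0
    · have hc : c ≠ 0 := h2.resolve_right (not_not_intro hd)
      simp [hb, hd, hc]
    · rw [if_neg hb, if_neg hd, OnePoint.coe_eq_coe, div_eq_div_iff hb hd, sub_eq_zero,
        mul_comm b c]

theorem toC_hom (a b : ℂ) : toC (hom a b) = a / b := by
  unfold hom toC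
  by_cases hb : b = 0
  · simp [hb]
  · simp [hb]

theorem toC_coe (a : ℂ) : toC (a : Sph) = a := rfl

theorem det_ne (g : Mob) : g 0 0 * g 1 1 - g 0 1 * g 1 0 ≠ 0 := by
  have := g.det_ne_zero
  rwa [Matrix.det_fin_two] at this

theorem Nz.smul {a b : ℂ} (h : Nz a b) (g : Mob) :
    Nz (g 0 0 * a + g 0 1 * b) (g 1 0 * a + g 1 1 * b) := by
  by_contra hcon
  unfold Nz at hcon
  push Not at hcon
  obtain ⟨h1, h2⟩ := hcon
  have hd := det_ne g
  rcases h with h | h
  · apply hd
    have : (g 0 0 * g 1 1 - g 0 1 * g 1 0) * a = 0 := by linear_combination g 1 1 * h1 - g 0 1 * h2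
    exact (mul_eq_zero.1 this).resolve_right h
  · apply hd
    have : (g 0 0 * g 1 1 - g 0 1 * g 1 0) * b = 0 := by linear_combination g 0 0 * h2 - g 1 0 * h1
    exact (mul_eq_zero.1 this).resolve_right h

theorem smul_hom (g : Mob) {a b : ℂ} (h : Nz a b) :
    g • hom a b = hom (g 0 0 * a + g 0 1 * b) (g 1 0 * a + g 1 1 * b) := by
  by_cases hb : b = 0
  · subst hb
    have ha : a ≠ 0 := h.resolve_right (by simp)
    rw [hom_zero, OnePoint.smul_infty_eq_ite]
    unfold hom
    by_cases hg : g 1 0 = 0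
    · simp [hg]
    · rw [if_neg hg, if_neg (by simp [hg, ha])]
      rw [OnePoint.coe_eq_coe]
      field_simp
      ring
  · rw [hom_of_ne hb, OnePoint.smul_some_eq_ite]
    unfold hom
    have e : g 1 0 * (a / b) + g 1 1 = (g 1 0 * a + g 1 1 * b) / b := by field_simp
    rw [e]
    by_cases hg : g 1 0 * a + g 1 1 * b = 0
    · simp [hg]
    · rw [if_neg hg, if_neg (div_ne_zero hg hb), OnePoint.coe_eq_coe]
      field_simp

theorem Nz.cube {a b : ℂ} (h : Nz a b) : Nz (a ^ 3) (b ^ 3) := by
  rcases h with h | h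
  · exact Or.inl (pow_ne_zero 3 h)
  · exact Or.inr (pow_ne_zero 3 h)

theorem cube_coe (z : ℂ) : cube (z : Sph) = ((z ^ 3 : ℂ) : Sph) := rfl

theorem cube_infty : cube OnePoint.infty = OnePoint.infty := rfl

theorem cube_hom (a b : ℂ) : cube (hom a b) = hom (a ^ 3) (b ^ 3) := by
  unfold hom
  by_cases hb : b = 0
  · simp [hb, cube_infty]
  · rw [if_neg hb, if_neg (pow_ne_zero 3 hb), cube_coe, div_pow]

/-! ### continuity -/

theorem tendsto_infty_iff {X : Type*} {l : Filter X} {f : X → Sph} :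
    Tendsto f l (𝓝 OnePoint.infty) ↔
      ∀ M : ℝ, ∀ᶠ x in l, ∀ z : ℂ, f x = (z : Sph) → M < ‖z‖ := by
  rw [(OnePoint.hasBasis_nhds_infty (X := ℂ)).tendsto_right_iff]
  constructor
  · intro h M
    have h1 := h (Metric.closedBall 0 M) ⟨Metric.isClosed_closedBall, isCompact_closedBall 0 M⟩
    filter_upwards [h1] with x hx z hz
    rw [hz] at hx
    rcases hx with ⟨w, hw, hwz⟩ | hx
    · rw [OnePoint.coe_eq_coe] at hwz
      subst hwz
      simpa using hw
    · exact absurd hx (OnePoint.coe_ne_infty _)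
  · rintro h s ⟨-, hs⟩
    obtain ⟨M, hM⟩ := hs.isBounded.subset_closedBall (0 : ℂ)
    filter_upwards [h M] with x hx
    rcases h3 : f x with _ | z
    · exact Or.inr rfl
    · left
      refine ⟨z, ?_, rfl⟩
      intro hzs
      have h4 := hx z h3
      have h5 := hM hzs
      rw [mem_closedBall_zero_iff] at h5
      linarith

theorem continuousAt_hom {X : Type*} [TopologicalSpace X] {a b : X → ℂ} {x : X}
    (ha : ContinuousAt a x) (hb : ContinuousAt b x) (h : Nz (a x) (b x)) :
    ContinuousAt (fun y => hom (a y) (b y)) x := by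
  by_cases hbx : b x = 0
  · have hax : a x ≠ 0 := h.resolve_right (not_not_intro hbx)
    show Tendsto (fun y => hom (a y) (b y)) (𝓝 x) (𝓝 (hom (a x) (b x)))
    rw [hbx, hom_zero, tendsto_infty_iff]
    intro M
    have h1 : ∀ᶠ y in 𝓝 x, ‖a x‖ / 2 < ‖a y‖ :=
      ha.norm.eventually (lt_mem_nhds (half_lt_self (norm_pos_iff.2 hax)))
    have h2 : ∀ᶠ y in 𝓝 x, ‖b y‖ < ‖a x‖ / 2 / (|M| + 1) := by
      have h3 := hb.norm
      rw [ContinuousAt, hbx, norm_zero] at h3
      exact h3.eventually (gt_mem_nhds (by have := norm_pos_iff.2 hax; positivity))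
    filter_upwards [h1, h2] with y h3 h4 z hz
    have hby : b y ≠ 0 := by
      intro h5
      rw [h5, hom_zero] at hz
      exact absurd hz (OnePoint.infty_ne_coe _)
    rw [hom_of_ne hby, OnePoint.coe_eq_coe] at hz
    rw [← hz, norm_div]
    have h5 : 0 < ‖b y‖ := norm_pos_iff.2 hby
    rw [lt_div_iff₀ h5]
    have h6 : 0 < |M| + 1 := by positivity
    rw [lt_div_iff₀ h6] at h4
    calc M * ‖b y‖ ≤ (|M| + 1) * ‖b y‖ := by
          gcongr
          linarith [le_abs_self M]
      _ < ‖a x‖ / 2 := by linarith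
      _ < ‖a y‖ := h3
  · have h1 : ContinuousAt (fun y => ((a y / b y : ℂ) : Sph)) x :=
      OnePoint.continuous_coe.continuousAt.comp (ha.div hb hbx)
    refine h1.congr ?_
    filter_upwards [hb.eventually_ne hbx] with y hy
    rw [hom_of_ne hy]

/-- the coordinate `1 / z` -/
def invC (z : Sph) : ℂ := z.elim 0 (fun z => z⁻¹)

theorem hom_one_invC {z : Sph} (hz : z ≠ ((0 : ℂ) : Sph)) : hom 1 (invC z) = z := by
  induction z using OnePoint.rec with
  | infty => simp [invC, hom]
  | coe z =>
    have h : z ≠ 0 := by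
      rintro rfl
      exact hz rfl
    simp [invC, hom, h]

theorem continuousAt_invC {z : Sph} (hz : z ≠ ((0 : ℂ) : Sph)) : ContinuousAt invC z := by
  induction z using OnePoint.rec with
  | infty =>
    rw [OnePoint.continuousAt_infty', Filter.coclosedCompact_eq_cocompact,
      ← Metric.cobounded_eq_cocompact]
    exact tendsto_inv₀_cobounded
  | coe z =>
    have h : z ≠ 0 := by
      rintro rfl
      exact hz rfl
    rw [OnePoint.continuousAt_coe]
    exact continuousAt_inv₀ h

theorem continuousAt_toC {z : Sph} (hz : z ≠ OnePoint.infty) : ContinuousAt toC z := by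
  induction z using OnePoint.rec with
  | infty => exact absurd rfl hz
  | coe z =>
    rw [OnePoint.continuousAt_coe]
    exact continuousAt_id

theorem coe_toC {z : Sph} (hz : z ≠ OnePoint.infty) : (toC z : Sph) = z := by
  induction z using OnePoint.rec with
  | infty => exact absurd rfl hz
  | coe z => rfl

theorem continuous_smul (g : Mob) : Continuous fun z : Sph => g • z := by
  rw [continuous_iff_continuousAt]
  intro z
  by_cases hz : z = ((0 : ℂ) : Sph)
  · have h1 : ContinuousAt (fun y : Sph => hom (g 0 0 * toC y + g 0 1 * 1)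
        (g 1 0 * toC y + g 1 1 * 1)) z := by
      have h2 : ContinuousAt toC z := continuousAt_toC (by rw [hz]; exact OnePoint.coe_ne_infty _)
      refine continuousAt_hom ((h2.const_mul _).add continuousAt_const)
        ((h2.const_mul _).add continuousAt_const) ?_
      exact Nz.smul (Or.inr one_ne_zero) g
    refine h1.congr ?_
    have h3 : ∀ᶠ y in 𝓝 z, y ≠ OnePoint.infty := by
      apply IsOpen.mem_nhds OnePoint.isClosed_infty.isOpen_compl
      rw [hz]
      exact OnePoint.coe_ne_infty _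
    filter_upwards [h3] with y hy
    rw [← smul_hom g (Or.inr one_ne_zero), hom_one, coe_toC hy]
  · have h1 : ContinuousAt (fun y : Sph => hom (g 0 0 * 1 + g 0 1 * invC y)
        (g 1 0 * 1 + g 1 1 * invC y)) z := by
      have h2 : ContinuousAt invC z := continuousAt_invC hz
      refine continuousAt_hom (continuousAt_const.add (h2.const_mul _))
        (continuousAt_const.add (h2.const_mul _)) ?_
      exact Nz.smul (Or.inl one_ne_zero) g
    refine h1.congr ?_
    have h3 : ∀ᶠ y in 𝓝 z, y ≠ ((0 : ℂ) : Sph) := isOpen_ne.mem_nhds hz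
    filter_upwards [h3] with y hy
    rw [← smul_hom g (Or.inl one_ne_zero), hom_one_invC hy]

theorem continuous_cube : Continuous cube := by
  rw [continuous_iff_continuousAt]
  intro z
  by_cases hz : z = ((0 : ℂ) : Sph)
  · have h2 : ContinuousAt toC z := continuousAt_toC (by rw [hz]; exact OnePoint.coe_ne_infty _)
    have h1 : ContinuousAt (fun y : Sph => hom (toC y ^ 3) (1 ^ 3)) z :=
      continuousAt_hom (h2.pow 3) continuousAt_const (Or.inr (by simp))
    refine h1.congr ?_
    have h3 : ∀ᶠ y in 𝓝 z, y ≠ OnePoint.infty := by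
      apply IsOpen.mem_nhds OnePoint.isClosed_infty.isOpen_compl
      rw [hz]
      exact OnePoint.coe_ne_infty _
    filter_upwards [h3] with y hy
    rw [← cube_hom, hom_one, coe_toC hy]
  · have h2 : ContinuousAt invC z := continuousAt_invC hz
    have h1 : ContinuousAt (fun y : Sph => hom (1 ^ 3) (invC y ^ 3)) z :=
      continuousAt_hom continuousAt_const (h2.pow 3) (Or.inl (by simp))
    refine h1.congr ?_
    have h3 : ∀ᶠ y in 𝓝 z, y ≠ ((0 : ℂ) : Sph) := isOpen_ne.mem_nhds hz
    filter_upwards [h3] with y hy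
    rw [← cube_hom, hom_one_invC hy]

theorem holomorphic_cube : Holomorphic cube := by
  refine ⟨continuous_cube, fun A B z hz => ?_⟩
  have key : ∀ w : ℂ, B • cube (A • (w : Sph)) =
      hom (B 0 0 * (A 0 0 * w + A 0 1 * 1) ^ 3 + B 0 1 * (A 1 0 * w + A 1 1 * 1) ^ 3)
        (B 1 0 * (A 0 0 * w + A 0 1 * 1) ^ 3 + B 1 1 * (A 1 0 * w + A 1 1 * 1) ^ 3) := by
    intro w
    rw [← hom_one w, smul_hom A (Or.inr one_ne_zero), cube_hom, smul_hom B]
    exact (Nz.smul (Or.inr one_ne_zero) A).cube
  have h1 : (fun w : ℂ => toC (B • cube (A • (w : Sph)))) = fun w =>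
      (B 0 0 * (A 0 0 * w + A 0 1 * 1) ^ 3 + B 0 1 * (A 1 0 * w + A 1 1 * 1) ^ 3) /
        (B 1 0 * (A 0 0 * w + A 0 1 * 1) ^ 3 + B 1 1 * (A 1 0 * w + A 1 1 * 1) ^ 3) := by
    funext w
    rw [key, toC_hom]
  rw [h1]
  rw [key] at hz
  have hne : B 1 0 * (A 0 0 * z + A 0 1 * 1) ^ 3 + B 1 1 * (A 1 0 * z + A 1 1 * 1) ^ 3 ≠ 0 := by
    intro h0
    rw [h0, hom_zero] at hz
    exact hz rfl
  refine DifferentiableAt.div ?_ ?_ hne
  · fun_prop
  · fun_prop

theorem surjective_cube : Function.Surjective cube := by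
  intro z
  induction z using OnePoint.rec with
  | infty => exact ⟨OnePoint.infty, rfl⟩
  | coe z =>
    obtain ⟨w, hw⟩ := IsAlgClosed.exists_pow_nat_eq z (n := 3) (by norm_num)
    exact ⟨w, by rw [cube_coe, hw]⟩

end Pool.Agent.U594.AD
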